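import Mathlib

set_option autoImplicit false

/-!
# A lower bound for the rank
-/

open Matrix

namespace Pool.Agent.Run7.h570.GAP

variable {n κ : Type*} [Fintype n] [DecidableEq n] [Fintype κ]

lemma trace_sq {A : Matrix n n ℝ} (hA : A.IsHermitian) :
    (A * A).trace = ∑ i, (hA.eigenvalues i) ^ 2 := by
  have h1 : A * A = Unitary.conjStarAlgAut ℝ _ hA.eigenvectorUnitary
      (diagonal (RCLike.ofReal ∘ hA.eigenvalues) * diagonal (RCLike.ofReal ∘ hA.eigenvalues)) := by
    rw [map_mul, ← hA.spectral_theorem]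
  rw [h1, Unitary.conjStarAlgAut_apply, Matrix.trace_mul_comm, ← Matrix.mul_assoc]
  rw [show (star (hA.eigenvectorUnitary : Matrix n n ℝ)) *
    (hA.eigenvectorUnitary : Matrix n n ℝ) = 1 from by simp, Matrix.one_mul, diagonal_mul_diagonal,
    trace_diagonal]
  refine Finset.sum_congr rfl fun i _ => ?_
  simp [sq]

/-- **a lower bound for the number of columns in a factorization** -/
theorem rank_bound {ρ : ℕ} (W : Matrix n κ ℝ) (B : Matrix n (Fin ρ) ℝ) (A : Matrix (Fin ρ) κ ℝ)
    (hW : W = B * A) :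
    (∑ i, ∑ u, W i u ^ 2) ^ 2 ≤ ρ * ∑ i, ∑ j, (∑ u, W i u * W j u) ^ 2 := by
  classical
  have hG : (W * Wᵀ).IsHermitian := by
    have := Matrix.isHermitian_mul_conjTranspose_self W
    rwa [Matrix.conjTranspose_eq_transpose_of_trivial] at this
  have h1 : (W * Wᵀ).rank ≤ ρ := by
    rw [hW, Matrix.mul_assoc]
    exact (rank_mul_le_left _ _).trans ((rank_le_card_width _).trans_eq (Fintype.card_fin _))
  have h2 : (W * Wᵀ).trace = ∑ i, ∑ u, W i u ^ 2 := by
    rw [trace]
    refine Finset.sum_congr rfl fun i _ => ?_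
    rw [diag_apply, mul_apply]
    refine Finset.sum_congr rfl fun u _ => ?_
    rw [transpose_apply, sq]
  have h3 : ((W * Wᵀ) * (W * Wᵀ)).trace = ∑ i, ∑ j, (∑ u, W i u * W j u) ^ 2 := by
    rw [trace]
    refine Finset.sum_congr rfl fun i _ => ?_
    rw [diag_apply, mul_apply]
    refine Finset.sum_congr rfl fun j _ => ?_
    rw [mul_apply, mul_apply, sq]
    congr 1
    refine Finset.sum_congr rfl fun u _ => ?_
    simp only [transpose_apply]
    ring
  rw [← h2, ← h3, trace_sq hG, hG.trace_eq_sum_eigenvalues]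
  rw [hG.rank_eq_card_non_zero_eigs] at h1
  have h4 : ∑ i, ((hG.eigenvalues i : ℝ)) =
      ∑ i ∈ Finset.univ.filter (fun i => hG.eigenvalues i ≠ 0), hG.eigenvalues i := by
    rw [Finset.sum_filter_ne_zero]
  have h5 : ((Finset.univ.filter (fun i => hG.eigenvalues i ≠ 0)).card : ℝ) ≤ ρ := by
    rw [← Fintype.card_subtype]
    exact_mod_cast h1
  calc (∑ i, ((hG.eigenvalues i : ℝ))) ^ 2
      = (∑ i ∈ Finset.univ.filter (fun i => hG.eigenvalues i ≠ 0), hG.eigenvalues i) ^ 2 := by
        rw [h4]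
    _ ≤ (Finset.univ.filter (fun i => hG.eigenvalues i ≠ 0)).card *
        ∑ i ∈ Finset.univ.filter (fun i => hG.eigenvalues i ≠ 0), hG.eigenvalues i ^ 2 :=
        sq_sum_le_card_mul_sum_sq
    _ ≤ ρ * ∑ i, hG.eigenvalues i ^ 2 := by
        refine mul_le_mul h5 ?_ (Finset.sum_nonneg fun i _ => sq_nonneg _) (Nat.cast_nonneg _)
        exact Finset.sum_le_sum_of_subset_of_nonneg (Finset.filter_subset _ _)
          (fun i _ _ => sq_nonneg _)

end Pool.Agent.Run7.h570.GAP
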