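import Mathlib

set_option autoImplicit false

/-!
# The Chow rings of the powers of a variety
-/

universe u

namespace Pool.Agent.Run7.h570.GAP

/-- `φ × id : Fin (m + 1) → Fin (n + 1)`, the extension of `φ : Fin m → Fin n` by the last
elements -/
def ext {m n : ℕ} (φ : Fin m → Fin n) : Fin (m + 1) → Fin (n + 1) :=
  Fin.snoc (α := fun _ => Fin (n + 1)) (fun i => (φ i).castSucc) (Fin.last n)

/-- The formal properties of the Chow rings `A n = CH^*(X ^ n)` with rational coefficients of the
powers of a smooth projective variety `X` over a field. -/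
structure PowerRings where
  /-- the Chow ring of `X ^ n` -/
  A : ℕ → Type u
  [ring : ∀ n, CommRing (A n)]
  [alg : ∀ n, Algebra ℚ (A n)]
  /-- the pull-back under the morphism `X ^ n → X ^ m`, `(x_j) ↦ (x_(φ i))` -/
  pull : ∀ {m n : ℕ}, (Fin m → Fin n) → A m →ₐ[ℚ] A n
  /-- the push-forward under the projection `X ^ (n + 1) → X ^ n` to the first `n` factors -/
  push : ∀ {n : ℕ}, A (n + 1) →ₗ[ℚ] A n
  /-- the class of the diagonal -/
  diag : A 2
  pull_id : ∀ {n : ℕ} (x : A n), pull id x = x
  pull_comp : ∀ {l m n : ℕ} (φ : Fin l → Fin m) (ψ : Fin m → Fin n) (x : A l),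
    pull (ψ ∘ φ) x = pull ψ (pull φ x)
  /-- the projection formula -/
  push_mul : ∀ {n : ℕ} (x : A n) (y : A (n + 1)),
    push (pull Fin.castSucc x * y) = x * push y
  /-- base change -/
  push_pull : ∀ {m n : ℕ} (φ : Fin m → Fin n) (x : A (m + 1)),
    push (pull (ext φ) x) = pull φ (push x)
  /-- the push-forward of the product of `x` and the diagonal of the factor `i` and the last factor
  is the restriction of `x` to this diagonal -/
  push_diag : ∀ {n : ℕ} (i : Fin n) (x : A (n + 1)),
    push (pull ![i.castSucc, Fin.last n] diag * x) =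
      pull (Fin.snoc (α := fun _ => Fin n) id i) x
  diag_symm : pull ![1, 0] diag = diag

attribute [instance] PowerRings.ring PowerRings.alg

end Pool.Agent.Run7.h570.GAP
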