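import Pool.Agent.Run7.h570.GAP.Weights
import Pool.Agent.Run7.h570.GAP.Powers

set_option autoImplicit false
set_option linter.unusedSectionVars false

/-!
# Closing two slots of a relation
-/

open MvPolynomial

universe u

namespace Pool.Agent.Run7.h570.GAP

variable {R : PowerRings.{u}}

/-- `π` is a symmetric idempotent correspondence with the trace `δ` -/
structure IsProj (R : PowerRings.{u}) (π : R.A 2) (δ : ℚ) : Prop where
  symm : R.pull ![1, 0] π = π
  idem : R.push (R.pull ![0, 2] π * R.pull ![1, 2] π) = π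
  trace : R.push (R.push (π * π)) = algebraMap ℚ (R.A 0) δ

lemma ext_castSucc {m n : ℕ} (φ : Fin m → Fin n) (i : Fin m) : ext φ i.castSucc = (φ i).castSucc := by
  simp [ext]

lemma ext_last {m n : ℕ} (φ : Fin m → Fin n) : ext φ (Fin.last m) = Fin.last n := by
  simp [ext]

lemma pull_two_comp {m n : ℕ} (φ : Fin m → Fin n) (i j : Fin m) (x : R.A 2) :
    R.pull φ (R.pull ![i, j] x) = R.pull ![φ i, φ j] x := by
  rw [← R.pull_comp]
  congr 1
  congr 1
  ext k
  fin_cases k <;> rfl

variable {π : R.A 2} {δ : ℚ}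

lemma IsProj.swap (h : IsProj R π δ) {m : ℕ} (i j : Fin m) :
    R.pull ![i, j] π = R.pull ![j, i] π := by
  conv_lhs => rw [← h.symm]
  rw [pull_two_comp]
  rfl

/-- the value of a variable -/
noncomputable def IsProj.var (h : IsProj R π δ) {m : ℕ} (s : Sym2 (Fin m)) : R.A m :=
  Sym2.lift ⟨fun i j => R.pull ![i, j] π, fun i j => h.swap i j⟩ s

/-- the value of a polynomial -/
noncomputable def IsProj.ev (h : IsProj R π δ) (m : ℕ) : Pol (Fin m) →ₐ[ℚ] R.A m :=
  aeval h.var

lemma IsProj.ev_X (h : IsProj R π δ) {m : ℕ} (i j : Fin m) :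
    h.ev m (X s(i, j)) = R.pull ![i, j] π := by
  rw [IsProj.ev, aeval_X]
  rfl

lemma IsProj.ev_rn (h : IsProj R π δ) {m n : ℕ} (w : Fin m → Fin n) (f : Pol (Fin m)) :
    h.ev n (rn w f) = R.pull w (h.ev m f) := by
  have h1 : (h.ev n).comp (rn w) = (R.pull w).comp (h.ev m) := by
    apply algHom_ext
    intro s
    induction s with
    | _ p q =>
      rw [AlgHom.comp_apply, AlgHom.comp_apply, rn_X, h.ev_X, h.ev_X, pull_two_comp]
  exact congrArg (fun F : Pol (Fin m) →ₐ[ℚ] R.A n => F f) h1

lemma push_mul' {n : ℕ} (x : R.A n) (y : R.A (n + 1)) :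
    R.push (y * R.pull Fin.castSucc x) = R.push y * x := by
  rw [mul_comm, R.push_mul, mul_comm]

/-- two slots connected by `π` -/
lemma IsProj.push_two (h : IsProj R π δ) {n : ℕ} (i j : Fin n) :
    R.push (R.pull ![i.castSucc, Fin.last n] π * R.pull ![j.castSucc, Fin.last n] π) =
      R.pull ![i, j] π := by
  conv_rhs => rw [← h.idem]
  rw [← R.push_pull, map_mul (R.pull _), pull_two_comp, pull_two_comp]
  congr 4

lemma IsProj.push_loop (h : IsProj R π δ) (m : ℕ) :
    R.push (R.push (R.pull ![(Fin.last m).castSucc, Fin.last (m + 1)] π *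
      R.pull ![(Fin.last m).castSucc, Fin.last (m + 1)] π)) = algebraMap ℚ (R.A m) δ := by
  have h1 : ∀ φ : Fin 0 → Fin m, R.pull (ext (ext φ)) π =
      R.pull ![(Fin.last m).castSucc, Fin.last (m + 1)] π := by
    intro φ
    congr 2
    ext k
    fin_cases k
    · change (ext (ext φ) (Fin.castSucc (Fin.last 0)) : ℕ) = _
      rw [ext_castSucc, ext_last]
      rfl
    · change (ext (ext φ) (Fin.last 1) : ℕ) = _
      rw [ext_last]
      rfl
  rw [← h1 Fin.elim0, ← map_mul, R.push_pull, R.push_pull, h.trace, AlgHom.commutes]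

/-- the first `m` slots -/
def up {m : ℕ} (i : Fin m) : Fin (m + 2) := i.castSucc.castSucc

lemma up_inj {m : ℕ} : Function.Injective (up : Fin m → Fin (m + 2)) := by
  intro i j hij
  exact Fin.castSucc_injective _ (Fin.castSucc_injective _ hij)

lemma up_ne_a {m : ℕ} (i : Fin m) : up i ≠ (Fin.last m).castSucc := by
  intro h
  have := congrArg Fin.val h
  simp [up] at this
  omega

lemma up_ne_b {m : ℕ} (i : Fin m) : up i ≠ Fin.last (m + 1) := by
  intro h
  have := congrArg Fin.val h
  simp [up] at this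
  omega

lemma a_ne_b {m : ℕ} : (Fin.last m).castSucc ≠ Fin.last (m + 1) := by
  intro h
  have := congrArg Fin.val h
  simp at this

lemma exists_up {m : ℕ} {p : Fin (m + 2)} (ha : p ≠ (Fin.last m).castSucc)
    (hb : p ≠ Fin.last (m + 1)) : ∃ i, p = up i := by
  have h1 : (p : ℕ) ≠ m := fun h => ha (Fin.ext h)
  have h2 : (p : ℕ) ≠ m + 1 := fun h => hb (Fin.ext h)
  exact ⟨⟨p, by omega⟩, Fin.ext rfl⟩

lemma exists_lower {m : ℕ} {g : Pol (Fin (m + 2))} (ha : HasWt (Fin.last m).castSucc g 0)
    (hb : HasWt (Fin.last (m + 1)) g 0) : ∃ g' : Pol (Fin m), rn up g' = g := by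
  refine exists_rename_eq_of_vars_subset_range g (Sym2.map up) (Sym2.map.injective up_inj) ?_
  intro s hs
  have h1 := ha.le hs
  have h2 := hb.le hs
  induction s with
  | _ p q =>
    rw [wt_mk] at h1 h2
    obtain ⟨i, rfl⟩ := exists_up (p := p) (by rintro rfl; simp at h1) (by rintro rfl; simp at h2)
    obtain ⟨j, rfl⟩ := exists_up (p := q) (by rintro rfl; simp at h1) (by rintro rfl; simp at h2)
    exact ⟨s(i, j), rfl⟩

lemma sum_up {m : ℕ} {M : Type*} [AddCommMonoid M] (F : Fin (m + 2) → M) :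
    ∑ q, F q = ∑ i : Fin m, F (up i) + F (Fin.last m).castSucc + F (Fin.last (m + 1)) := by
  rw [Fin.sum_univ_castSucc, Fin.sum_univ_castSucc]
  rfl

/-- **closing the last two slots** -/
theorem IsProj.close (h : IsProj R π δ) {m : ℕ} {f : Pol (Fin (m + 2))} (hf : Multi f) :
    ∃ g : Pol (Fin m), rn up g = cc δ (Fin.last m).castSucc (Fin.last (m + 1)) f ∧
      R.push (R.push (R.pull ![(Fin.last m).castSucc, Fin.last (m + 1)] π * h.ev _ f)) =
        h.ev m g := by
  set a : Fin (m + 2) := (Fin.last m).castSucc with ha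
  set b : Fin (m + 2) := Fin.last (m + 1) with hb
  have hab : a ≠ b := a_ne_b
  have hba : b ≠ a := hab.symm
  have hua : ∀ i : Fin m, up i ≠ a := up_ne_a
  have hub : ∀ i : Fin m, up i ≠ b := up_ne_b
  obtain ⟨Y', hY⟩ := exists_lower (g := nn a b f) ((hf a).nn (by simp [hba]))
    ((hf b).nn (by simp [hab]))
  have hb1 : ∀ p' : Fin m, HasWt b (nn b (up p') f) 0 := fun p' => (hf b).nn (by simp [hub])
  have ha1 : ∀ p' : Fin m, HasWt a (nn b (up p') f) 1 := fun p' => (hf a).nn (by simp [hua, hba])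
  have hZ0 : ∀ p p' : Fin m, ∃ g' : Pol (Fin m), rn up g' = nn a (up p) (nn b (up p') f) := by
    intro p p'
    refine exists_lower ((ha1 p').nn (by simp [hua])) ((hb1 p').nn (by simp [hab, hub]))
  choose Z' hZ using hZ0
  have e1 : f = X s(a, b) * nn a b f +
      ∑ p' : Fin m, ∑ p : Fin m, X s(a, up p) * X s(b, up p') * nn a (up p) (nn b (up p') f) := by
    have h1 := (hf b).euler
    rw [Nat.cast_one, one_smul, ee_apply, sum_up, ← ha, ← hb,
      (hf b).nn_eq_zero (b := b) (i := b) (by simp), mul_zero, add_zero] at h1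
    conv_lhs => rw [← h1]
    refine (add_comm _ _).trans ?_
    rw [nn_symm b a, Sym2.eq_swap (a := b)]
    congr 1
    refine Finset.sum_congr rfl fun p' _ => ?_
    have h2 := (ha1 p').euler
    rw [Nat.cast_one, one_smul, ee_apply, sum_up, ← ha, ← hb,
      (ha1 p').nn_eq_zero (b := a) (i := a) (by simp),
      (hb1 p').nn_eq_zero (b := a) (i := b) (by simp), mul_zero, mul_zero, add_zero,
      add_zero] at h2
    conv_lhs => rw [← h2]
    rw [Finset.mul_sum]
    refine Finset.sum_congr rfl fun p _ => ?_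
    ring
  have e2 : cc δ a b f = δ • nn a b f +
      ∑ p' : Fin m, ∑ p : Fin m, X s(up p, up p') * nn a (up p) (nn b (up p') f) := by
    rw [cc, Finset.sum_comm]
    congr 1
    rw [sum_up, ← ha, ← hb]
    have h3 : ∑ q, X s(q, a) * nn a q (nn b a f) = 0 := by
      refine Finset.sum_eq_zero fun q _ => ?_
      have h4 : HasWt a (nn b a f) 0 := (hf a).nn (by simp [hba])
      rw [h4.nn_eq_zero (b := a) (i := q) (by simp), mul_zero]
    have h4 : ∑ q, X s(q, b) * nn a q (nn b b f) = 0 := by
      refine Finset.sum_eq_zero fun q _ => ?_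
      rw [(hf b).nn_eq_zero (b := b) (i := b) (by simp), map_zero, mul_zero]
    rw [h3, h4, add_zero, add_zero]
    refine Finset.sum_congr rfl fun p' _ => ?_
    rw [sum_up, ← ha, ← hb, (ha1 p').nn_eq_zero (b := a) (i := a) (by simp),
      (hb1 p').nn_eq_zero (b := a) (i := b) (by simp), mul_zero, mul_zero, add_zero, add_zero]
  refine ⟨δ • Y' + ∑ p' : Fin m, ∑ p : Fin m, X s(p, p') * Z' p p', ?_, ?_⟩
  · rw [e2, map_add, map_smul, hY, map_sum]
    congr 1
    refine Finset.sum_congr rfl fun p' _ => ?_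
    rw [map_sum]
    refine Finset.sum_congr rfl fun p _ => ?_
    rw [map_mul, hZ, rn_X]
  · have e3 : h.ev (m + 2) f = R.pull ![a, b] π * R.pull Fin.castSucc (R.pull Fin.castSucc (h.ev m Y')) +
        ∑ p' : Fin m, ∑ p : Fin m, R.pull ![a, up p] π * R.pull ![b, up p'] π *
          R.pull Fin.castSucc (R.pull Fin.castSucc (h.ev m (Z' p p'))) := by
      have hup : ∀ g : Pol (Fin m), h.ev (m + 2) (rn up g) =
          R.pull Fin.castSucc (R.pull Fin.castSucc (h.ev m g)) := by
        intro g
        rw [h.ev_rn, ← R.pull_comp]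
        rfl
      conv_lhs => rw [e1]
      rw [map_add, map_mul, h.ev_X, ← hY, hup, map_sum]
      congr 1
      refine Finset.sum_congr rfl fun p' _ => ?_
      rw [map_sum]
      refine Finset.sum_congr rfl fun p _ => ?_
      rw [map_mul, map_mul, h.ev_X, h.ev_X, ← hZ, hup]
    have e4 : R.push (R.push (R.pull ![a, b] π * (R.pull ![a, b] π *
        R.pull Fin.castSucc (R.pull Fin.castSucc (h.ev m Y'))))) = algebraMap ℚ _ δ * h.ev m Y' := by
      rw [← mul_assoc, push_mul', push_mul', h.push_loop]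
    have e5 : ∀ p p' : Fin m, R.push (R.push (R.pull ![a, b] π * (R.pull ![a, up p] π *
        R.pull ![b, up p'] π * R.pull Fin.castSucc (R.pull Fin.castSucc (h.ev m (Z' p p')))))) =
        R.pull ![p, p'] π * h.ev m (Z' p p') := by
      intro p p'
      rw [← mul_assoc, push_mul', push_mul']
      congr 1
      have h5 : R.pull ![a, up p] π = R.pull Fin.castSucc (R.pull ![Fin.last m, p.castSucc] π) := by
        rw [pull_two_comp]
        rfl
      rw [h5, mul_left_comm, R.push_mul, h.swap b (up p'), ha, hb, up, h.push_two,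
        h.swap (Fin.last m) p.castSucc, h.swap (Fin.last m) p'.castSucc, h.push_two]
    rw [e3, mul_add, map_add, map_add, e4, Finset.mul_sum, map_sum, map_sum, map_add, map_smul,
      map_sum, Algebra.smul_def]
    congr 1
    refine Finset.sum_congr rfl fun p' _ => ?_
    rw [Finset.mul_sum, map_sum, map_sum, map_sum]
    refine Finset.sum_congr rfl fun p _ => ?_
    rw [e5, map_mul, h.ev_X]

end Pool.Agent.Run7.h570.GAP
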