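import Pool.Agent.Run7.h570.GAP.Main

set_option autoImplicit false
set_option linter.unusedSectionVars false

/-!
# The gap theorem for self-adjoint correspondences
-/

open MvPolynomial

universe u

namespace Pool.Agent.Run7.h570.GAP.Co

/-- `Z` is a self-adjoint projector in the ring of the correspondences of `X`; the classes `a_i` with the
symmetric invertible intersection matrix `G` are fixed by `Z`; and `b` is the trace of `Z` on the
cohomology of `X`. -/
structure Cor (R : PowerRings.{u}) {b : ℕ} (Z : R.A 2) (a : Fin b → R.A 1)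
    (G : Matrix (Fin b) (Fin b) ℚ) : Prop extends PreTate R a G where
  self_adjoint : R.pull ![1, 0] Z = Z
  projector : R.push (R.pull ![0, 2] Z * R.pull ![1, 2] Z) = Z
  fixed : ∀ i, R.push (R.pull (fun _ => 1) (a i) * Z) = a i
  trace : R.push (R.push (Z * Z)) = algebraMap ℚ (R.A 0) b

/-- The transcendental part `Z - ∑ (G⁻¹)_(i, j) a_i × a_j` of `Z`. -/
noncomputable def tz (R : PowerRings.{u}) {b : ℕ} (Z : R.A 2) (a : Fin b → R.A 1)
    (G : Matrix (Fin b) (Fin b) ℚ) : R.A 2 := Z - tt R a G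

variable {R : PowerRings.{u}} {b : ℕ} {Z : R.A 2} {a : Fin b → R.A 1} {G : Matrix (Fin b) (Fin b) ℚ}

lemma Cor.push_tr (h : Cor R Z a G) (i : Fin b) : R.push (R.on 1 (a i) * tz R Z a G) = 0 := by
  have h1 : R.push (R.on 1 (a i) * Z) = a i := h.fixed i
  rw [tz, mul_sub, map_sub, h1, h.push_tt, sub_self]

lemma Cor.push_dl (h : Cor R Z a G) (i : Fin b) :
    R.push (R.on 1 (dl R a G i) * Z) = dl R a G i := by
  have h1 : ∀ i, R.push (R.on 1 (a i) * Z) = a i := h.fixed
  rw [dl, map_sum, Finset.sum_mul, map_sum]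
  refine Finset.sum_congr rfl fun j _ => ?_
  rw [map_smul, smul_mul_assoc, map_smul, h1]

lemma Cor.push_tr_dl (h : Cor R Z a G) (i : Fin b) :
    R.push (R.on 1 (dl R a G i) * tz R Z a G) = 0 := by
  rw [dl, map_sum, Finset.sum_mul, map_sum]
  refine Finset.sum_eq_zero fun j _ => ?_
  rw [map_smul, smul_mul_assoc, map_smul, h.push_tr, smul_zero]

lemma Cor.tr_symm (h : Cor R Z a G) : R.pull ![1, 0] (tz R Z a G) = tz R Z a G := by
  rw [tz, map_sub, h.self_adjoint, h.tt_symm]

theorem Cor.isProj (h : Cor R Z a G) : IsProj R (tz R Z a G) 0 where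
  symm := h.tr_symm
  idem := by
    have h1 : R.pull ![0, 2] (tz R Z a G) = R.pull ![0, 2] Z -
        ∑ i, R.on 0 (a i) * R.on (Fin.last 2) (dl R a G i) := by
      rw [tz, map_sub, tt_eq, map_sum]
      congr 1
      refine Finset.sum_congr rfl fun i _ => ?_
      rw [map_mul, pull_on, pull_on]
      rfl
    have h2 : ∑ i, R.push (R.on 0 (a i) * R.on (Fin.last 2) (dl R a G i) *
        R.pull ![1, 2] (tz R Z a G)) = 0 := by
      refine Finset.sum_eq_zero fun i _ => ?_
      have h3 : R.on (0 : Fin 3) (a i) = R.pull Fin.castSucc (R.on 0 (a i)) := by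
        rw [pull_on]
        rfl
      have h4 : R.pull ![1, 2] (tz R Z a G) =
          R.pull ![(1 : Fin 2).castSucc, Fin.last 2] (tz R Z a G) := rfl
      rw [h3, mul_assoc, R.push_mul, h4, push_two_on, h.push_tr_dl, map_zero, mul_zero]
    rw [h1, sub_mul, map_sub, Finset.sum_mul, map_sum, h2, sub_zero]
    have h5 : R.pull ![1, 2] (tz R Z a G) = R.pull ![1, 2] Z -
        ∑ i, R.on 1 (a i) * R.on (Fin.last 2) (dl R a G i) := by
      rw [tz, map_sub, tt_eq, map_sum]
      congr 1
      refine Finset.sum_congr rfl fun i _ => ?_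
      rw [map_mul, pull_on, pull_on]
      rfl
    rw [h5, mul_sub, map_sub, h.projector, tz]
    congr 1
    rw [Finset.mul_sum, map_sum, ← h.tt_symm, tt_eq, map_sum]
    refine Finset.sum_congr rfl fun i _ => ?_
    have h6 : R.on (1 : Fin 3) (a i) = R.pull Fin.castSucc (R.on (1 : Fin 2) (a i)) := by
      rw [pull_on]
      rfl
    have h7 : R.pull ![0, 2] Z = R.pull ![(0 : Fin 2).castSucc, Fin.last 2] Z := rfl
    rw [h6, mul_left_comm, R.push_mul, mul_comm (R.pull ![0, 2] Z), h7, push_two_on, h.push_dl,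
      map_mul, pull_on, pull_on]
    rfl
  trace := by
    have h1 : tz R Z a G * tz R Z a G = Z * Z - Z * tt R a G -
        ∑ i, R.on 0 (a i) * (R.on 1 (dl R a G i) * tz R Z a G) := by
      have h2 : tz R Z a G * tz R Z a G = Z * tz R Z a G - tt R a G * tz R Z a G := by
        conv_lhs => rw [tz]
        rw [sub_mul]
        rfl
      rw [h2, tt_eq, Finset.sum_mul]
      congr 1
      · rw [← tt_eq, tz, mul_sub]
      · refine Finset.sum_congr rfl fun i _ => ?_
        rw [mul_assoc]
    rw [h1, map_sub, map_sub, map_sub, map_sub, h.trace, map_sum]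
    have h3 : ∑ i, R.push (R.on 0 (a i) * (R.on 1 (dl R a G i) * tz R Z a G)) = 0 := by
      refine Finset.sum_eq_zero fun i _ => ?_
      have h3 : R.on (0 : Fin 2) (a i) = R.pull Fin.castSucc (R.on 0 (a i)) := by
        rw [pull_on]
        rfl
      rw [h3, R.push_mul, h.push_tr_dl, mul_zero]
    rw [h3, map_zero, sub_zero]
    have h4 : R.push (Z * tt R a G) = ∑ i, a i * dl R a G i := by
      rw [tt_eq, Finset.mul_sum, map_sum]
      refine Finset.sum_congr rfl fun i _ => ?_
      have h3 : R.on (0 : Fin 2) (a i) = R.pull Fin.castSucc (a i) := by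
        rw [← on_zero (a i), pull_on, on_zero]
        rfl
      rw [h3, mul_left_comm, R.push_mul, mul_comm Z, h.push_dl]
    rw [h4, map_sum]
    simp only [h.dual, if_true, map_one, Finset.sum_const, Finset.card_univ, Fintype.card_fin]
    simp

lemma Cor.Tt_two (h : Cor R Z a G) {n : ℕ} {p q : Fin n} (hpq : p ≠ q) :
    Tt a p (R.pull ![p, q] (tz R Z a G)) := by
  intro i
  have h1 : R.pull ![p, q] (tz R Z a G) = R.pull ![q, p] (tz R Z a G) := by
    conv_lhs => rw [← h.tr_symm]
    rw [pull_two_comp]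
    rfl
  rw [h1, pull_two_comp, sb_self, sb_ne hpq.symm, mul_comm, push_two_on, h.push_tr,
    map_zero]

lemma Cor.Tt_mul (h : Cor R Z a G) {n : ℕ} {p q : Fin n} (hpq : p ≠ q) {w : R.A n}
    (hw : Free p w) : Tt a p (R.pull ![p, q] (tz R Z a G) * w) := (h.Tt_two hpq).mul_free hw

/-- the products of the pairs are transcendental in all factors -/
lemma Cor.Tt_xs (h : Cor R Z a G) {δ : ℚ} (hp : IsProj R (tz R Z a G) δ) {k : ℕ}
    (σ : Equiv.Perm (Fin k)) (s : Fin (k + k)) : Tt a s (hp.ev (k + k) (xs σ)) := by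
  have h1 : hp.ev (k + k) (xs σ) = ∏ i, R.pull ![lf i, rt (σ i)] (tz R Z a G) := by
    rw [xs, map_prod]
    exact Finset.prod_congr rfl fun i _ => hp.ev_X _ _
  rw [h1]
  induction s using slot_cases with
  | hl i₀ =>
    rw [← Finset.mul_prod_erase Finset.univ _ (Finset.mem_univ i₀)]
    refine h.Tt_mul (lf_ne_rt _ _) (Free.prod fun i hi => Free.two ?_ (lf_ne_rt _ _).symm _)
    exact fun h2 => (Finset.mem_erase.1 hi).1 (lf_inj h2)
  | hr j =>
    obtain ⟨i₀, rfl⟩ := σ.surjective j
    rw [← Finset.mul_prod_erase Finset.univ _ (Finset.mem_univ i₀), hp.swap]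
    refine h.Tt_mul (lf_ne_rt _ _).symm (Free.prod fun i hi => Free.two (lf_ne_rt _ _) ?_ _)
    exact fun h2 => (Finset.mem_erase.1 hi).1 (σ.injective (rt_inj h2))

/-- the last factor -/
lemma Cor.Tt_last (h : Cor R Z a G) {n : ℕ} {y : R.A (n + 1)} (hy : Tt a (Fin.last n) y)
    (i : Fin b) : R.push (y * R.on (Fin.last n) (a i)) = 0 := by
  have h1 : sb (Fin.last n) = ext (Fin.castSucc : Fin n → Fin (n + 1)) := by
    ext1 t
    refine Fin.lastCases ?_ (fun t => ?_) t
    · rw [sb_self, ext_last]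
    · rw [sb_ne (Fin.castSucc_lt_last t).ne, ext_castSucc]
  have h2 : R.on (Fin.last (n + 1)) (a i) =
      R.pull (ext (Fin.castSucc : Fin n → Fin (n + 1))) (R.on (Fin.last n) (a i)) := by
    rw [pull_on, ext_last]
  have h3 := hy i
  rw [h1, h2, ← map_mul, R.push_pull] at h3
  have h4 := push_on (R.push (y * R.on (Fin.last n) (a i))) (a i * dl R a G i) (h.dual i i)
  rw [h3, zero_mul, map_zero, if_pos rfl, one_smul] at h4
  exact h4.symm

lemma Cor.Tt_last_dl (h : Cor R Z a G) {n : ℕ} {y : R.A (n + 1)} (hy : Tt a (Fin.last n) y)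
    (i : Fin b) : R.push (y * R.on (Fin.last n) (dl R a G i)) = 0 := by
  rw [dl, map_sum, Finset.mul_sum, map_sum]
  refine Finset.sum_eq_zero fun j _ => ?_
  rw [map_smul, mul_smul_comm, map_smul, h.Tt_last hy, smul_zero]

/-- The products of pull-backs `Z_(i, j)` and classes `a_i`: each factor of the power occurs in exactly
one factor of the product. -/
inductive IsProduct (R : PowerRings.{u}) {b : ℕ} (Z : R.A 2) (a : Fin b → R.A 1) : ∀ n : ℕ, R.A n → Prop
  | one : IsProduct R Z a 0 1
  | cls {n : ℕ} {z : R.A n} (hz : IsProduct R Z a n z) (i : Fin b) :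
      IsProduct R Z a (n + 1) (R.pull Fin.castSucc z * R.pull (fun _ => Fin.last n) (a i))
  | dia {n : ℕ} {z : R.A n} (hz : IsProduct R Z a n z) :
      IsProduct R Z a (n + 2) (R.pull (Fin.castSucc ∘ Fin.castSucc) z *
        R.pull ![(Fin.last n).castSucc, Fin.last (n + 1)] Z)
  | perm {n m : ℕ} {z : R.A n} (hz : IsProduct R Z a n z) (e : Fin n ≃ Fin m) :
      IsProduct R Z a m (R.pull e z)

/-- the linear combinations of the products -/
def EE (R : PowerRings.{u}) {b : ℕ} (Z : R.A 2) (a : Fin b → R.A 1) (n : ℕ) : Submodule ℚ (R.A n) :=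
  Submodule.span ℚ {z | IsProduct R Z a n z}

lemma EE.map_of {n m : ℕ} (F : R.A n →ₗ[ℚ] R.A m)
    (hF : ∀ z, IsProduct R Z a n z → F z ∈ EE R Z a m) {z : R.A n} (hz : z ∈ EE R Z a n) :
    F z ∈ EE R Z a m := by
  induction hz using Submodule.span_induction with
  | mem z hz => exact hF z hz
  | zero => rw [map_zero]; exact Submodule.zero_mem _
  | add x y _ _ hx hy => rw [map_add]; exact Submodule.add_mem _ hx hy
  | smul c x _ hx => rw [map_smul]; exact Submodule.smul_mem _ c hx

lemma EE.cls {n : ℕ} {z : R.A n} (hz : z ∈ EE R Z a n) (i : Fin b) :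
    R.pull Fin.castSucc z * R.on (Fin.last n) (a i) ∈ EE R Z a (n + 1) := by
  refine EE.map_of ((LinearMap.mulRight ℚ (R.on (Fin.last n) (a i))).comp
    (R.pull Fin.castSucc).toLinearMap) (fun z hz => ?_) hz
  exact Submodule.subset_span (IsProduct.cls hz i)

lemma EE.perm {n m : ℕ} {z : R.A n} (hz : z ∈ EE R Z a n) (e : Fin n ≃ Fin m) :
    R.pull e z ∈ EE R Z a m := by
  refine EE.map_of (R.pull e).toLinearMap (fun z hz => ?_) hz
  exact Submodule.subset_span (IsProduct.perm hz e)

lemma EE.dia {n : ℕ} {z : R.A n} (hz : z ∈ EE R Z a n) :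
    R.pull (Fin.castSucc ∘ Fin.castSucc) z *
      R.pull ![(Fin.last n).castSucc, Fin.last (n + 1)] Z ∈ EE R Z a (n + 2) := by
  refine EE.map_of ((LinearMap.mulRight ℚ (R.pull ![(Fin.last n).castSucc, Fin.last (n + 1)]
    Z)).comp (R.pull (Fin.castSucc ∘ Fin.castSucc)).toLinearMap) (fun z hz => ?_) hz
  exact Submodule.subset_span (IsProduct.dia hz)

lemma EE.tr {n : ℕ} {z : R.A n} (hz : z ∈ EE R Z a n) :
    R.pull (Fin.castSucc ∘ Fin.castSucc) z *
      R.pull ![(Fin.last n).castSucc, Fin.last (n + 1)] (tz R Z a G) ∈ EE R Z a (n + 2) := by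
  rw [tz, map_sub, mul_sub]
  refine Submodule.sub_mem _ (EE.dia hz) ?_
  rw [tt, map_sum, Finset.mul_sum]
  refine Submodule.sum_mem _ fun i _ => ?_
  rw [map_sum, Finset.mul_sum]
  refine Submodule.sum_mem _ fun j _ => ?_
  rw [map_smul, mul_smul_comm, map_mul, pull_on, pull_on, ← mul_assoc, R.pull_comp]
  have h1 : R.on (![(Fin.last n).castSucc, Fin.last (n + 1)] 0) (a i) =
      R.pull Fin.castSucc (R.on (Fin.last n) (a i)) := by
    rw [pull_on]
    rfl
  rw [h1, ← map_mul]
  exact Submodule.smul_mem _ _ (EE.cls (EE.cls hz i) j)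

/-- the products of disjoint pairs -/
lemma EE.pairs {k : ℕ} : ∀ {n : ℕ} (_ : n = k + k) (p q : Fin k → Fin n)
    (_ : Function.Injective p) (_ : Function.Injective q) (_ : ∀ i j, p i ≠ q j),
    ∏ i, R.pull ![p i, q i] (tz R Z a G) ∈ EE R Z a n := by
  induction k with
  | zero =>
    intro n hn p q _ _ _
    subst hn
    rw [Finset.univ_eq_empty, Finset.prod_empty]
    exact Submodule.subset_span IsProduct.one
  | succ k ih =>
    intro n hn p q hp hq hpq
    have h1 := ih (n := k + k) rfl (Fin.castAdd k) (Fin.natAdd k) (Fin.castAdd_injective _ _)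
      (Fin.natAdd_injective _ _) (fun i j => lf_ne_rt i j)
    have h2 := EE.tr (G := G) h1
    let f : Fin (k + k + 1 + 1) → Fin n := Fin.snoc (α := fun _ => Fin n)
      (Fin.snoc (α := fun _ => Fin n) (Fin.append (fun i => p i.castSucc) (fun i => q i.castSucc))
        (p (Fin.last k))) (q (Fin.last k))
    have f1 : ∀ i : Fin k, f (Fin.castAdd k i).castSucc.castSucc = p i.castSucc := by
      intro i
      simp only [f, Fin.snoc_castSucc, Fin.append_left]
    have f2 : ∀ i : Fin k, f (Fin.natAdd k i).castSucc.castSucc = q i.castSucc := by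
      intro i
      simp only [f, Fin.snoc_castSucc, Fin.append_right]
    have f3 : f (Fin.last (k + k)).castSucc = p (Fin.last k) := by
      simp only [f, Fin.snoc_castSucc, Fin.snoc_last]
    have f4 : f (Fin.last (k + k + 1)) = q (Fin.last k) := by
      simp only [f, Fin.snoc_last]
    have hf : Function.Surjective f := by
      have h3 : Finset.image p Finset.univ ∪ Finset.image q Finset.univ = Finset.univ := by
        rw [← Finset.card_eq_iff_eq_univ, Finset.card_union_of_disjoint,
          Finset.card_image_of_injective _ hp, Finset.card_image_of_injective _ hq]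
        · simp [hn]
        · rw [Finset.disjoint_left]
          intro x hx hx'
          obtain ⟨i, _, rfl⟩ := Finset.mem_image.1 hx
          obtain ⟨j, _, hj⟩ := Finset.mem_image.1 hx'
          exact hpq i j hj.symm
      intro y
      have h4 : y ∈ Finset.image p Finset.univ ∪ Finset.image q Finset.univ := by
        rw [h3]; exact Finset.mem_univ y
      rcases Finset.mem_union.1 h4 with h5 | h5
      · obtain ⟨i, _, rfl⟩ := Finset.mem_image.1 h5
        refine Fin.lastCases ⟨_, f3⟩ (fun i => ⟨_, f1 i⟩) i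
      · obtain ⟨i, _, rfl⟩ := Finset.mem_image.1 h5
        refine Fin.lastCases ⟨_, f4⟩ (fun i => ⟨_, f2 i⟩) i
    have hb : Function.Bijective f :=
      (Fintype.bijective_iff_surjective_and_card f).2 ⟨hf, by simp; omega⟩
    have h3 := EE.perm h2 (Equiv.ofBijective f hb)
    rw [map_mul, map_prod, map_prod, Equiv.coe_ofBijective, pull_two_comp, f3, f4] at h3
    rw [Fin.prod_univ_castSucc]
    convert h3 using 2
    refine Finset.prod_congr rfl fun i _ => ?_
    rw [pull_two_comp, pull_two_comp, Function.comp_apply, Function.comp_apply, f1, f2]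

lemma xs_mem {δ : ℚ} (hp : IsProj R (tz R Z a G) δ) {k : ℕ} (σ : Equiv.Perm (Fin k)) :
    hp.ev (k + k) (xs σ) ∈ EE R Z a (k + k) := by
  have h1 : hp.ev (k + k) (xs σ) = ∏ i, R.pull ![lf i, rt (σ i)] (tz R Z a G) := by
    rw [xs, map_prod]
    exact Finset.prod_congr rfl fun i _ => hp.ev_X _ _
  rw [h1]
  exact EE.pairs rfl _ _ (fun i j hij => lf_inj hij)
    (fun i j hij => σ.injective (rt_inj hij)) (fun i j => lf_ne_rt _ _)

/-- the linear combinations of the products which are transcendental in the first `k` factors -/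
def FF (R : PowerRings.{u}) {b : ℕ} (Z : R.A 2) (a : Fin b → R.A 1) (n k : ℕ) : Submodule ℚ (R.A n) where
  carrier := {y | y ∈ EE R Z a n ∧ ∀ s : Fin n, (s : ℕ) < k → Tt a s y}
  add_mem' := fun hx hy => ⟨Submodule.add_mem _ hx.1 hy.1, fun s hs => (hx.2 s hs).add (hy.2 s hs)⟩
  zero_mem' := ⟨Submodule.zero_mem _, fun s _ => Tt.zero s⟩
  smul_mem' := fun c _ hx => ⟨Submodule.smul_mem _ c hx.1, fun s hs => (hx.2 s hs).smul c⟩

/-- the map which decomposes the space according to the last factor -/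
noncomputable def dec (R : PowerRings.{u}) {b : ℕ} (Z : R.A 2) (a : Fin b → R.A 1) (n k : ℕ) (hk : k ≤ n) :
    ((Fin b → FF R Z a n k) × FF R Z a (n + 1) (k + 1)) →ₗ[ℚ] FF R Z a (n + 1) k where
  toFun x := ⟨∑ i, R.pull Fin.castSucc (x.1 i : R.A n) * R.on (Fin.last n) (a i) +
      R.pull (Equiv.swap (⟨k, by omega⟩ : Fin (n + 1)) (Fin.last n)) (x.2 : R.A (n + 1)), by
    constructor
    · refine Submodule.add_mem _ (Submodule.sum_mem _ fun i _ => EE.cls (x.1 i).2.1 i) ?_
      exact EE.perm x.2.2.1 _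
    · intro s hs
      have hsn : (s : ℕ) < n := by omega
      refine Tt.add ?_ ?_
      · have h1 : ∀ S : Finset (Fin b), Tt a s
            (∑ i ∈ S, R.pull Fin.castSucc (x.1 i : R.A n) * R.on (Fin.last n) (a i)) := by
          intro S
          induction S using Finset.induction_on with
          | empty => rw [Finset.sum_empty]; exact Tt.zero s
          | insert i S hi ih =>
            rw [Finset.sum_insert hi]
            refine Tt.add ?_ ih
            have h2 : s = Fin.castSucc (⟨s, hsn⟩ : Fin n) := rfl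
            refine Tt.mul_free ?_ (Free.on ?_ _)
            · rw [h2]
              exact Tt.pull ((x.1 i).2.2 ⟨s, hsn⟩ hs) (Fin.castSucc_injective n)
            · intro h3
              have := congrArg Fin.val h3
              simp at this
              omega
        exact h1 _
      · have h2 : Equiv.swap (⟨k, by omega⟩ : Fin (n + 1)) (Fin.last n) s = s := by
          refine Equiv.swap_apply_of_ne_of_ne ?_ ?_
          · intro h3
            have := congrArg Fin.val h3
            simp at this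
            omega
          · intro h3
            have := congrArg Fin.val h3
            simp at this
            omega
        have h3 := Tt.pull (x.2.2.2 s (by omega)) (Equiv.swap (⟨k, by omega⟩ : Fin (n + 1))
          (Fin.last n)).injective
        rwa [h2] at h3⟩
  map_add' x y := by
    apply Subtype.ext
    simp only [Prod.fst_add, Prod.snd_add, Pi.add_apply, Submodule.coe_add, map_add, add_mul,
      Finset.sum_add_distrib]
    abel
  map_smul' c x := by
    apply Subtype.ext
    simp only [Prod.smul_fst, Prod.smul_snd, Pi.smul_apply, Submodule.coe_smul, map_smul,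
      smul_mul_assoc, ← Finset.smul_sum, RingHom.id_apply, smul_add]

lemma Cor.dec_injective (h : Cor R Z a G) {n k : ℕ} (hk : k ≤ n) :
    Function.Injective (dec R Z a n k hk) := by
  rw [injective_iff_map_eq_zero]
  rintro ⟨z, y⟩ hx
  have h1 : ∑ i, R.pull Fin.castSucc (z i : R.A n) * R.on (Fin.last n) (a i) +
      R.pull (Equiv.swap (⟨k, by omega⟩ : Fin (n + 1)) (Fin.last n)) (y : R.A (n + 1)) = 0 :=
    congrArg Subtype.val hx
  have h2 : Tt a (Fin.last n)
      (R.pull (Equiv.swap (⟨k, by omega⟩ : Fin (n + 1)) (Fin.last n)) (y : R.A (n + 1))) := by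
    have h3 := Tt.pull (y.2.2 (⟨k, by omega⟩ : Fin (n + 1)) (by simp))
      (Equiv.swap (⟨k, by omega⟩ : Fin (n + 1)) (Fin.last n)).injective
    rwa [Equiv.swap_apply_left] at h3
  have h3 : ∀ j, (z j : R.A n) = 0 := by
    intro j
    have h4 := congrArg (fun t => R.push (t * R.on (Fin.last n) (dl R a G j))) h1
    simp only [add_mul, map_add, zero_mul, map_zero] at h4
    rw [h.Tt_last_dl h2, add_zero, Finset.sum_mul, map_sum] at h4
    have h5 : ∀ i, R.push (R.pull Fin.castSucc (z i : R.A n) * R.on (Fin.last n) (a i) *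
        R.on (Fin.last n) (dl R a G j)) = (if i = j then (1 : ℚ) else 0) • (z i : R.A n) := by
      intro i
      rw [← push_on _ _ (h.dual i j), map_mul (R.on _), mul_assoc]
    rw [Finset.sum_congr rfl fun i _ => h5 i] at h4
    simpa using h4
  have h4 : (y : R.A (n + 1)) = 0 := by
    simp only [h3, map_zero, zero_mul, Finset.sum_const_zero, zero_add] at h1
    have h5 := congrArg (R.pull (Equiv.swap (⟨k, by omega⟩ : Fin (n + 1)) (Fin.last n))) h1
    rw [← R.pull_comp, map_zero] at h5
    have h6 : (⇑(Equiv.swap (⟨k, by omega⟩ : Fin (n + 1)) (Fin.last n)) ∘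
        ⇑(Equiv.swap (⟨k, by omega⟩ : Fin (n + 1)) (Fin.last n))) = id := by
      ext1 t
      simp
    rwa [h6, R.pull_id] at h5
  refine Prod.ext (funext fun j => Subtype.ext (h3 j)) (Subtype.ext h4)

/-- the recursion for the ranks -/
lemma Cor.rank_step (h : Cor R Z a G) {n k : ℕ} (hk : k ≤ n) :
    (b : Cardinal.{u}) * Module.rank ℚ (FF R Z a n k) + Module.rank ℚ (FF R Z a (n + 1) (k + 1)) ≤
      Module.rank ℚ (FF R Z a (n + 1) k) := by
  have h1 := LinearMap.rank_le_of_injective _ (h.dec_injective hk)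
  rw [rank_prod', rank_fun_eq_lift_mul, Fintype.card_fin] at h1
  simpa using h1

/-- the dimensions of the spans of the products of pairs -/
noncomputable def rk {δ : ℚ} (hp : IsProj R (tz R Z a G) δ) (n : ℕ) : ℕ :=
  if Even n then Module.finrank ℚ (LinearMap.range (Phi hp (n / 2))) else 0

lemma Cor.rk_le (h : Cor R Z a G) {δ : ℚ} (hp : IsProj R (tz R Z a G) δ) (n : ℕ) :
    (rk hp n : Cardinal.{u}) ≤ Module.rank ℚ (FF R Z a n n) := by
  rw [rk]
  split_ifs with hn
  · obtain ⟨k, rfl⟩ := hn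
    have h1 : (k + k) / 2 = k := by omega
    rw [h1, Module.finrank_eq_rank]
    refine Submodule.rank_mono ?_
    rintro _ ⟨c, rfl⟩
    rw [Phi, Fintype.linearCombination_apply]
    refine Submodule.sum_mem _ fun σ _ => Submodule.smul_mem _ _ ?_
    exact ⟨xs_mem hp σ, fun s _ => h.Tt_xs hp σ s⟩
  · simp

/-- the lower bounds -/
noncomputable def LL {δ : ℚ} (hp : IsProj R (tz R Z a G) δ) : ℕ → ℕ → ℕ
  | 0, k => rk hp k
  | m + 1, k => b * LL hp m k + LL hp m (k + 1)

lemma Cor.LL_le (h : Cor R Z a G) {δ : ℚ} (hp : IsProj R (tz R Z a G) δ) (m : ℕ) :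
    ∀ k n : ℕ, n = m + k → (LL hp m k : Cardinal.{u}) ≤ Module.rank ℚ (FF R Z a n k) := by
  induction m with
  | zero =>
    intro k n hn
    rw [Nat.zero_add] at hn
    subst hn
    exact h.rk_le hp n
  | succ m ih =>
    intro k n hn
    obtain ⟨n', rfl⟩ : ∃ n', n = n' + 1 := ⟨m + k, by omega⟩
    refine le_trans ?_ (h.rank_step (n := n') (k := k) (by omega))
    rw [LL]
    push_cast
    exact add_le_add (mul_le_mul_right (ih k n' (by omega)) _) (ih (k + 1) (n' + 1) (by omega))

lemma LL_bound {δ : ℚ} (hp : IsProj R (tz R Z a G) δ) {c K : ℕ} (D : ℤ)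
    (hc : ∀ j, j ≤ K → (D ^ j + (-D) ^ j) ≤ 2 * c * rk hp j) (m : ℕ) : ∀ k : ℕ, m + k ≤ K →
    ((b : ℤ) + D) ^ m * D ^ k + ((b : ℤ) - D) ^ m * (-D) ^ k ≤ 2 * c * LL hp m k := by
  induction m with
  | zero =>
    intro k hk
    have := hc k (by omega)
    simpa [LL] using this
  | succ m ih =>
    intro k hk
    have h1 := ih k (by omega)
    have h2 := ih (k + 1) (by omega)
    have h3 : (0 : ℤ) ≤ b := Int.natCast_nonneg b
    rw [LL]
    push_cast
    calc ((b : ℤ) + D) ^ (m + 1) * D ^ k + ((b : ℤ) - D) ^ (m + 1) * (-D) ^ k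
        = b * (((b : ℤ) + D) ^ m * D ^ k + ((b : ℤ) - D) ^ m * (-D) ^ k) +
          (((b : ℤ) + D) ^ m * D ^ (k + 1) + ((b : ℤ) - D) ^ m * (-D) ^ (k + 1)) := by ring
      _ ≤ b * (2 * c * LL hp m k) + 2 * c * LL hp m (k + 1) :=
        add_le_add (mul_le_mul_of_nonneg_left h1 h3) h2
      _ = _ := by ring

lemma Cor.rk_bound (h : Cor R Z a G) (hπ : tz R Z a G ≠ 0) (n : ℕ) {j : ℕ} (hj : j ≤ n) :
    ((4 : ℤ) ^ j + (-4) ^ j) ≤ 2 * ((n / 2 + 15).choose 15 : ℕ) * rk h.isProj j := by
  rcases Nat.even_or_odd j with he | ho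
  · have h1 := rank_Phi_zero (h := h.isProj) hπ (j / 2)
    have h2 : rk h.isProj j = Module.finrank ℚ (LinearMap.range (Phi h.isProj (j / 2))) := if_pos he
    have h3 : (j / 2 + 15).choose 15 ≤ (n / 2 + 15).choose 15 :=
      Nat.choose_le_choose _ (by omega)
    have h4 : (16 : ℕ) ^ (j / 2) = 4 ^ j := by
      rw [show (16 : ℕ) = 4 ^ 2 by norm_num, ← pow_mul, Nat.two_mul_div_two_of_even he]
    rw [← h2, h4] at h1
    have h5 : 4 ^ j ≤ rk h.isProj j * (n / 2 + 15).choose 15 :=
      h1.trans (Nat.mul_le_mul_left _ h3)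
    have h6 : (4 : ℤ) ^ j ≤ rk h.isProj j * ((n / 2 + 15).choose 15 : ℕ) := by exact_mod_cast h5
    rw [he.neg_pow]
    linarith
  · rw [ho.neg_pow]
    have : (0 : ℤ) ≤ 2 * ((n / 2 + 15).choose 15 : ℕ) * rk h.isProj j := by positivity
    linarith

/-- **the growth of the space of the products** -/
theorem Cor.growth (h : Cor R Z a G) (hπ : tz R Z a G ≠ 0) (n : ℕ) :
    ∃ N : ℕ, (N : Cardinal.{u}) ≤ Module.rank ℚ (EE R Z a n) ∧
      ((b : ℤ) + 4) ^ n + ((b : ℤ) - 4) ^ n ≤ 2 * ((n / 2 + 15).choose 15 : ℕ) * N := by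
  refine ⟨LL h.isProj n 0, (h.LL_le h.isProj n 0 n rfl).trans
    (Submodule.rank_mono fun y hy => hy.1), ?_⟩
  have h1 := LL_bound h.isProj 4 (fun j hj => h.rk_bound hπ n hj) n 0 le_rfl
  simpa using h1

/-- independent elements of a spanning set -/
lemma exists_indep {M : Type u} [AddCommGroup M] [Module ℚ M] (s : Set M) {N : ℕ}
    (hN : (N : Cardinal.{u}) ≤ Module.rank ℚ (Submodule.span ℚ s)) :
    ∃ v : Fin N → M, (∀ j, v j ∈ s) ∧ LinearIndependent ℚ v := by
  obtain ⟨t, hts, hspan, hli⟩ := exists_linearIndependent ℚ s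
  rw [← hspan, rank_span_set hli] at hN
  have h1 : Cardinal.lift.{u} (Cardinal.mk (Fin N)) ≤ Cardinal.lift.{0} (Cardinal.mk t) := by
    simpa using hN
  obtain ⟨f⟩ := Cardinal.lift_mk_le'.1 h1
  exact ⟨fun j => (f j : M), fun j => hts (f j).2, hli.comp _ f.injective⟩

/-- if the diagonal is a combination of Tate classes then so are the products -/
lemma Cor.small (hπ : tz R Z a G = 0) {n : ℕ} {z : R.A n} (hz : IsProduct R Z a n z) :
    z ∈ Submodule.span ℚ (Set.range fun g : Fin n → Fin b => ∏ s, R.on s (a (g s))) := by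
  have hcls : ∀ (n : ℕ) (z : R.A n) (i : Fin b),
      z ∈ Submodule.span ℚ (Set.range fun g : Fin n → Fin b => ∏ s, R.on s (a (g s))) →
      R.pull Fin.castSucc z * R.on (Fin.last n) (a i) ∈
        Submodule.span ℚ (Set.range fun g : Fin (n + 1) → Fin b => ∏ s, R.on s (a (g s))) := by
    intro n z i hz
    induction hz using Submodule.span_induction with
    | mem z hz =>
      obtain ⟨g, rfl⟩ := hz
      refine Submodule.subset_span ⟨Fin.snoc (α := fun _ => Fin b) g i, ?_⟩
      simp only [Fin.prod_univ_castSucc, Fin.snoc_castSucc, Fin.snoc_last, map_prod, pull_on]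
    | zero => rw [map_zero, zero_mul]; exact Submodule.zero_mem _
    | add x y _ _ hx hy => rw [map_add, add_mul]; exact Submodule.add_mem _ hx hy
    | smul c x _ hx => rw [map_smul, smul_mul_assoc]; exact Submodule.smul_mem _ c hx
  induction hz with
  | one =>
    refine Submodule.subset_span ⟨Fin.elim0, ?_⟩
    simp
  | cls hz i ih => exact hcls _ _ i ih
  | @dia n z hz ih =>
    have h1 : Z = tt R a G := by
      rw [tz] at hπ
      exact sub_eq_zero.1 hπ
    rw [h1, tt, map_sum, Finset.mul_sum]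
    refine Submodule.sum_mem _ fun i _ => ?_
    rw [map_sum, Finset.mul_sum]
    refine Submodule.sum_mem _ fun j _ => ?_
    rw [map_smul, mul_smul_comm, map_mul, pull_on, pull_on, ← mul_assoc, R.pull_comp]
    have h1 : R.on (![(Fin.last n).castSucc, Fin.last (n + 1)] 0) (a i) =
        R.pull Fin.castSucc (R.on (Fin.last n) (a i)) := by
      rw [pull_on]
      rfl
    rw [h1, ← map_mul]
    exact Submodule.smul_mem _ _ (hcls _ _ _ (hcls _ _ _ ih))
  | @perm n m z hz e ih =>
    clear hz
    induction ih using Submodule.span_induction with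
    | mem z hz =>
      obtain ⟨g, rfl⟩ := hz
      refine Submodule.subset_span ⟨g ∘ e.symm, ?_⟩
      simp only [map_prod, pull_on]
      rw [← Equiv.prod_comp e]
      simp
    | zero => rw [map_zero]; exact Submodule.zero_mem _
    | add x y _ _ hx hy => rw [map_add]; exact Submodule.add_mem _ hx hy
    | smul c x _ hx => rw [map_smul]; exact Submodule.smul_mem _ c hx

lemma Cor.small_card (hπ : tz R Z a G = 0) {n N : ℕ} (v : Fin N → R.A n)
    (hv : ∀ j, IsProduct R Z a n (v j)) (hi : LinearIndependent ℚ v) : N ≤ b ^ n := by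
  classical
  set U := Submodule.span ℚ (Set.range fun g : Fin n → Fin b => ∏ s, R.on s (a (g s))) with hU
  have h1 : LinearIndependent ℚ (fun j => (⟨v j, Cor.small hπ (hv j)⟩ : U)) :=
    LinearIndependent.of_comp U.subtype hi
  have : Module.Finite ℚ U := Module.Finite.span_of_finite ℚ (Set.finite_range _)
  have h2 := h1.fintype_card_le_finrank
  rw [Fintype.card_fin] at h2
  refine h2.trans ((finrank_range_le_card _).trans ?_)
  simp


/-- **The relations between the permutations** -/
theorem super_of {π : R.A 2} (hp : IsProj R π 0) (hπ : π ≠ 0) {k : ℕ} {c : Equiv.Perm (Fin k) → ℚ}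
    (hc : ∑ σ, c σ • ∏ i, R.pull ![Fin.castAdd k i, Fin.natAdd k (σ i)] π = 0) :
    SuperRelation c := by
  classical
  intro r σ
  have h1 : Phi hp k c = 0 := by
    rw [Phi_apply, map_sum, ← hc]
    refine Finset.sum_congr rfl fun τ _ => ?_
    rw [map_smul, xs, map_prod]
    congr 1
    exact Finset.prod_congr rfl fun i _ => hp.ev_X _ _
  have h2 := hook (n := 0) (h := hp) (by simp) (never_ends hπ) (Phi_ker hp h1)
    (fun j => toLet (r j)) σ
  have e1 : evenPerms (fun j => toLet (r j)) =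
      Finset.univ.filter fun g : Equiv.Perm (Fin k) =>
        ∀ j, r (g j) = r j ∧ ((r j).1 = true → g j = j) := by
    ext g
    rw [mem_evenPerms, Finset.mem_filter, ← forall_and]
    refine ⟨fun hg => ⟨Finset.mem_univ _, fun j => ⟨toLet_inj (hg j).1, fun hj => (hg j).2 ?_⟩⟩,
      fun hg j => ⟨congrArg toLet (hg.2 j).1, fun hj => (hg.2 j).2 ?_⟩⟩
    · rw [Ne, toLet_none, hj]
      simp
    · rw [Ne, toLet_none] at hj
      simpa using hj
  have e2 : oddPerms (fun j => toLet (r j)) =
      Finset.univ.filter fun g : Equiv.Perm (Fin k) =>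
        ∀ j, r (g j) = r j ∧ ((r j).1 = false → g j = j) := by
    ext g
    rw [mem_oddPerms, Finset.mem_filter, ← forall_and]
    refine ⟨fun hg => ⟨Finset.mem_univ _, fun j => ⟨toLet_inj (hg j).1, fun hj => (hg j).2 ?_⟩⟩,
      fun hg j => ⟨congrArg toLet (hg.2 j).1, fun hj => (hg.2 j).2 ?_⟩⟩
    · rw [toLet_none, hj]
    · rw [toLet_none] at hj
      exact hj
  rw [e1, e2] at h2
  exact h2

/-- **The gap theorem for self-adjoint projectors.** -/
theorem Cor.gap (h : Cor R Z a G) :
    (tz R Z a G = 0 → ∀ (n N : ℕ) (v : Fin N → R.A n), (∀ j, IsProduct R Z a n (v j)) →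
      LinearIndependent ℚ v → N ≤ b ^ n) ∧
    (tz R Z a G ≠ 0 →
      (∀ n : ℕ, ∃ (N : ℕ) (v : Fin N → R.A n), (∀ j, IsProduct R Z a n (v j)) ∧
        LinearIndependent ℚ v ∧
        ((b : ℤ) + 4) ^ n + ((b : ℤ) - 4) ^ n ≤ 2 * ((n / 2 + 15).choose 15 : ℕ) * N) ∧
      (∀ (k : ℕ) (c : Equiv.Perm (Fin k) → ℚ),
        ∑ σ, c σ • ∏ i, R.pull ![Fin.castAdd k i, Fin.natAdd k (σ i)] (tz R Z a G) = 0 →
          SuperRelation c) ∧
      (∀ m < 12, LinearIndependent ℚ (fun τ : Matching m => mprod (tz R Z a G) τ))) := by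
  refine ⟨fun hπ n N v hv hi => Cor.small_card hπ v hv hi, fun hπ => ⟨fun n => ?_, fun k c hc =>
    super_of h.isProj hπ hc, fun m hm => matchings_indep h.isProj hπ hm⟩⟩
  obtain ⟨N, hN, hb⟩ := h.growth hπ n
  obtain ⟨v, hv, hi⟩ := exists_indep _ hN
  exact ⟨N, v, hv, hi, hb⟩

end Pool.Agent.Run7.h570.GAP.Co
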