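import Mathlib

set_option autoImplicit false

/-!
# Counting the words fixed by permutations
-/

namespace Pool.Agent.Run7.h570.GAP

variable {α : Type*} [Fintype α] [DecidableEq α]

open Equiv.Perm in
lemma comp_decompose {k : ℕ} (p : Fin (k + 1)) (e : Equiv.Perm (Fin k)) (R : Fin (k + 1) → α) :
    R ∘ (decomposeFin.symm (p, e)) = R ↔ R p = R 0 ∧ Fin.tail R ∘ e = Fin.tail R := by
  have h1 : R p = R 0 → ∀ x, R (Equiv.swap 0 p x) = R x := by
    intro h x
    by_cases hx : x = 0
    · rw [hx, Equiv.swap_apply_left, h]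
    by_cases hx' : x = p
    · rw [hx', Equiv.swap_apply_right, h]
    rw [Equiv.swap_apply_of_ne_of_ne hx hx']
  constructor
  · intro h
    have h0 : R p = R 0 := by
      have := congrFun h 0
      rwa [Function.comp_apply, decomposeFin_symm_apply_zero] at this
    refine ⟨h0, ?_⟩
    ext1 x
    have h2 := congrFun h x.succ
    rw [Function.comp_apply, decomposeFin_symm_apply_succ, h1 h0] at h2
    exact h2
  · rintro ⟨h0, h2⟩
    ext1 x
    refine Fin.cases ?_ (fun x => ?_) x
    · rw [Function.comp_apply, decomposeFin_symm_apply_zero, h0]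
    · rw [Function.comp_apply, decomposeFin_symm_apply_succ, h1 h0]
      exact congrFun h2 x

/-- the number of the words fixed by a permutation -/
def fixn (α : Type*) [Fintype α] [DecidableEq α] {k : ℕ} (ρ : Equiv.Perm (Fin k)) : ℕ :=
  Fintype.card {R : Fin k → α // R ∘ ρ = R}

lemma fixn_decompose {k : ℕ} (p : Fin (k + 1)) (e : Equiv.Perm (Fin k)) :
    fixn α (Equiv.Perm.decomposeFin.symm (p, e)) = (if p = 0 then Fintype.card α else 1) * fixn α e := by
  refine Fin.cases ?_ (fun q => ?_) p
  · rw [if_pos rfl, fixn, fixn, ← Fintype.card_prod]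
    refine Fintype.card_congr ⟨fun R => (R.1 0, ⟨Fin.tail R.1, ((comp_decompose 0 e R.1).1 R.2).2⟩),
      fun x => ⟨Fin.cons x.1 x.2.1, (comp_decompose 0 e _).2 ⟨rfl, x.2.2⟩⟩, fun R => ?_, fun x => ?_⟩
    · exact Subtype.ext (Fin.cons_self_tail R.1)
    · rfl
  · rw [if_neg (Fin.succ_ne_zero q), one_mul, fixn, fixn]
    refine Fintype.card_congr ⟨fun R => ⟨Fin.tail R.1, ((comp_decompose q.succ e R.1).1 R.2).2⟩,
      fun x => ⟨Fin.cons (x.1 q) x.1, (comp_decompose q.succ e _).2 ⟨rfl, x.2⟩⟩, fun R => ?_,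
      fun x => ?_⟩
    · refine Subtype.ext ?_
      have h1 := ((comp_decompose q.succ e R.1).1 R.2).1
      change Fin.cons (Fin.tail R.1 q) (Fin.tail R.1) = R.1
      rw [Fin.tail, h1]
      exact Fin.cons_self_tail R.1
    · rfl

/-- **the sum of the numbers of fixed words** -/
theorem sum_fixn (k : ℕ) :
    ∑ ρ : Equiv.Perm (Fin k), fixn α ρ = (Fintype.card α).ascFactorial k := by
  induction k with
  | zero =>
    rw [Nat.ascFactorial_zero]
    simp [fixn]
  | succ k ih =>
    rw [Nat.ascFactorial_succ, ← ih, ← Equiv.sum_comp Equiv.Perm.decomposeFin.symm,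
      Fintype.sum_prod_type]
    simp only [fixn_decompose]
    rw [Finset.sum_comm, Finset.mul_sum]
    refine Finset.sum_congr rfl fun e _ => ?_
    rw [← Finset.sum_mul]
    congr 1
    rw [Fin.sum_univ_succ, if_pos rfl]
    simp

end Pool.Agent.Run7.h570.GAP
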