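import Pool.Agent.Run7.h570.GAP.Perms

set_option autoImplicit false
set_option linter.unusedSectionVars false

/-!
# The signs of the permutations compatible with a pair of words
-/

open MvPolynomial

universe u

namespace Pool.Agent.Run7.h570.GAP

variable {R : PowerRings.{u}} {π : R.A 2} {δ : ℚ} {n k : ℕ}

/-- the permutation of the right slots with odd letters which maps the pairs of `σ` to those of
`σ₀` -/
noncomputable def rho (r : Fin k → Let n) {σ₀ σ : Equiv.Perm (Fin k)} (h : r ∘ σ₀ = r ∘ σ) :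
    Equiv.Perm (Fin k) :=
  Equiv.Perm.ofSubtype ((σ₀ * σ⁻¹).subtypePerm (p := fun j => (r j).1 ≠ none) (by
    intro j
    have h1 := congrFun h (σ⁻¹ j)
    simp only [Function.comp_apply] at h1
    rw [Equiv.Perm.mul_apply, h1]
    simp))

lemma rho_odd (r : Fin k → Let n) {σ₀ σ : Equiv.Perm (Fin k)} (h : r ∘ σ₀ = r ∘ σ) {j : Fin k}
    (hj : (r j).1 ≠ none) : rho r h j = σ₀ (σ⁻¹ j) := by
  rw [rho, Equiv.Perm.ofSubtype_apply_of_mem (p := fun j => (r j).1 ≠ none) _ hj]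
  rfl

lemma rho_even (r : Fin k → Let n) {σ₀ σ : Equiv.Perm (Fin k)} (h : r ∘ σ₀ = r ∘ σ) {j : Fin k}
    (hj : (r j).1 = none) : rho r h j = j :=
  Equiv.Perm.ofSubtype_apply_of_not_mem (p := fun j => (r j).1 ≠ none) _ (by simpa using hj)

/-- a map of the right slots -/
def rfun (ρ : Fin k → Fin k) : Fin (k + k) → Fin (k + k) :=
  Fin.append (fun i => lf i) (fun j => rt (ρ j))

lemma rfun_lf (ρ : Fin k → Fin k) (i : Fin k) : rfun ρ (lf i) = lf i := Fin.append_left ..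

lemma rfun_rt (ρ : Fin k → Fin k) (j : Fin k) : rfun ρ (rt j) = rt (ρ j) := Fin.append_right ..

/-- a permutation of the right slots -/
def rext (ρ : Equiv.Perm (Fin k)) : Equiv.Perm (Fin (k + k)) :=
  ⟨rfun ρ, rfun (ρ⁻¹ : Equiv.Perm (Fin k)),
    fun s => by
      induction s using slot_cases with
      | hl i => rw [rfun_lf, rfun_lf]
      | hr j => rw [rfun_rt, rfun_rt]; simp,
    fun s => by
      induction s using slot_cases with
      | hl i => rw [rfun_lf, rfun_lf]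
      | hr j => rw [rfun_rt, rfun_rt]; simp⟩

lemma rext_lf (ρ : Equiv.Perm (Fin k)) (i : Fin k) : rext ρ (lf i) = lf i := rfun_lf ..

lemma rext_rt (ρ : Equiv.Perm (Fin k)) (j : Fin k) : rext ρ (rt j) = rt (ρ j) := rfun_rt ..

lemma rho_isG {l r : Fin k → Let n} {σ₀ σ : Equiv.Perm (Fin k)} (h : r ∘ σ₀ = r ∘ σ) :
    IsG (uu l r) (rext (rho r h)) := by
  constructor
  · intro s
    induction s using slot_cases with
    | hl i => rw [rext_lf]
    | hr j =>
      rw [rext_rt, uu_rt, uu_rt]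
      by_cases hj : (r j).1 = none
      · rw [rho_even r h hj]
      · rw [rho_odd r h hj]
        have h1 := congrFun h (σ⁻¹ j)
        simp only [Function.comp_apply] at h1
        rw [h1]
        simp
  · intro s
    induction s using slot_cases with
    | hl i => intro _; rw [rext_lf]
    | hr j =>
      intro hs
      rw [uu_rt] at hs
      rw [rext_rt, rho_even r h hs]

lemma ex_rho {l r : Fin k → Let n} {σ₀ σ : Equiv.Perm (Fin k)} (h0 : l = r ∘ σ₀)
    (h : r ∘ σ₀ = r ∘ σ) {τ : Equiv.Perm (Fin (k + k))} (hτ : IsG (uu l r) τ) :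
    ex (ww l r σ₀ ∘ (τ * rext (rho r h))) σ = ex (ww l r σ₀ ∘ τ) σ₀ := by
  rw [ex, ex]
  refine Finset.sum_congr rfl fun i _ => ?_
  have h1 : r (σ i) = l i := by rw [h0, h]; rfl
  have h1' : r (σ₀ i) = l i := by rw [h0]; rfl
  simp only [Function.comp_apply, Equiv.Perm.coe_mul, rext_lf, rext_rt]
  by_cases hi : (l i).1 = none
  · rw [rho_even r h (by rw [h1]; exact hi)]
    have e1 : τ (rt (σ i)) = rt (σ i) := hτ.2 _ (by rw [uu_rt, h1]; exact hi)
    have e2 : τ (rt (σ₀ i)) = rt (σ₀ i) := hτ.2 _ (by rw [uu_rt, h1']; exact hi)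
    have e3 : ww l r σ₀ (rt (σ i)) = ww l r σ₀ (rt (σ₀ i)) := by
      refine Fin.ext ?_
      rw [ww, ww, lab_even (by rw [uu_rt, h1]; exact hi), lab_even (by rw [uu_rt, h1']; exact hi),
        uu_rt, uu_rt, h1, h1']
    rw [e1, e2, e3]
  · rw [rho_odd r h (by rw [h1]; exact hi)]
    simp

open Classical in
/-- the coefficient of the base monomial in the antisymmetrization of `xs σ` -/
noncomputable def WW (l r : Fin k → Let n) (σ₀ σ : Equiv.Perm (Fin k)) : ℚ :=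
  ∑ τ ∈ Finset.univ.filter (IsG (uu l r)), ((Equiv.Perm.sign τ : ℤ) : ℚ) *
    if ex (ww l r σ₀ ∘ τ) σ = ex (ww l r σ₀) σ₀ then 1 else 0

lemma WW_eq_zero {l r : Fin k → Let n} {σ₀ σ : Equiv.Perm (Fin k)} (h0 : l = r ∘ σ₀)
    (h : l ≠ r ∘ σ) : WW l r σ₀ σ = 0 := by
  classical
  refine Finset.sum_eq_zero fun τ hτ => ?_
  rw [if_neg, mul_zero]
  intro he
  exact h (compat h0 (Finset.mem_filter.1 hτ).2 he)

lemma WW_base {l r : Fin k → Let n} {σ₀ : Equiv.Perm (Fin k)} (h0 : l = r ∘ σ₀) :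
    WW l r σ₀ σ₀ ≠ 0 := by
  classical
  have h1 : WW l r σ₀ σ₀ = ∑ τ ∈ Finset.univ.filter (IsG (uu l r)),
      if ex (ww l r σ₀ ∘ τ) σ₀ = ex (ww l r σ₀) σ₀ then (1 : ℚ) else 0 := by
    rw [WW]
    refine Finset.sum_congr rfl fun τ hτ => ?_
    have hτ' := (Finset.mem_filter.1 hτ).2
    split_ifs with he
    · rw [sign_eq_one h0 hτ' (commutes h0 hτ' he)]
      simp
    · simp
  rw [h1]
  refine (lt_of_lt_of_le zero_lt_one ?_).ne'
  have h2 := Finset.single_le_sum (f := fun τ : Equiv.Perm (Fin (k + k)) =>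
    if ex (ww l r σ₀ ∘ τ) σ₀ = ex (ww l r σ₀) σ₀ then (1 : ℚ) else 0)
    (s := Finset.univ.filter (IsG (uu l r)))
    (fun τ _ => by split_ifs <;> norm_num) (Finset.mem_filter.2 ⟨Finset.mem_univ 1, IsG.one _⟩)
  simpa using h2

lemma WW_compat {l r : Fin k → Let n} {σ₀ σ : Equiv.Perm (Fin k)} (h0 : l = r ∘ σ₀)
    (h : l = r ∘ σ) : ∃ e : ℤˣ, WW l r σ₀ σ = ((e : ℤ) : ℚ) * WW l r σ₀ σ₀ := by
  classical
  have h' : r ∘ σ₀ = r ∘ σ := h0 ▸ h
  refine ⟨Equiv.Perm.sign (rext (rho r h')), ?_⟩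
  rw [WW, WW, Finset.mul_sum]
  symm
  refine Finset.sum_equiv (Equiv.mulRight (rext (rho r h'))) (fun τ => ?_) (fun τ hτ => ?_)
  · simp only [Finset.mem_filter, Finset.mem_univ, true_and, Equiv.coe_mulRight]
    exact (rho_isG h').mul_iff'
  · rw [Equiv.coe_mulRight, ex_rho h0 h' (Finset.mem_filter.1 hτ).2, map_mul]
    push_cast
    ring

/-- the coefficient of the base monomial -/
lemma coeff_alt (l r : Fin k → Let n) (σ₀ : Equiv.Perm (Fin k)) (c : Equiv.Perm (Fin k) → ℚ) :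
    coeff (ex (ww l r σ₀) σ₀) (rn (ww l r σ₀) (alt (uu l r) (∑ σ, c σ • xs σ))) =
      ∑ σ, c σ * WW l r σ₀ σ := by
  classical
  have h1 : rn (ww l r σ₀) (alt (uu l r) (∑ σ, c σ • xs σ)) =
      ∑ σ, c σ • ∑ τ ∈ Finset.univ.filter (IsG (uu l r)), ((Equiv.Perm.sign τ : ℤ) : ℚ) •
        monomial (ex (ww l r σ₀ ∘ τ) σ) (1 : ℚ) := by
    rw [alt, map_sum]
    simp only [map_smul, map_sum, Finset.smul_sum]
    rw [Finset.sum_comm]
    refine Finset.sum_congr rfl fun σ _ => Finset.sum_congr rfl fun τ _ => ?_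
    rw [smul_comm, rn_rn, rn_xs]
  rw [h1, coeff_sum]
  refine Finset.sum_congr rfl fun σ _ => ?_
  rw [coeff_smul, coeff_sum, smul_eq_mul, WW]
  congr 1
  refine Finset.sum_congr rfl fun τ _ => ?_
  rw [coeff_smul, coeff_monomial, smul_eq_mul]

lemma ww_adm (l r : Fin k → Let n) (σ₀ : Equiv.Perm (Fin k)) : Adm (uu l r) (ww l r σ₀) := by
  intro s
  constructor
  · intro h
    rw [ww, lab_even (by rw [h]), h]
    simp
  · intro h
    rw [ww, lab_even (by rw [h]), h]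
    simp

/-- **Theorem B.** If the stripping never ends, then all relations hold on the super space -/
theorem exists_eps {h : IsProj R π δ} (hδ : δ = -2 * n)
    (hN : ∀ (N : ℕ), ∀ x' ∈ KK h (N + 1), ¬ Good (fun c : Fin (N + 1) => if c = 0 then 0 else 0) x' ∧
      ¬ Good (fun c : Fin (N + 1) => if c = 0 then 2 * n + 2 else 0) x')
    (l r : Fin k → Let n) : ∃ ε : Equiv.Perm (Fin k) → ℚ,
      (∀ σ : Equiv.Perm (Fin k), (l = r ∘ σ → ε σ ^ 2 = 1) ∧ (l ≠ r ∘ σ → ε σ = 0)) ∧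
      ∀ c : Equiv.Perm (Fin k) → ℚ, ∑ σ, c σ • xs σ ∈ Rel h (k + k) → ∑ σ, c σ * ε σ = 0 := by
  by_cases h0 : ∃ σ₀ : Equiv.Perm (Fin k), l = r ∘ σ₀
  · obtain ⟨σ₀, h0⟩ := h0
    have hb := WW_base h0
    refine ⟨fun σ => WW l r σ₀ σ / WW l r σ₀ σ₀, fun σ => ⟨fun h1 => ?_, fun h1 => ?_⟩,
      fun c hc => ?_⟩
    · obtain ⟨e, he⟩ := WW_compat h0 h1
      simp only [he]
      rw [mul_div_assoc, div_self hb, mul_one]
      rcases Int.units_eq_one_or e with h2 | h2 <;> simp [h2]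
    · simp only [WW_eq_zero h0 h1, zero_div]
    · have h1 : coeff (ex (ww l r σ₀) σ₀) (rn (ww l r σ₀) (alt (uu l r) (∑ σ, c σ • xs σ))) = 0 := by
        by_contra h2
        obtain ⟨x', hx', h3 | h3⟩ := exists_good hδ hc (uu l r) ⟨ww l r σ₀, ww_adm l r σ₀, fun h3 => h2 (by
          rw [h3, coeff_zero])⟩
        · exact (hN _ x' hx').1 h3
        · exact (hN _ x' hx').2 h3
      rw [coeff_alt] at h1
      simp only [← mul_div_assoc]
      rw [← Finset.sum_div, h1, zero_div]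
  · push Not at h0
    exact ⟨fun _ => 0, fun σ => ⟨fun h1 => absurd h1 (h0 σ), fun _ => rfl⟩, fun c _ => by simp⟩

end Pool.Agent.Run7.h570.GAP
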