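import Pool.Agent.Run7.h570.GAP.Eps

set_option autoImplicit false
set_option linter.unusedSectionVars false

/-!
# The forms of degree one
-/

open MvPolynomial

universe u

namespace Pool.Agent.Run7.h570.GAP

variable {R : PowerRings.{u}} {π : R.A 2} {δ : ℚ}

lemma constantCoeff_rn {I J : Type*} (w : I → J) (f : Pol I) :
    constantCoeff (rn w f) = constantCoeff f := constantCoeff_rename ..

lemma HasWt.const_eq_zero {J : Type*} [DecidableEq J] {j : J} {f : Pol J} {n : ℕ}
    (h : HasWt j f n) (hn : n ≠ 0) : constantCoeff f = 0 := by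
  by_contra h0
  have h1 := h (d := 0) h0
  rw [map_zero] at h1
  exact hn h1.symm

/-- the constants among the restitutions -/
lemma const_mem {h : IsProj R π δ} {N : ℕ} {x : Pol (Fin N)} (hx : x ∈ KK h N) :
    constantCoeff x • π = 0 := by
  induction hx using Submodule.span_induction with
  | mem x hx =>
    obtain ⟨m, w, f, hf, rfl⟩ := hx
    rw [constantCoeff_rn]
    rcases Nat.eq_zero_or_pos m with rfl | hm
    · obtain ⟨c, rfl⟩ : ∃ c, f = C c := ⟨_, (MvPolynomial.eq_C_of_isEmpty f)⟩
      have h1 : algebraMap ℚ (R.A 0) c = 0 := by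
        have := hf.2
        rwa [MvPolynomial.algHom_C] at this
      have h2 : algebraMap ℚ (R.A 2) c = 0 := by
        have := congrArg (R.pull (Fin.elim0 : Fin 0 → Fin 2)) h1
        rwa [AlgHom.commutes, map_zero] at this
      rw [constantCoeff_C, Algebra.smul_def, h2, zero_mul]
    · rw [(hf.1 ⟨0, hm⟩).const_eq_zero one_ne_zero, zero_smul]
  | zero => rw [map_zero, zero_smul]
  | add x y _ _ hx hy => rw [map_add, add_smul, hx, hy, add_zero]
  | smul c x _ hx => rw [constantCoeff_smul, smul_assoc, hx, smul_zero]

/-- the linear terms among the restitutions -/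
lemma linear_mem {h : IsProj R π δ} {N : ℕ} {x : Pol (Fin (N + 1))} (hx : x ∈ KK h (N + 1)) :
    constantCoeff (nn 0 0 x) • π = 0 := by
  induction hx using Submodule.span_induction with
  | mem x hx =>
    obtain ⟨m, w, f, hf, rfl⟩ := hx
    rw [nn_rn, map_sum, Finset.sum_smul]
    refine Finset.sum_eq_zero fun j _ => ?_
    rw [map_sum, Finset.sum_smul]
    refine Finset.sum_eq_zero fun p _ => ?_
    rw [constantCoeff_rn]
    by_cases hjp : j = p
    · subst hjp
      rw [(hf.1 j).nn_eq_zero (b := j) (i := j) (by simp), map_zero, zero_smul]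
    by_cases hc : ∃ c, c ≠ j ∧ c ≠ p
    · obtain ⟨c, h1, h2⟩ := hc
      have h3 : HasWt c (nn j p f) 1 := (hf.1 c).nn (by simp [Ne.symm h1, Ne.symm h2])
      rw [h3.const_eq_zero one_ne_zero, zero_smul]
    · push Not at hc
      -- there are only two slots
      have hw : ∀ s, HasWt s (nn j p f) 0 := by
        intro s
        refine (hf.1 s).nn ?_
        by_cases h1 : s = j
        · subst h1
          simp [Ne.symm hjp]
        · have h2 := hc s h1
          subst h2
          simp [hjp]
      have h4 : nn j p f = C (constantCoeff (nn j p f)) := by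
        ext d
        rw [coeff_C]
        split_ifs with hd
        · rw [← hd]
          rfl
        · by_contra h5
          obtain ⟨s, hs⟩ := Finsupp.ne_iff.1 (Ne.symm hd)
          induction s with
          | _ a b =>
            have h6 : s(a, b) ∈ (nn j p f).vars := by
              rw [mem_vars_iff_mem_support]
              exact ⟨d, mem_support_iff.2 h5, Finsupp.mem_support_iff.2 hs⟩
            have h7 := (hw a).le h6
            rw [wt_mk, if_pos rfl] at h7
            omega
      have h5 : f = X s(j, p) * nn j p f := by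
        have h6 := (hf.1 j).euler
        rw [Nat.cast_one, one_smul, ee_apply] at h6
        conv_lhs => rw [← h6]
        refine Finset.sum_eq_single p (fun q _ hq => ?_) (by simp)
        have h7 : q = j := by
          by_contra h8
          exact hq (hc q h8)
        subst h7
        rw [(hf.1 q).nn_eq_zero (b := q) (i := q) (by simp), mul_zero]
      have h6 := hf.2
      rw [h5, map_mul, h.ev_X, h4, MvPolynomial.algHom_C] at h6
      obtain ⟨g, hg⟩ : ∃ g : Fin m → Fin 2, g j = 0 ∧ g p = 1 := by
        refine ⟨fun s => if s = j then 0 else 1, by simp, ?_⟩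
        simp [Ne.symm hjp]
      have h7 := congrArg (R.pull g) h6
      rw [map_mul, pull_two_comp, map_zero, hg.1, hg.2, AlgHom.commutes, mul_comm,
        ← Algebra.smul_def] at h7
      have h8 : (![0, 1] : Fin 2 → Fin 2) = id := by
        ext i
        fin_cases i <;> rfl
      rw [h8, R.pull_id] at h7
      exact h7
  | zero => rw [map_zero, map_zero, zero_smul]
  | add x y _ _ hx hy => rw [map_add, map_add, add_smul, hx, hy, add_zero]
  | smul c x _ hx => rw [Derivation.map_smul, constantCoeff_smul, smul_assoc, hx, smul_zero]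

/-- if the projector is not zero then the stripping never ends -/
theorem never_ends {h : IsProj R π 0} (hπ : π ≠ 0) (N : ℕ) : ∀ x' ∈ KK h (N + 1),
    ¬ Good (fun c : Fin (N + 1) => if c = 0 then 0 else 0) x' ∧
      ¬ Good (fun c : Fin (N + 1) => if c = 0 then 2 * 0 + 2 else 0) x' := by
  intro x hx
  constructor
  · intro H
    obtain ⟨r, hr, q, hq, rfl⟩ := H.eq_pow
    have hr0 : r = 0 := by omega
    subst hr0
    have h1 := const_mem hx
    rw [pow_zero, constantCoeff_smul, map_one, smul_eq_mul, mul_one] at h1
    exact hπ ((smul_eq_zero.1 h1).resolve_left hq)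
  · intro H
    obtain ⟨r, hr, q, hq, rfl⟩ := H.eq_pow
    have hr0 : r = 1 := by omega
    subst hr0
    have h1 := linear_mem hx
    rw [pow_one, Derivation.map_smul, nn_X, constantCoeff_smul, constantCoeff_C] at h1
    refine hπ ((smul_eq_zero.1 h1).resolve_left ?_)
    simp [hq]

end Pool.Agent.Run7.h570.GAP
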