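import Pool.Agent.Run7.h570.GAP.Schur

set_option autoImplicit false
set_option linter.unusedSectionVars false

/-!
# The gap theorem modulo the first step of a multiplicative filtration
-/

open MvPolynomial

universe u

namespace Pool.Agent.Run7.h570.GAP

/-- ideals which are stable under pull-backs and push-forwards -/
structure TIdeal (R : PowerRings.{u}) where
  /-- the ideals -/
  I : ∀ m : ℕ, Ideal (R.A m)
  pull_mem : ∀ {m n : ℕ} (φ : Fin m → Fin n) {x : R.A m}, x ∈ I m → R.pull φ x ∈ I n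
  push_mem : ∀ {m : ℕ} {x : R.A (m + 1)}, x ∈ I (m + 1) → R.push x ∈ I m

variable {R : PowerRings.{u}}

section quotient

variable (J : TIdeal R)

/-- the rings modulo the ideals -/
abbrev JA (n : ℕ) : Type u := R.A n ⧸ J.I n

/-- the class modulo the ideals -/
noncomputable def jm (n : ℕ) : R.A n →ₐ[ℚ] JA J n := Ideal.Quotient.mkₐ ℚ (J.I n)

lemma jm_surj {n : ℕ} (x : JA J n) : ∃ y, jm J n y = x := Ideal.Quotient.mk_surjective x

lemma jm_eq_zero {n : ℕ} {x : R.A n} : jm J n x = 0 ↔ x ∈ J.I n :=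
  Ideal.Quotient.eq_zero_iff_mem

/-- the pull-back modulo the ideals -/
noncomputable def jpull {m n : ℕ} (φ : Fin m → Fin n) : JA J m →ₐ[ℚ] JA J n :=
  Ideal.quotientMapₐ (J.I n) (R.pull φ) (fun _ hx => J.pull_mem φ hx)

lemma jpull_jm {m n : ℕ} (φ : Fin m → Fin n) (x : R.A m) :
    jpull J φ (jm J m x) = jm J n (R.pull φ x) := rfl

/-- the push-forward modulo the ideals -/
noncomputable def jpush (n : ℕ) : JA J (n + 1) →ₗ[ℚ] JA J n :=
  ((Submodule.Quotient.restrictScalarsEquiv ℚ (J.I n)).toLinearMap.comp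
    (Submodule.mapQ ((J.I (n + 1)).restrictScalars ℚ) ((J.I n).restrictScalars ℚ)
      (R.push (n := n)) (fun _ hx => J.push_mem hx))).comp
    (Submodule.Quotient.restrictScalarsEquiv ℚ (J.I (n + 1))).symm.toLinearMap

lemma jpush_jm {n : ℕ} (x : R.A (n + 1)) : jpush J n (jm J (n + 1) x) = jm J n (R.push x) := rfl

/-- the rings modulo the ideals -/
noncomputable def quotJ : PowerRings.{u} where
  A := JA J
  ring n := Ideal.Quotient.commRing (J.I n)
  alg n := Ideal.Quotient.algebra ℚ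
  pull φ := jpull J φ
  push := jpush J _
  diag := jm J 2 R.diag
  pull_id {n} x := by
    obtain ⟨x, rfl⟩ := jm_surj J x
    rw [jpull_jm, R.pull_id]
  pull_comp φ ψ x := by
    obtain ⟨x, rfl⟩ := jm_surj J x
    rw [jpull_jm, jpull_jm, jpull_jm, R.pull_comp]
  push_mul {n} x y := by
    obtain ⟨x, rfl⟩ := jm_surj J x
    obtain ⟨y, rfl⟩ := jm_surj J y
    rw [jpull_jm, ← map_mul, jpush_jm, jpush_jm, ← map_mul, R.push_mul]
  push_pull φ x := by
    obtain ⟨x, rfl⟩ := jm_surj J x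
    rw [jpull_jm, jpush_jm, jpush_jm, jpull_jm, R.push_pull]
  push_diag i x := by
    obtain ⟨x, rfl⟩ := jm_surj J x
    rw [jpull_jm, ← map_mul, jpush_jm, jpull_jm, R.push_diag]
  diag_symm := by rw [jpull_jm, R.diag_symm]

/-- the class modulo the ideals -/
noncomputable def cj (n : ℕ) : R.A n →ₐ[ℚ] (quotJ J).A n := jm J n

lemma cj_eq_zero {n : ℕ} {x : R.A n} : cj J n x = 0 ↔ x ∈ J.I n := jm_eq_zero J

lemma cj_pull {m n : ℕ} (φ : Fin m → Fin n) (x : R.A m) :
    (quotJ J).pull φ (cj J m x) = cj J n (R.pull φ x) := rfl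

lemma cj_push {n : ℕ} (x : R.A (n + 1)) : (quotJ J).push (cj J (n + 1) x) = cj J n (R.push x) := rfl

lemma cj_diag : (quotJ J).diag = cj J 2 R.diag := rfl

variable {π : R.A 2} {b : ℕ} {a : Fin b → R.A 1} {G : Matrix (Fin b) (Fin b) ℚ}

lemma haf_cj (k : ℕ) : haf (cj J 2 π) k = cj J (k + k) (haf π k) := by
  rw [haf, haf, map_sum]
  refine Finset.sum_congr rfl fun τ _ => ?_
  rw [map_prod]
  rfl

lemma sym_cj (N : ℕ) : sym (cj J 2 π) N = cj J (N + N) (sym π N) := by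
  rw [sym, sym, map_sum]
  refine Finset.sum_congr rfl fun τ _ => ?_
  rw [map_prod]
  rfl

lemma young_cj {k : ℕ} (T : Fin k → ℕ × ℕ) : young (cj J 2 π) T = cj J (k + k) (young π T) := by
  rw [young_eq, young_eq, map_sum]
  refine Finset.sum_congr rfl fun τ _ => ?_
  rw [map_smul, map_prod]
  rfl

lemma tt_cj : tt (quotJ J) (fun i => cj J 1 (a i)) G = cj J 2 (tt R a G) := by
  rw [tt, tt, map_sum]
  refine Finset.sum_congr rfl fun i _ => ?_
  rw [map_sum]
  refine Finset.sum_congr rfl fun j _ => ?_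
  rw [map_smul, map_mul]
  rfl

lemma tr_cj : tr (quotJ J) (fun i => cj J 1 (a i)) G = cj J 2 (tr R a G) := by
  rw [tr, tr, map_sub, tt_cj, cj_diag]

lemma PreTate.toJ (h : PreTate R a G) : PreTate (quotJ J) (fun i => cj J 1 (a i)) G where
  symm := h.symm
  det := h.det
  pairing i j := by
    rw [← map_mul, cj_push, h.pairing, AlgHom.commutes]

lemma euler_cj {x : R.A 2} {q : ℚ} (he : R.push (R.push (x * x)) = algebraMap ℚ (R.A 0) q) :
    (quotJ J).push ((quotJ J).push (cj J 2 x * cj J 2 x)) = algebraMap ℚ ((quotJ J).A 0) q := by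
  rw [← map_mul, cj_push, cj_push, he, AlgHom.commutes]

lemma isProduct_cj {m : ℕ} {v : (quotJ J).A m}
    (hv : IsProduct (quotJ J) (fun i => cj J 1 (a i)) m v) :
    ∃ z, IsProduct R a m z ∧ cj J m z = v := by
  induction hv with
  | one => exact ⟨1, IsProduct.one, map_one _⟩
  | cls _ i ih =>
    obtain ⟨z, hz, rfl⟩ := ih
    refine ⟨_, IsProduct.cls hz i, ?_⟩
    rw [map_mul]
    rfl
  | dia _ ih =>
    obtain ⟨z, hz, rfl⟩ := ih
    refine ⟨_, IsProduct.dia hz, ?_⟩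
    rw [map_mul]
    rfl
  | perm _ e ih =>
    obtain ⟨z, hz, rfl⟩ := ih
    exact ⟨_, IsProduct.perm hz e, rfl⟩

lemma mprod_cj {m : ℕ} (τ : Matching m) : mprod (cj J 2 π) τ = cj J m (mprod π τ) := by
  rw [mprod, mprod, map_prod]
  rfl

lemma indep_cj {ι : Type*} [Fintype ι] {m : ℕ} {v : ι → R.A m}
    (hv : LinearIndependent ℚ (fun j => cj J m (v j))) (c : ι → ℚ)
    (hc : (∑ j, c j • v j) ∈ J.I m) : c = 0 := by
  rw [← cj_eq_zero, map_sum] at hc
  simp only [map_smul] at hc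
  exact funext fun j => Fintype.linearIndependent_iff.1 hv c hc j

end quotient

/-- The formal properties of a Bloch-Beilinson filtration on the rings `A(m)`, `m ≥ 0`: a descending
separated filtration by ideals, stable under pull-backs and push-forwards, with `F^i F^j ⊆ F^(i+j)`.
(There is no condition on homologically trivial classes.) -/
structure MultFiltration (R : PowerRings.{u}) where
  /-- the ideal `F^i A(m)` -/
  F : ℕ → ∀ m : ℕ, Ideal (R.A m)
  anti : ∀ {i j m : ℕ}, i ≤ j → F j m ≤ F i m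
  mul_mem : ∀ {i j m : ℕ} {x y : R.A m}, x ∈ F i m → y ∈ F j m → x * y ∈ F (i + j) m
  pull_mem : ∀ {i m n : ℕ} (φ : Fin m → Fin n) {x : R.A m}, x ∈ F i m → R.pull φ x ∈ F i n
  push_mem : ∀ {i m : ℕ} {x : R.A (m + 1)}, x ∈ F i (m + 1) → R.push x ∈ F i m
  separated : ∀ {m : ℕ} {x : R.A m}, (∀ i, x ∈ F i m) → x = 0

namespace MultFiltration

variable (Φ : MultFiltration R)

/-- one step of the filtration -/
def step (i : ℕ) : TIdeal R where
  I := Φ.F i
  pull_mem φ _ hx := Φ.pull_mem φ hx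
  push_mem hx := Φ.push_mem hx

end MultFiltration

variable {b : ℕ} {a : Fin b → R.A 1} {G : Matrix (Fin b) (Fin b) ℚ}

/-- `H ∈ F^i` implies `H ∈ F^(2i)` -/
lemma PreTate.haf_step (h : PreTate R a G) (n : ℕ)
    (he : R.push (R.push (R.diag * R.diag)) = algebraMap ℚ (R.A 0) (b - 2 * n))
    (Φ : MultFiltration R) {i : ℕ} (hi : haf (tr R a G) (n + 1) ∈ Φ.F i _) :
    haf (tr R a G) (n + 1) ∈ Φ.F (i + i) _ := by
  have he' := euler_cj (Φ.step (i + i)) he
  rw [← cj_diag] at he'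
  obtain ⟨h1, -⟩ := (h.toJ (Φ.step (i + i))).smashGap n he'
  rw [tr_cj, haf_cj] at h1
  have h2 : SmashNil (quotJ (Φ.step (i + i)))
      (cj (Φ.step (i + i)) _ (haf (tr R a G) (n + 1))) := by
    refine ⟨2, by norm_num, ?_⟩
    rw [PowerRings.extPow, Fin.prod_univ_two, cj_pull, cj_pull, ← map_mul, cj_eq_zero]
    exact Φ.mul_mem (Φ.pull_mem _ hi) (Φ.pull_mem _ hi)
  have h3 := (h1.out 1 0).1 h2
  exact (cj_eq_zero _).1 h3

/-- `H ∈ F^1` implies `H = 0` -/
theorem PreTate.haf_zero (h : PreTate R a G) (n : ℕ)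
    (he : R.push (R.push (R.diag * R.diag)) = algebraMap ℚ (R.A 0) (b - 2 * n))
    (Φ : MultFiltration R) (hi : haf (tr R a G) (n + 1) ∈ Φ.F 1 _) :
    haf (tr R a G) (n + 1) = 0 := by
  have h1 : ∀ k, haf (tr R a G) (n + 1) ∈ Φ.F (2 ^ k) _ := by
    intro k
    induction k with
    | zero => exact hi
    | succ k ih =>
      have h5 : 2 ^ k + 2 ^ k = 2 ^ (k + 1) := by ring
      have := h.haf_step n he Φ ih
      exact h5 ▸ this
  exact Φ.separated fun i => Φ.anti (Nat.lt_two_pow_self.le) (h1 i)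

/-- **The gap theorem modulo the first step of a multiplicative filtration.** -/
theorem PreTate.filtGap (h : PreTate R a G) (n : ℕ)
    (he : R.push (R.push (R.diag * R.diag)) = algebraMap ℚ (R.A 0) (b - 2 * n))
    (Φ : MultFiltration R) :
    [haf (tr R a G) (n + 1) = 0,
      haf (tr R a G) (n + 1) ∈ Φ.F 1 _,
      sym (tr R a G) (2 * n + 1) = 0,
      ∃ N, sym (tr R a G) N ∈ Φ.F 1 _,
      ∃ (k : ℕ) (T : Fin k → ℕ × ℕ), Function.Injective T ∧ IsLowerSet (Set.range T) ∧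
        (2, 2 * n + 2) ∉ Set.range T ∧ young (tr R a G) T ∈ Φ.F 1 _].TFAE ∧
    (haf (tr R a G) (n + 1) ≠ 0 →
      (∀ m : ℕ, ∃ (N : ℕ) (v : Fin N → R.A m), (∀ j, IsProduct R a m (v j)) ∧
        (∀ c : Fin N → ℚ, (∑ j, c j • v j) ∈ Φ.F 1 m → c = 0) ∧
        ((b : ℤ) + (2 * n + 4 : ℕ)) ^ m + ((b : ℤ) - (2 * n + 4 : ℕ)) ^ m ≤
          2 * ((m / 2 + (2 * n + 3) * (2 * n + 5)).choose ((2 * n + 3) * (2 * n + 5)) : ℕ) * N) ∧
      (∀ (k : ℕ) (c : Equiv.Perm (Fin k) → ℚ),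
        (∑ σ, c σ • ∏ i, R.pull ![Fin.castAdd k i, Fin.natAdd k (σ i)] (tr R a G)) ∈ Φ.F 1 _ →
          SuperRel (fun x : Fin (2 * n + 4) => decide (2 ≤ (x : ℕ))) c) ∧
      (∀ m < 6 * (n + 2), ∀ c : Matching m → ℚ,
        (∑ τ, c τ • mprod (tr R a G) τ) ∈ Φ.F 1 m → c = 0)) := by
  have he' := euler_cj (Φ.step 1) he
  rw [← cj_diag] at he'
  obtain ⟨h2, h3⟩ := (h.toJ (Φ.step 1)).smashGap n he'
  have h4 := (h.toJ (Φ.step 1)).schur_tfae n he'
  rw [tr_cj] at h2 h3 h4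
  obtain ⟨h1, -⟩ := h.smashGap n he
  have key : haf (cj (Φ.step 1) 2 (tr R a G)) (n + 1) = 0 → haf (tr R a G) (n + 1) = 0 := by
    intro h5
    rw [haf_cj, cj_eq_zero] at h5
    exact h.haf_zero n he Φ h5
  have key' : haf (tr R a G) (n + 1) ≠ 0 →
      ¬ SmashNil (quotJ (Φ.step 1)) (haf (cj (Φ.step 1) 2 (tr R a G)) (n + 1)) :=
    fun h5 h6 => h5 (key ((h2.out 1 0).1 h6))
  refine ⟨?_, fun h5 => ?_⟩
  · tfae_have 1 → 2 := fun h5 => by
      rw [h5]
      exact Ideal.zero_mem _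
    tfae_have 2 → 1 := fun h5 => h.haf_zero n he Φ h5
    tfae_have 1 → 3 := fun h5 => (h1.out 0 2).1 h5
    tfae_have 3 → 4 := fun h5 => ⟨2 * n + 1, by
      rw [h5]
      exact Ideal.zero_mem _⟩
    tfae_have 4 → 1 := fun ⟨N, h5⟩ => by
      have h6 : ∃ N, SmashNil (quotJ (Φ.step 1)) (sym (cj (Φ.step 1) 2 (tr R a G)) N) :=
        ⟨N, by
          rw [sym_cj, (cj_eq_zero (Φ.step 1)).2 h5]
          exact smashNil_zero⟩
      exact key ((h2.out 3 0).1 h6)
    tfae_have 3 → 5 := fun h5 => by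
      refine ⟨2 * n + 1, fun i => (0, (i : ℕ)), ?_, ?_, ?_, ?_⟩
      · intro i j hij
        exact Fin.ext (congrArg Prod.snd hij)
      · rintro x y hxy ⟨i, rfl⟩
        have h3 : y.1 ≤ 0 := hxy.1
        have h4 : y.2 ≤ i := hxy.2
        exact ⟨⟨y.2, by have := i.2; omega⟩, Prod.ext (Nat.le_zero.1 h3).symm rfl⟩
      · rintro ⟨i, hi⟩
        have := congrArg Prod.fst hi
        simp at this
      · rw [young_row, h5]
        exact Ideal.zero_mem _
    tfae_have 5 → 1 := fun ⟨k, T, hT, hl, hc, hy⟩ => by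
      have h6 : ∃ (k : ℕ) (T : Fin k → ℕ × ℕ), Function.Injective T ∧ IsLowerSet (Set.range T) ∧
          (2, 2 * n + 2) ∉ Set.range T ∧
            SmashNil (quotJ (Φ.step 1)) (young (cj (Φ.step 1) 2 (tr R a G)) T) :=
        ⟨k, T, hT, hl, hc, by
          rw [young_cj, (cj_eq_zero (Φ.step 1)).2 hy]
          exact smashNil_zero⟩
      exact key ((h2.out 2 0).1 ((h4.out 1 0).1 h6))
    tfae_finish
  · refine ⟨fun m => ?_, fun k c hc => (h3 (key' h5)).2.1 k c ?_, fun m hm c hc =>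
      (h3 (key' h5)).2.2 m hm c ?_⟩
    · obtain ⟨N, v, hv, hi, hb⟩ := (h3 (key' h5)).1 m
      choose z hz hzv using fun j => isProduct_cj (Φ.step 1) (hv j)
      refine ⟨N, z, hz, fun c hc => hi c ?_, hb⟩
      have h6 : (∑ j, c j • v j) = cj (Φ.step 1) m (∑ j, c j • z j) := by
        rw [map_sum]
        refine Finset.sum_congr rfl fun j _ => ?_
        rw [map_smul, hzv]
      rw [h6, (cj_eq_zero (Φ.step 1)).2 hc]
      exact smashNil_zero
    · have h6 : (∑ σ, c σ • ∏ i, (quotJ (Φ.step 1)).pull ![Fin.castAdd k i, Fin.natAdd k (σ i)]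
          (cj (Φ.step 1) 2 (tr R a G))) = cj (Φ.step 1) (k + k)
            (∑ σ, c σ • ∏ i, R.pull ![Fin.castAdd k i, Fin.natAdd k (σ i)] (tr R a G)) := by
        rw [map_sum]
        refine Finset.sum_congr rfl fun σ _ => ?_
        rw [map_smul, map_prod]
        rfl
      rw [h6, (cj_eq_zero (Φ.step 1)).2 hc]
      exact smashNil_zero
    · have h6 : (∑ τ, c τ • mprod (cj (Φ.step 1) 2 (tr R a G)) τ) =
          cj (Φ.step 1) m (∑ τ, c τ • mprod (tr R a G) τ) := by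
        rw [map_sum]
        refine Finset.sum_congr rfl fun τ _ => ?_
        rw [map_smul, mprod_cj]
      rw [h6, (cj_eq_zero (Φ.step 1)).2 hc]
      exact smashNil_zero

end Pool.Agent.Run7.h570.GAP
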