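import Pool.Agent.Run7.h570.GAP.Filt

set_option autoImplicit false
set_option linter.unusedSectionVars false

/-!
# The gap theorem modulo the first step of a filtration by correspondences
-/

open MvPolynomial

universe u

namespace Pool.Agent.Run7.h570.GAP

variable {R : PowerRings.{u}} {b : ℕ} {a : Fin b → R.A 1} {G : Matrix (Fin b) (Fin b) ℚ}

/-- **The gap theorem modulo ideals.** -/
theorem PreTate.gapMod (h : PreTate R a G) (n : ℕ)
    (he : R.push (R.push (R.diag * R.diag)) = algebraMap ℚ (R.A 0) (b - 2 * n))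
    (J : TIdeal R) (hJ : haf (tr R a G) (n + 1) ∈ J.I _ → haf (tr R a G) (n + 1) = 0) :
    [haf (tr R a G) (n + 1) = 0,
      haf (tr R a G) (n + 1) ∈ J.I _,
      sym (tr R a G) (2 * n + 1) = 0,
      ∃ N, sym (tr R a G) N ∈ J.I _,
      ∃ (k : ℕ) (T : Fin k → ℕ × ℕ), Function.Injective T ∧ IsLowerSet (Set.range T) ∧
        (2, 2 * n + 2) ∉ Set.range T ∧ young (tr R a G) T ∈ J.I _].TFAE ∧
    (haf (tr R a G) (n + 1) ≠ 0 →
      (∀ m : ℕ, ∃ (N : ℕ) (v : Fin N → R.A m), (∀ j, IsProduct R a m (v j)) ∧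
        (∀ c : Fin N → ℚ, (∑ j, c j • v j) ∈ J.I m → c = 0) ∧
        ((b : ℤ) + (2 * n + 4 : ℕ)) ^ m + ((b : ℤ) - (2 * n + 4 : ℕ)) ^ m ≤
          2 * ((m / 2 + (2 * n + 3) * (2 * n + 5)).choose ((2 * n + 3) * (2 * n + 5)) : ℕ) * N) ∧
      (∀ (k : ℕ) (c : Equiv.Perm (Fin k) → ℚ),
        (∑ σ, c σ • ∏ i, R.pull ![Fin.castAdd k i, Fin.natAdd k (σ i)] (tr R a G)) ∈ J.I _ →
          SuperRel (fun x : Fin (2 * n + 4) => decide (2 ≤ (x : ℕ))) c) ∧
      (∀ m < 6 * (n + 2), ∀ c : Matching m → ℚ,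
        (∑ τ, c τ • mprod (tr R a G) τ) ∈ J.I m → c = 0)) := by
  have he' := euler_cj J he
  rw [← cj_diag] at he'
  obtain ⟨h2, h3⟩ := (h.toJ J).smashGap n he'
  have h4 := (h.toJ J).schur_tfae n he'
  rw [tr_cj] at h2 h3 h4
  obtain ⟨h1, -⟩ := h.smashGap n he
  have key : haf (cj J 2 (tr R a G)) (n + 1) = 0 → haf (tr R a G) (n + 1) = 0 := by
    intro h5
    rw [haf_cj, cj_eq_zero] at h5
    exact hJ h5
  have key' : haf (tr R a G) (n + 1) ≠ 0 →
      ¬ SmashNil (quotJ J) (haf (cj J 2 (tr R a G)) (n + 1)) :=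
    fun h5 h6 => h5 (key ((h2.out 1 0).1 h6))
  refine ⟨?_, fun h5 => ?_⟩
  · tfae_have 1 → 2 := fun h5 => by
      rw [h5]
      exact Ideal.zero_mem _
    tfae_have 2 → 1 := fun h5 => hJ h5
    tfae_have 1 → 3 := fun h5 => (h1.out 0 2).1 h5
    tfae_have 3 → 4 := fun h5 => ⟨2 * n + 1, by
      rw [h5]
      exact Ideal.zero_mem _⟩
    tfae_have 4 → 1 := fun ⟨N, h5⟩ => by
      have h6 : ∃ N, SmashNil (quotJ J) (sym (cj J 2 (tr R a G)) N) :=
        ⟨N, by
          rw [sym_cj, (cj_eq_zero J).2 h5]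
          exact smashNil_zero⟩
      exact key ((h2.out 3 0).1 h6)
    tfae_have 3 → 5 := fun h5 => by
      refine ⟨2 * n + 1, fun i => (0, (i : ℕ)), ?_, ?_, ?_, ?_⟩
      · intro i j hij
        exact Fin.ext (congrArg Prod.snd hij)
      · rintro x y hxy ⟨i, rfl⟩
        have h3 : y.1 ≤ 0 := hxy.1
        have h4 : y.2 ≤ i := hxy.2
        exact ⟨⟨y.2, by have := i.2; omega⟩, Prod.ext (Nat.le_zero.1 h3).symm rfl⟩
      · rintro ⟨i, hi⟩
        have := congrArg Prod.fst hi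
        simp at this
      · rw [young_row, h5]
        exact Ideal.zero_mem _
    tfae_have 5 → 1 := fun ⟨k, T, hT, hl, hc, hy⟩ => by
      have h6 : ∃ (k : ℕ) (T : Fin k → ℕ × ℕ), Function.Injective T ∧ IsLowerSet (Set.range T) ∧
          (2, 2 * n + 2) ∉ Set.range T ∧
            SmashNil (quotJ J) (young (cj J 2 (tr R a G)) T) :=
        ⟨k, T, hT, hl, hc, by
          rw [young_cj, (cj_eq_zero J).2 hy]
          exact smashNil_zero⟩
      exact key ((h2.out 2 0).1 ((h4.out 1 0).1 h6))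
    tfae_finish
  · refine ⟨fun m => ?_, fun k c hc => (h3 (key' h5)).2.1 k c ?_, fun m hm c hc =>
      (h3 (key' h5)).2.2 m hm c ?_⟩
    · obtain ⟨N, v, hv, hi, hb⟩ := (h3 (key' h5)).1 m
      choose z hz hzv using fun j => isProduct_cj J (hv j)
      refine ⟨N, z, hz, fun c hc => hi c ?_, hb⟩
      have h6 : (∑ j, c j • v j) = cj J m (∑ j, c j • z j) := by
        rw [map_sum]
        refine Finset.sum_congr rfl fun j _ => ?_
        rw [map_smul, hzv]
      rw [h6, (cj_eq_zero J).2 hc]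
      exact smashNil_zero
    · have h6 : (∑ σ, c σ • ∏ i, (quotJ J).pull ![Fin.castAdd k i, Fin.natAdd k (σ i)]
          (cj J 2 (tr R a G))) = cj J (k + k)
            (∑ σ, c σ • ∏ i, R.pull ![Fin.castAdd k i, Fin.natAdd k (σ i)] (tr R a G)) := by
        rw [map_sum]
        refine Finset.sum_congr rfl fun σ _ => ?_
        rw [map_smul, map_prod]
        rfl
      rw [h6, (cj_eq_zero J).2 hc]
      exact smashNil_zero
    · have h6 : (∑ τ, c τ • mprod (cj J 2 (tr R a G)) τ) =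
          cj J m (∑ τ, c τ • mprod (tr R a G) τ) := by
        rw [map_sum]
        refine Finset.sum_congr rfl fun τ _ => ?_
        rw [map_smul, mprod_cj]
      rw [h6, (cj_eq_zero J).2 hc]
      exact smashNil_zero

/-- A descending separated filtration of the rings `A(m)`, `m ≥ 0`, which is stable under correspondences
(that is, by ideals, stable under pull-backs and push-forwards), such that the correspondences in `F^1`
map `F^i` to `F^(i+1)` (that is, `F^1 F^i ⊆ F^(i+1)`). -/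
structure CorrFiltration (R : PowerRings.{u}) where
  /-- the ideal `F^i A(m)` -/
  F : ℕ → ∀ m : ℕ, Ideal (R.A m)
  anti : ∀ {i j m : ℕ}, i ≤ j → F j m ≤ F i m
  mul_mem : ∀ {i m : ℕ} {x y : R.A m}, x ∈ F 1 m → y ∈ F i m → x * y ∈ F (i + 1) m
  pull_mem : ∀ {i m n : ℕ} (φ : Fin m → Fin n) {x : R.A m}, x ∈ F i m → R.pull φ x ∈ F i n
  push_mem : ∀ {i m : ℕ} {x : R.A (m + 1)}, x ∈ F i (m + 1) → R.push x ∈ F i m
  separated : ∀ {m : ℕ} {x : R.A m}, (∀ i, x ∈ F i m) → x = 0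

/-- one step of the filtration -/
def CorrFiltration.step (Φ : CorrFiltration R) (i : ℕ) : TIdeal R where
  I := Φ.F i
  pull_mem φ _ hx := Φ.pull_mem φ hx
  push_mem hx := Φ.push_mem hx

/-- `H ∈ F^1` implies `H = 0` -/
theorem PreTate.haf_zero' (h : PreTate R a G) (n : ℕ)
    (he : R.push (R.push (R.diag * R.diag)) = algebraMap ℚ (R.A 0) (b - 2 * n))
    (Φ : CorrFiltration R) (h1 : haf (tr R a G) (n + 1) ∈ Φ.F 1 _) :
    haf (tr R a G) (n + 1) = 0 := by
  have h2 : ∀ i, haf (tr R a G) (n + 1) ∈ Φ.F (i + 1) _ := by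
    intro i
    induction i with
    | zero => exact h1
    | succ i ih =>
      have he' := euler_cj (Φ.step (i + 1 + 1)) he
      rw [← cj_diag] at he'
      obtain ⟨h3, -⟩ := (h.toJ (Φ.step (i + 1 + 1))).smashGap n he'
      rw [tr_cj, haf_cj] at h3
      have h4 : SmashNil (quotJ (Φ.step (i + 1 + 1)))
          (cj (Φ.step (i + 1 + 1)) _ (haf (tr R a G) (n + 1))) := by
        refine ⟨2, by norm_num, ?_⟩
        rw [PowerRings.extPow, Fin.prod_univ_two, cj_pull, cj_pull, ← map_mul, cj_eq_zero]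
        exact Φ.mul_mem (Φ.pull_mem _ h1) (Φ.pull_mem _ ih)
      exact (cj_eq_zero _).1 ((h3.out 1 0).1 h4)
  exact Φ.separated fun i => Φ.anti (Nat.le_succ i) (h2 i)

/-- **The gap theorem modulo the first step of a filtration by correspondences.** -/
theorem PreTate.corrGap (h : PreTate R a G) (n : ℕ)
    (he : R.push (R.push (R.diag * R.diag)) = algebraMap ℚ (R.A 0) (b - 2 * n))
    (Φ : CorrFiltration R) :
    [haf (tr R a G) (n + 1) = 0,
      haf (tr R a G) (n + 1) ∈ Φ.F 1 _,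
      sym (tr R a G) (2 * n + 1) = 0,
      ∃ N, sym (tr R a G) N ∈ Φ.F 1 _,
      ∃ (k : ℕ) (T : Fin k → ℕ × ℕ), Function.Injective T ∧ IsLowerSet (Set.range T) ∧
        (2, 2 * n + 2) ∉ Set.range T ∧ young (tr R a G) T ∈ Φ.F 1 _].TFAE ∧
    (haf (tr R a G) (n + 1) ≠ 0 →
      (∀ m : ℕ, ∃ (N : ℕ) (v : Fin N → R.A m), (∀ j, IsProduct R a m (v j)) ∧
        (∀ c : Fin N → ℚ, (∑ j, c j • v j) ∈ Φ.F 1 m → c = 0) ∧
        ((b : ℤ) + (2 * n + 4 : ℕ)) ^ m + ((b : ℤ) - (2 * n + 4 : ℕ)) ^ m ≤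
          2 * ((m / 2 + (2 * n + 3) * (2 * n + 5)).choose ((2 * n + 3) * (2 * n + 5)) : ℕ) * N) ∧
      (∀ (k : ℕ) (c : Equiv.Perm (Fin k) → ℚ),
        (∑ σ, c σ • ∏ i, R.pull ![Fin.castAdd k i, Fin.natAdd k (σ i)] (tr R a G)) ∈ Φ.F 1 _ →
          SuperRel (fun x : Fin (2 * n + 4) => decide (2 ≤ (x : ℕ))) c) ∧
      (∀ m < 6 * (n + 2), ∀ c : Matching m → ℚ,
        (∑ τ, c τ • mprod (tr R a G) τ) ∈ Φ.F 1 m → c = 0)) :=
  h.gapMod n he (Φ.step 1) (fun h1 => h.haf_zero' n he Φ h1)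

end Pool.Agent.Run7.h570.GAP
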