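import Pool.Agent.Run7.h570.GAP.Slots

set_option autoImplicit false
set_option linter.unusedSectionVars false

/-!
# The growth of the spaces of the products
-/

open MvPolynomial

universe u

namespace Pool.Agent.Run7.h570.GAP

variable {R : PowerRings.{u}} {b : ℕ} {a : Fin b → R.A 1} {G : Matrix (Fin b) (Fin b) ℚ}

/-- the linear combinations of the products which are transcendental in the first `k` factors -/
def FF (R : PowerRings.{u}) {b : ℕ} (a : Fin b → R.A 1) (n k : ℕ) : Submodule ℚ (R.A n) where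
  carrier := {y | y ∈ EE R a n ∧ ∀ s : Fin n, (s : ℕ) < k → Tt a s y}
  add_mem' := fun hx hy => ⟨Submodule.add_mem _ hx.1 hy.1, fun s hs => (hx.2 s hs).add (hy.2 s hs)⟩
  zero_mem' := ⟨Submodule.zero_mem _, fun s _ => Tt.zero s⟩
  smul_mem' := fun c _ hx => ⟨Submodule.smul_mem _ c hx.1, fun s hs => (hx.2 s hs).smul c⟩

/-- the map which decomposes the space according to the last factor -/
noncomputable def dec (R : PowerRings.{u}) {b : ℕ} (a : Fin b → R.A 1) (n k : ℕ) (hk : k ≤ n) :
    ((Fin b → FF R a n k) × FF R a (n + 1) (k + 1)) →ₗ[ℚ] FF R a (n + 1) k where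
  toFun x := ⟨∑ i, R.pull Fin.castSucc (x.1 i : R.A n) * R.on (Fin.last n) (a i) +
      R.pull (Equiv.swap (⟨k, by omega⟩ : Fin (n + 1)) (Fin.last n)) (x.2 : R.A (n + 1)), by
    constructor
    · refine Submodule.add_mem _ (Submodule.sum_mem _ fun i _ => EE.cls (x.1 i).2.1 i) ?_
      exact EE.perm x.2.2.1 _
    · intro s hs
      have hsn : (s : ℕ) < n := by omega
      refine Tt.add ?_ ?_
      · have h1 : ∀ S : Finset (Fin b), Tt a s
            (∑ i ∈ S, R.pull Fin.castSucc (x.1 i : R.A n) * R.on (Fin.last n) (a i)) := by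
          intro S
          induction S using Finset.induction_on with
          | empty => rw [Finset.sum_empty]; exact Tt.zero s
          | insert i S hi ih =>
            rw [Finset.sum_insert hi]
            refine Tt.add ?_ ih
            have h2 : s = Fin.castSucc (⟨s, hsn⟩ : Fin n) := rfl
            refine Tt.mul_free ?_ (Free.on ?_ _)
            · rw [h2]
              exact Tt.pull ((x.1 i).2.2 ⟨s, hsn⟩ hs) (Fin.castSucc_injective n)
            · intro h3
              have := congrArg Fin.val h3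
              simp at this
              omega
        exact h1 _
      · have h2 : Equiv.swap (⟨k, by omega⟩ : Fin (n + 1)) (Fin.last n) s = s := by
          refine Equiv.swap_apply_of_ne_of_ne ?_ ?_
          · intro h3
            have := congrArg Fin.val h3
            simp at this
            omega
          · intro h3
            have := congrArg Fin.val h3
            simp at this
            omega
        have h3 := Tt.pull (x.2.2.2 s (by omega)) (Equiv.swap (⟨k, by omega⟩ : Fin (n + 1))
          (Fin.last n)).injective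
        rwa [h2] at h3⟩
  map_add' x y := by
    apply Subtype.ext
    simp only [Prod.fst_add, Prod.snd_add, Pi.add_apply, Submodule.coe_add, map_add, add_mul,
      Finset.sum_add_distrib]
    abel
  map_smul' c x := by
    apply Subtype.ext
    simp only [Prod.smul_fst, Prod.smul_snd, Pi.smul_apply, Submodule.coe_smul, map_smul,
      smul_mul_assoc, ← Finset.smul_sum, RingHom.id_apply, smul_add]

lemma PreTate.dec_injective (h : PreTate R a G) {n k : ℕ} (hk : k ≤ n) :
    Function.Injective (dec R a n k hk) := by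
  rw [injective_iff_map_eq_zero]
  rintro ⟨z, y⟩ hx
  have h1 : ∑ i, R.pull Fin.castSucc (z i : R.A n) * R.on (Fin.last n) (a i) +
      R.pull (Equiv.swap (⟨k, by omega⟩ : Fin (n + 1)) (Fin.last n)) (y : R.A (n + 1)) = 0 :=
    congrArg Subtype.val hx
  have h2 : Tt a (Fin.last n)
      (R.pull (Equiv.swap (⟨k, by omega⟩ : Fin (n + 1)) (Fin.last n)) (y : R.A (n + 1))) := by
    have h3 := Tt.pull (y.2.2 (⟨k, by omega⟩ : Fin (n + 1)) (by simp))
      (Equiv.swap (⟨k, by omega⟩ : Fin (n + 1)) (Fin.last n)).injective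
    rwa [Equiv.swap_apply_left] at h3
  have h3 : ∀ j, (z j : R.A n) = 0 := by
    intro j
    have h4 := congrArg (fun t => R.push (t * R.on (Fin.last n) (dl R a G j))) h1
    simp only [add_mul, map_add, zero_mul, map_zero] at h4
    rw [h.Tt_last_dl h2, add_zero, Finset.sum_mul, map_sum] at h4
    have h5 : ∀ i, R.push (R.pull Fin.castSucc (z i : R.A n) * R.on (Fin.last n) (a i) *
        R.on (Fin.last n) (dl R a G j)) = (if i = j then (1 : ℚ) else 0) • (z i : R.A n) := by
      intro i
      rw [← push_on _ _ (h.dual i j), map_mul (R.on _), mul_assoc]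
    rw [Finset.sum_congr rfl fun i _ => h5 i] at h4
    simpa using h4
  have h4 : (y : R.A (n + 1)) = 0 := by
    simp only [h3, map_zero, zero_mul, Finset.sum_const_zero, zero_add] at h1
    have h5 := congrArg (R.pull (Equiv.swap (⟨k, by omega⟩ : Fin (n + 1)) (Fin.last n))) h1
    rw [← R.pull_comp, map_zero] at h5
    have h6 : (⇑(Equiv.swap (⟨k, by omega⟩ : Fin (n + 1)) (Fin.last n)) ∘
        ⇑(Equiv.swap (⟨k, by omega⟩ : Fin (n + 1)) (Fin.last n))) = id := by
      ext1 t
      simp
    rwa [h6, R.pull_id] at h5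
  refine Prod.ext (funext fun j => Subtype.ext (h3 j)) (Subtype.ext h4)

/-- the recursion for the ranks -/
lemma PreTate.rank_step (h : PreTate R a G) {n k : ℕ} (hk : k ≤ n) :
    (b : Cardinal.{u}) * Module.rank ℚ (FF R a n k) + Module.rank ℚ (FF R a (n + 1) (k + 1)) ≤
      Module.rank ℚ (FF R a (n + 1) k) := by
  have h1 := LinearMap.rank_le_of_injective _ (h.dec_injective hk)
  rw [rank_prod', rank_fun_eq_lift_mul, Fintype.card_fin] at h1
  simpa using h1

/-- the dimensions of the spans of the products of pairs -/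
noncomputable def rk {δ : ℚ} (hp : IsProj R (tr R a G) δ) (n : ℕ) : ℕ :=
  if Even n then Module.finrank ℚ (LinearMap.range (Phi hp (n / 2))) else 0

lemma PreTate.rk_le (h : PreTate R a G) {δ : ℚ} (hp : IsProj R (tr R a G) δ) (n : ℕ) :
    (rk hp n : Cardinal.{u}) ≤ Module.rank ℚ (FF R a n n) := by
  rw [rk]
  split_ifs with hn
  · obtain ⟨k, rfl⟩ := hn
    have h1 : (k + k) / 2 = k := by omega
    rw [h1, Module.finrank_eq_rank]
    refine Submodule.rank_mono ?_
    rintro _ ⟨c, rfl⟩
    rw [Phi, Fintype.linearCombination_apply]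
    refine Submodule.sum_mem _ fun σ _ => Submodule.smul_mem _ _ ?_
    exact ⟨xs_mem hp σ, fun s _ => h.Tt_xs hp σ s⟩
  · simp

/-- the lower bounds -/
noncomputable def LL {δ : ℚ} (hp : IsProj R (tr R a G) δ) : ℕ → ℕ → ℕ
  | 0, k => rk hp k
  | m + 1, k => b * LL hp m k + LL hp m (k + 1)

lemma PreTate.LL_le (h : PreTate R a G) {δ : ℚ} (hp : IsProj R (tr R a G) δ) (m : ℕ) :
    ∀ k n : ℕ, n = m + k → (LL hp m k : Cardinal.{u}) ≤ Module.rank ℚ (FF R a n k) := by
  induction m with
  | zero =>
    intro k n hn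
    rw [Nat.zero_add] at hn
    subst hn
    exact h.rk_le hp n
  | succ m ih =>
    intro k n hn
    obtain ⟨n', rfl⟩ : ∃ n', n = n' + 1 := ⟨m + k, by omega⟩
    refine le_trans ?_ (h.rank_step (n := n') (k := k) (by omega))
    rw [LL]
    push_cast
    exact add_le_add (mul_le_mul_right (ih k n' (by omega)) _) (ih (k + 1) (n' + 1) (by omega))

lemma LL_bound {δ : ℚ} (hp : IsProj R (tr R a G) δ) {c K : ℕ} (D : ℤ)
    (hc : ∀ j, j ≤ K → (D ^ j + (-D) ^ j) ≤ 2 * c * rk hp j) (m : ℕ) : ∀ k : ℕ, m + k ≤ K →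
    ((b : ℤ) + D) ^ m * D ^ k + ((b : ℤ) - D) ^ m * (-D) ^ k ≤ 2 * c * LL hp m k := by
  induction m with
  | zero =>
    intro k hk
    have := hc k (by omega)
    simpa [LL] using this
  | succ m ih =>
    intro k hk
    have h1 := ih k (by omega)
    have h2 := ih (k + 1) (by omega)
    have h3 : (0 : ℤ) ≤ b := Int.natCast_nonneg b
    rw [LL]
    push_cast
    calc ((b : ℤ) + D) ^ (m + 1) * D ^ k + ((b : ℤ) - D) ^ (m + 1) * (-D) ^ k
        = b * (((b : ℤ) + D) ^ m * D ^ k + ((b : ℤ) - D) ^ m * (-D) ^ k) +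
          (((b : ℤ) + D) ^ m * D ^ (k + 1) + ((b : ℤ) - D) ^ m * (-D) ^ (k + 1)) := by ring
      _ ≤ b * (2 * c * LL hp m k) + 2 * c * LL hp m (k + 1) :=
        add_le_add (mul_le_mul_of_nonneg_left h1 h3) h2
      _ = _ := by ring

lemma Tate.rk_bound (h : Tate R a G) (hπ : tr R a G ≠ 0) (n : ℕ) {j : ℕ} (hj : j ≤ n) :
    ((4 : ℤ) ^ j + (-4) ^ j) ≤ 2 * ((n / 2 + 15).choose 15 : ℕ) * rk h.isProj j := by
  rcases Nat.even_or_odd j with he | ho
  · have h1 := rank_Phi_zero (h := h.isProj) hπ (j / 2)
    have h2 : rk h.isProj j = Module.finrank ℚ (LinearMap.range (Phi h.isProj (j / 2))) := if_pos he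
    have h3 : (j / 2 + 15).choose 15 ≤ (n / 2 + 15).choose 15 :=
      Nat.choose_le_choose _ (by omega)
    have h4 : (16 : ℕ) ^ (j / 2) = 4 ^ j := by
      rw [show (16 : ℕ) = 4 ^ 2 by norm_num, ← pow_mul, Nat.two_mul_div_two_of_even he]
    rw [← h2, h4] at h1
    have h5 : 4 ^ j ≤ rk h.isProj j * (n / 2 + 15).choose 15 :=
      h1.trans (Nat.mul_le_mul_left _ h3)
    have h6 : (4 : ℤ) ^ j ≤ rk h.isProj j * ((n / 2 + 15).choose 15 : ℕ) := by exact_mod_cast h5
    rw [he.neg_pow]
    linarith
  · rw [ho.neg_pow]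
    have : (0 : ℤ) ≤ 2 * ((n / 2 + 15).choose 15 : ℕ) * rk h.isProj j := by positivity
    linarith

/-- **the growth of the space of the products** -/
theorem Tate.growth (h : Tate R a G) (hπ : tr R a G ≠ 0) (n : ℕ) :
    ∃ N : ℕ, (N : Cardinal.{u}) ≤ Module.rank ℚ (EE R a n) ∧
      ((b : ℤ) + 4) ^ n + ((b : ℤ) - 4) ^ n ≤ 2 * ((n / 2 + 15).choose 15 : ℕ) * N := by
  refine ⟨LL h.isProj n 0, (h.LL_le h.isProj n 0 n rfl).trans
    (Submodule.rank_mono fun y hy => hy.1), ?_⟩
  have h1 := LL_bound h.isProj 4 (fun j hj => h.rk_bound hπ n hj) n 0 le_rfl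
  simpa using h1

/-- independent elements of a spanning set -/
lemma exists_indep {M : Type u} [AddCommGroup M] [Module ℚ M] (s : Set M) {N : ℕ}
    (hN : (N : Cardinal.{u}) ≤ Module.rank ℚ (Submodule.span ℚ s)) :
    ∃ v : Fin N → M, (∀ j, v j ∈ s) ∧ LinearIndependent ℚ v := by
  obtain ⟨t, hts, hspan, hli⟩ := exists_linearIndependent ℚ s
  rw [← hspan, rank_span_set hli] at hN
  have h1 : Cardinal.lift.{u} (Cardinal.mk (Fin N)) ≤ Cardinal.lift.{0} (Cardinal.mk t) := by
    simpa using hN
  obtain ⟨f⟩ := Cardinal.lift_mk_le'.1 h1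
  exact ⟨fun j => (f j : M), fun j => hts (f j).2, hli.comp _ f.injective⟩

/-- if the diagonal is a combination of Tate classes then so are the products -/
lemma Tate.small (hπ : tr R a G = 0) {n : ℕ} {z : R.A n} (hz : IsProduct R a n z) :
    z ∈ Submodule.span ℚ (Set.range fun g : Fin n → Fin b => ∏ s, R.on s (a (g s))) := by
  have hcls : ∀ (n : ℕ) (z : R.A n) (i : Fin b),
      z ∈ Submodule.span ℚ (Set.range fun g : Fin n → Fin b => ∏ s, R.on s (a (g s))) →
      R.pull Fin.castSucc z * R.on (Fin.last n) (a i) ∈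
        Submodule.span ℚ (Set.range fun g : Fin (n + 1) → Fin b => ∏ s, R.on s (a (g s))) := by
    intro n z i hz
    induction hz using Submodule.span_induction with
    | mem z hz =>
      obtain ⟨g, rfl⟩ := hz
      refine Submodule.subset_span ⟨Fin.snoc (α := fun _ => Fin b) g i, ?_⟩
      simp only [Fin.prod_univ_castSucc, Fin.snoc_castSucc, Fin.snoc_last, map_prod, pull_on]
    | zero => rw [map_zero, zero_mul]; exact Submodule.zero_mem _
    | add x y _ _ hx hy => rw [map_add, add_mul]; exact Submodule.add_mem _ hx hy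
    | smul c x _ hx => rw [map_smul, smul_mul_assoc]; exact Submodule.smul_mem _ c hx
  induction hz with
  | one =>
    refine Submodule.subset_span ⟨Fin.elim0, ?_⟩
    simp
  | cls hz i ih => exact hcls _ _ i ih
  | @dia n z hz ih =>
    have h1 : R.diag = tt R a G := by
      rw [tr] at hπ
      exact sub_eq_zero.1 hπ
    rw [h1, tt, map_sum, Finset.mul_sum]
    refine Submodule.sum_mem _ fun i _ => ?_
    rw [map_sum, Finset.mul_sum]
    refine Submodule.sum_mem _ fun j _ => ?_
    rw [map_smul, mul_smul_comm, map_mul, pull_on, pull_on, ← mul_assoc, R.pull_comp]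
    have h1 : R.on (![(Fin.last n).castSucc, Fin.last (n + 1)] 0) (a i) =
        R.pull Fin.castSucc (R.on (Fin.last n) (a i)) := by
      rw [pull_on]
      rfl
    rw [h1, ← map_mul]
    exact Submodule.smul_mem _ _ (hcls _ _ _ (hcls _ _ _ ih))
  | @perm n m z hz e ih =>
    clear hz
    induction ih using Submodule.span_induction with
    | mem z hz =>
      obtain ⟨g, rfl⟩ := hz
      refine Submodule.subset_span ⟨g ∘ e.symm, ?_⟩
      simp only [map_prod, pull_on]
      rw [← Equiv.prod_comp e]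
      simp
    | zero => rw [map_zero]; exact Submodule.zero_mem _
    | add x y _ _ hx hy => rw [map_add]; exact Submodule.add_mem _ hx hy
    | smul c x _ hx => rw [map_smul]; exact Submodule.smul_mem _ c hx

lemma Tate.small_card (hπ : tr R a G = 0) {n N : ℕ} (v : Fin N → R.A n)
    (hv : ∀ j, IsProduct R a n (v j)) (hi : LinearIndependent ℚ v) : N ≤ b ^ n := by
  classical
  set U := Submodule.span ℚ (Set.range fun g : Fin n → Fin b => ∏ s, R.on s (a (g s))) with hU
  have h1 : LinearIndependent ℚ (fun j => (⟨v j, Tate.small hπ (hv j)⟩ : U)) :=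
    LinearIndependent.of_comp U.subtype hi
  have : Module.Finite ℚ U := Module.Finite.span_of_finite ℚ (Set.finite_range _)
  have h2 := h1.fintype_card_le_finrank
  rw [Fintype.card_fin] at h2
  refine h2.trans ((finrank_range_le_card _).trans ?_)
  simp

end Pool.Agent.Run7.h570.GAP
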