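import Pool.Agent.Run7.h570.GAP.Inj

set_option autoImplicit false
set_option linter.unusedSectionVars false

/-!
# The homogeneous restitutions
-/

open MvPolynomial

universe u

namespace Pool.Agent.Run7.h570.GAP

section multi

variable {J : Type*} [DecidableEq J]

/-- all weights -/
def wts (s : Sym2 J) (j : J) : ℕ := wt j s

lemma weight_wts (d : Sym2 J →₀ ℕ) (j : J) :
    Finsupp.weight (wts : Sym2 J → J → ℕ) d j = Finsupp.weight (wt j) d := by
  rw [Finsupp.weight_apply, Finsupp.weight_apply, Finsupp.sum, Finsupp.sum, Finset.sum_apply]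
  rfl

lemma isWH_iff {f : Pol J} {μ : J → ℕ} :
    IsWeightedHomogeneous (wts : Sym2 J → J → ℕ) f μ ↔ ∀ j, HasWt j f (μ j) := by
  constructor
  · intro h j d hd
    rw [← weight_wts, h hd]
  · intro h d hd
    ext1 j
    rw [weight_wts]
    exact h j hd

end multi

variable {R : PowerRings.{u}} {π : R.A 2} {δ : ℚ}

/-- labellings with the same contents differ by a bijection -/
lemma exists_equiv_of_card {m m₀ N : ℕ} (w : Fin m → Fin N) (w₀ : Fin m₀ → Fin N)
    (h : ∀ j, (Finset.univ.filter fun s => w s = j).card =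
      (Finset.univ.filter fun s => w₀ s = j).card) : ∃ e : Fin m ≃ Fin m₀, w = w₀ ∘ e := by
  have h1 : ∀ j, Nonempty ({s // w s = j} ≃ {s // w₀ s = j}) := by
    intro j
    refine ⟨Fintype.equivOfCardEq ?_⟩
    rw [Fintype.card_subtype, Fintype.card_subtype, h]
  refine ⟨Equiv.ofFiberEquiv fun j => (h1 j).some, ?_⟩
  ext1 s
  exact (Equiv.ofFiberEquiv_map _ s).symm

/-- **the homogeneous elements are restitutions of relations** -/
theorem KK.extract {h : IsProj R π δ} {N m₀ : ℕ} (w₀ : Fin m₀ → Fin N) {x : Pol (Fin N)}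
    (hx : x ∈ KK h N) (hw : ∀ j, HasWt j x (Finset.univ.filter fun s => w₀ s = j).card) :
    ∃ F ∈ Rel h m₀, rn w₀ F = x := by
  classical
  set μ : Fin N → ℕ := fun j => (Finset.univ.filter fun s => w₀ s = j).card with hμ
  have key : ∃ F ∈ Rel h m₀, rn w₀ F =
      weightedHomogeneousComponent (wts : Sym2 (Fin N) → Fin N → ℕ) μ x := by
    clear hw
    induction hx using Submodule.span_induction with
    | mem x hx =>
      obtain ⟨m, w, f, hf, rfl⟩ := hx
      have h1 : IsWeightedHomogeneous (wts : Sym2 (Fin N) → Fin N → ℕ) (rn w f)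
          (fun j => (Finset.univ.filter fun s => w s = j).card) :=
        isWH_iff.2 fun j => HasWt.rn_one fun s _ => hf.1 s
      rw [weightedHomogeneousComponent_of_mem ((mem_weightedHomogeneousSubmodule ..).2 h1)]
      split_ifs with h2
      · obtain ⟨e, he⟩ := exists_equiv_of_card w w₀ (fun j => (congrFun h2 j).symm)
        refine ⟨rn e f, Rel.equiv hf e, ?_⟩
        rw [rn_rn, he]
      · exact ⟨0, Submodule.zero_mem _, map_zero _⟩
    | zero => exact ⟨0, Submodule.zero_mem _, by rw [map_zero, map_zero]⟩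
    | add x y _ _ hx hy =>
      obtain ⟨F, hF, hF'⟩ := hx
      obtain ⟨G, hG, hG'⟩ := hy
      exact ⟨F + G, Submodule.add_mem _ hF hG, by rw [map_add, map_add, hF', hG']⟩
    | smul c x _ hx =>
      obtain ⟨F, hF, hF'⟩ := hx
      exact ⟨c • F, Submodule.smul_mem _ c hF, by rw [map_smul, map_smul, hF']⟩
  obtain ⟨F, hF, hF'⟩ := key
  refine ⟨F, hF, ?_⟩
  rw [hF', weightedHomogeneousComponent_of_mem ((mem_weightedHomogeneousSubmodule ..).2
    (isWH_iff.2 hw)), if_pos rfl]

/-- the restitutions are stable under polarizations -/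
lemma KK.ee_mem {h : IsProj R π δ} {N : ℕ} (a b : Fin N) {x : Pol (Fin N)} (hx : x ∈ KK h N) :
    ee a b x ∈ KK h N := by
  induction hx using Submodule.span_induction with
  | mem x hx =>
    obtain ⟨m, w, f, hf, rfl⟩ := hx
    rw [ee_rn w a b _ (fun j _ => hf.1 j)]
    exact Submodule.sum_mem _ fun j _ => mem_KK _ hf
  | zero => rw [map_zero]; exact Submodule.zero_mem _
  | add x y _ _ hx hy => rw [map_add]; exact Submodule.add_mem _ hx hy
  | smul c x _ hx => rw [Derivation.map_smul]; exact Submodule.smul_mem _ c hx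

/-- the product of a relation and a new pair -/
lemma Rel.mul_pair {h : IsProj R π δ} {m : ℕ} {f : Pol (Fin m)} (hf : f ∈ Rel h m) :
    X s((Fin.last m).castSucc, Fin.last (m + 1)) * rn up f ∈ Rel h (m + 2) := by
  refine ⟨fun j => ?_, ?_⟩
  · have h1 : HasWt j (rn up f) (Finset.univ.filter fun i : Fin m => up i = j).card :=
      HasWt.rn_one fun i _ => hf.1 i
    have h2 : HasWt j (X s((Fin.last m).castSucc, Fin.last (m + 1)) : Pol (Fin (m + 2)))
      (wt j s((Fin.last m).castSucc, Fin.last (m + 1))) := HasWt.X _ _ _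
    have h3 := h2.mul h1
    convert h3 using 1
    rw [wt_mk]
    by_cases ha : j = (Fin.last m).castSucc
    · subst ha
      rw [if_pos rfl, if_neg (a_ne_b (m := m)).symm]
      have h4 : (Finset.univ.filter fun i : Fin m => up i = (Fin.last m).castSucc) = ∅ := by
        rw [Finset.filter_eq_empty_iff]
        exact fun i _ => up_ne_a i
      rw [h4]
      rfl
    by_cases hb : j = Fin.last (m + 1)
    · subst hb
      rw [if_neg (a_ne_b (m := m)), if_pos rfl]
      have h4 : (Finset.univ.filter fun i : Fin m => up i = Fin.last (m + 1)) = ∅ := by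
        rw [Finset.filter_eq_empty_iff]
        exact fun i _ => up_ne_b i
      rw [h4]
      rfl
    obtain ⟨i, rfl⟩ := exists_up ha hb
    rw [if_neg (Ne.symm ha), if_neg (Ne.symm hb)]
    have h4 : (Finset.univ.filter fun i' : Fin m => up i' = up i) = {i} := by
      ext i'
      simp [up_inj.eq_iff]
    rw [h4]
    rfl
  · rw [map_mul, h.ev_rn, hf.2, map_zero, mul_zero]

/-- the restitutions form an ideal -/
lemma KK.mul_mem {h : IsProj R π δ} {N : ℕ} (p : Pol (Fin N)) {x : Pol (Fin N)}
    (hx : x ∈ KK h N) : p * x ∈ KK h N := by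
  induction p using MvPolynomial.induction_on with
  | C r => rw [C_mul']; exact Submodule.smul_mem _ r hx
  | add p q hp hq => rw [add_mul]; exact Submodule.add_mem _ hp hq
  | mul_X p s hp =>
    rw [mul_comm p, mul_assoc]
    generalize p * x = y at hp
    induction hp using Submodule.span_induction with
    | mem y hy =>
      obtain ⟨m, w, f, hf, rfl⟩ := hy
      induction s with
      | _ a b =>
        have h1 := mem_KK (N := N) (Fin.snoc (α := fun _ => Fin N)
          (Fin.snoc (α := fun _ => Fin N) w a) b) (Rel.mul_pair hf)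
        rw [map_mul, rn_X, rn_rn, Fin.snoc_castSucc, Fin.snoc_last, Fin.snoc_last] at h1
        have h2 : (Fin.snoc (α := fun _ => Fin N) (Fin.snoc (α := fun _ => Fin N) w a) b) ∘ up = w := by
          ext1 i
          rw [Function.comp_apply, up, Fin.snoc_castSucc, Fin.snoc_castSucc]
        rwa [h2] at h1
    | zero => rw [mul_zero]; exact Submodule.zero_mem _
    | add y z _ _ hy hz => rw [mul_add]; exact Submodule.add_mem _ hy hz
    | smul c y _ hy => rw [mul_smul_comm]; exact Submodule.smul_mem _ c hy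

end Pool.Agent.Run7.h570.GAP
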