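import Pool.Agent.Run7.h570.GAP.Low

set_option autoImplicit false
set_option linter.unusedSectionVars false

/-!
# The relations between the permutations: the hook ideal
-/

open MvPolynomial

universe u

namespace Pool.Agent.Run7.h570.GAP

variable {R : PowerRings.{u}} {π : R.A 2} {δ : ℚ} {n k : ℕ}

lemma sign_rext (ρ : Equiv.Perm (Fin k)) : Equiv.Perm.sign (rext ρ) = Equiv.Perm.sign ρ := by
  have h1 : rext ρ = finSumFinEquiv.permCongr (Equiv.Perm.sumCongr 1 ρ) := by
    ext1 s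
    induction s using slot_cases with
    | hl i =>
      rw [rext_lf]
      change finSumFinEquiv (Sum.inl i) =
        finSumFinEquiv.permCongr (Equiv.Perm.sumCongr 1 ρ) (finSumFinEquiv (Sum.inl i))
      rw [Equiv.permCongr_apply, Equiv.symm_apply_apply]
      rfl
    | hr j =>
      rw [rext_rt]
      change finSumFinEquiv (Sum.inr (ρ j)) =
        finSumFinEquiv.permCongr (Equiv.Perm.sumCongr 1 ρ) (finSumFinEquiv (Sum.inr j))
      rw [Equiv.permCongr_apply, Equiv.symm_apply_apply]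
      rfl
  rw [h1, Equiv.Perm.sign_permCongr, Equiv.Perm.sign_sumCongr, map_one, one_mul]

/-- the restriction of `γ` to the letters which satisfy `P` -/
noncomputable def part (P : Fin k → Prop) [DecidablePred P] (γ : Equiv.Perm (Fin k))
    (hγ : ∀ j, P (γ j) ↔ P j) : Equiv.Perm (Fin k) :=
  Equiv.Perm.ofSubtype (γ.subtypePerm hγ)

lemma part_pos {P : Fin k → Prop} [DecidablePred P] {γ : Equiv.Perm (Fin k)}
    (hγ : ∀ j, P (γ j) ↔ P j) {j : Fin k} (hj : P j) : part P γ hγ j = γ j := by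
  rw [part, Equiv.Perm.ofSubtype_apply_of_mem (p := P) _ hj]
  rfl

lemma part_neg {P : Fin k → Prop} [DecidablePred P] {γ : Equiv.Perm (Fin k)}
    (hγ : ∀ j, P (γ j) ↔ P j) {j : Fin k} (hj : ¬ P j) : part P γ hγ j = j :=
  Equiv.Perm.ofSubtype_apply_of_not_mem (p := P) _ hj

open Classical in
/-- the permutations of the even letters -/
noncomputable def evenPerms (r : Fin k → Let n) : Finset (Equiv.Perm (Fin k)) :=
  Finset.univ.filter fun g => (∀ j, r (g j) = r j) ∧ ∀ j, (r j).1 ≠ none → g j = j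

open Classical in
/-- the permutations of the odd letters -/
noncomputable def oddPerms (r : Fin k → Let n) : Finset (Equiv.Perm (Fin k)) :=
  Finset.univ.filter fun g => (∀ j, r (g j) = r j) ∧ ∀ j, (r j).1 = none → g j = j

lemma mem_evenPerms {r : Fin k → Let n} {g : Equiv.Perm (Fin k)} : g ∈ evenPerms r ↔
    (∀ j, r (g j) = r j) ∧ ∀ j, (r j).1 ≠ none → g j = j := by
  rw [evenPerms, Finset.mem_filter]
  exact ⟨fun h => h.2, fun h => ⟨Finset.mem_univ _, h⟩⟩

lemma mem_oddPerms {r : Fin k → Let n} {g : Equiv.Perm (Fin k)} : g ∈ oddPerms r ↔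
    (∀ j, r (g j) = r j) ∧ ∀ j, (r j).1 = none → g j = j := by
  rw [oddPerms, Finset.mem_filter]
  exact ⟨fun h => h.2, fun h => ⟨Finset.mem_univ _, h⟩⟩

lemma inv_apply_of {r : Fin k → Let n} {g : Equiv.Perm (Fin k)} (hg : ∀ j, r (g j) = r j)
    (j : Fin k) : r (g⁻¹ j) = r j := by
  have := hg (g⁻¹ j)
  rw [show g (g⁻¹ j) = j by simp] at this
  exact this.symm

lemma rho_mul {r : Fin k → Let n} {σ₀ g g' : Equiv.Perm (Fin k)} (hg : g ∈ evenPerms r)
    (hg' : g' ∈ oddPerms r) (h : r ∘ σ₀ = r ∘ (g * g' * σ₀ : Equiv.Perm (Fin k))) :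
    rho r h = g'⁻¹ := by
  rw [mem_evenPerms] at hg
  rw [mem_oddPerms] at hg'
  ext1 j
  by_cases hj : (r j).1 = none
  · rw [rho_even r h hj, eq_comm, Equiv.Perm.inv_eq_iff_eq, hg'.2 j hj]
  · rw [rho_odd r h hj]
    have h1 : g⁻¹ j = j := by
      rw [Equiv.Perm.inv_eq_iff_eq, hg.2 j hj]
    rw [mul_inv_rev, mul_inv_rev, Equiv.Perm.mul_apply, Equiv.Perm.mul_apply, h1]
    simp

/-- **the hook ideal** -/
theorem hook {h : IsProj R π δ} (hδ : δ = -2 * n)
    (hN : ∀ (N : ℕ), ∀ x' ∈ KK h (N + 1), ¬ Good (fun c : Fin (N + 1) => if c = 0 then 0 else 0) x' ∧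
      ¬ Good (fun c : Fin (N + 1) => if c = 0 then 2 * n + 2 else 0) x')
    {c : Equiv.Perm (Fin k) → ℚ} (hc : ∑ σ, c σ • xs σ ∈ Rel h (k + k)) (r : Fin k → Let n)
    (σ₀ : Equiv.Perm (Fin k)) :
    ∑ g ∈ evenPerms r, ∑ g' ∈ oddPerms r, ((Equiv.Perm.sign g' : ℤ) : ℚ) * c (g * g' * σ₀) = 0 := by
  classical
  set l := r ∘ σ₀ with hl
  have h0 : l = r ∘ σ₀ := rfl
  have hb := WW_base h0
  have h1 : coeff (ex (ww l r σ₀) σ₀) (rn (ww l r σ₀) (alt (uu l r) (∑ σ, c σ • xs σ))) = 0 := by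
    by_contra h2
    obtain ⟨x', hx', h3 | h3⟩ := exists_good hδ hc (uu l r) ⟨ww l r σ₀, ww_adm l r σ₀, fun h3 => h2 (by
      rw [h3, coeff_zero])⟩
    · exact (hN _ x' hx').1 h3
    · exact (hN _ x' hx').2 h3
  rw [coeff_alt, ← Finset.sum_filter_add_sum_filter_not Finset.univ
    (fun σ : Equiv.Perm (Fin k) => l = r ∘ σ)] at h1
  have h2 : ∑ σ ∈ Finset.univ.filter (fun σ : Equiv.Perm (Fin k) => ¬ l = r ∘ σ),
      c σ * WW l r σ₀ σ = 0 := by
    refine Finset.sum_eq_zero fun σ hσ => ?_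
    rw [WW_eq_zero h0 (Finset.mem_filter.1 hσ).2, mul_zero]
  rw [h2, add_zero] at h1
  have h3 : WW l r σ₀ σ₀ * ∑ g ∈ evenPerms r, ∑ g' ∈ oddPerms r,
      ((Equiv.Perm.sign g' : ℤ) : ℚ) * c (g * g' * σ₀) =
      ∑ σ ∈ Finset.univ.filter (fun σ : Equiv.Perm (Fin k) => l = r ∘ σ), c σ * WW l r σ₀ σ := by
    rw [← Finset.sum_product', Finset.mul_sum]
    refine Finset.sum_bij (fun x _ => x.1 * x.2 * σ₀) ?_ ?_ ?_ ?_
    · rintro ⟨g, g'⟩ hx
      obtain ⟨hg, hg'⟩ := Finset.mem_product.1 hx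
      rw [Finset.mem_filter]
      refine ⟨Finset.mem_univ _, ?_⟩
      ext1 j
      simp only [hl, Function.comp_apply, Equiv.Perm.mul_apply]
      rw [(mem_evenPerms.1 hg).1, (mem_oddPerms.1 hg').1]
    · rintro ⟨g, g'⟩ hx ⟨f, f'⟩ hy hxy
      obtain ⟨hg, hg'⟩ := Finset.mem_product.1 hx
      obtain ⟨hf, hf'⟩ := Finset.mem_product.1 hy
      have e1 : g * g' = f * f' := mul_right_cancel hxy
      have hg := mem_evenPerms.1 hg
      have hg' := mem_oddPerms.1 hg'
      have hf := mem_evenPerms.1 hf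
      have hf' := mem_oddPerms.1 hf'
      have e2 : g' = f' := by
        ext1 j
        by_cases hj : (r j).1 = none
        · rw [hg'.2 j hj, hf'.2 j hj]
        · have e3 := congrArg (fun p : Equiv.Perm (Fin k) => p j) e1
          simp only [Equiv.Perm.mul_apply] at e3
          rwa [hg.2 _ (by rw [hg'.1]; exact hj), hf.2 _ (by rw [hf'.1]; exact hj)] at e3
      subst e2
      rw [mul_right_cancel e1]
    · intro σ hσ
      have hσ := (Finset.mem_filter.1 hσ).2
      have hγ : ∀ j, r ((σ * σ₀⁻¹) j) = r j := by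
        intro j
        have h4 := congrFun hσ (σ₀⁻¹ j)
        rw [hl] at h4
        simp only [Function.comp_apply] at h4
        rw [Equiv.Perm.mul_apply, ← h4]
        simp
      have hE : ∀ j, (r ((σ * σ₀⁻¹) j)).1 = none ↔ (r j).1 = none := fun j => by rw [hγ]
      have hO : ∀ j, (r ((σ * σ₀⁻¹) j)).1 ≠ none ↔ (r j).1 ≠ none := fun j => by rw [hγ]
      have m1 : part (fun j => (r j).1 = none) (σ * σ₀⁻¹) hE ∈ evenPerms r := by
        rw [mem_evenPerms]
        refine ⟨fun j => ?_, fun j hj => part_neg (P := fun j => (r j).1 = none) hE hj⟩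
        by_cases hj : (r j).1 = none
        · rw [part_pos (P := fun j => (r j).1 = none) hE hj, hγ]
        · rw [part_neg (P := fun j => (r j).1 = none) hE hj]
      have m2 : part (fun j => (r j).1 ≠ none) (σ * σ₀⁻¹) hO ∈ oddPerms r := by
        rw [mem_oddPerms]
        refine ⟨fun j => ?_, fun j hj => part_neg (P := fun j => (r j).1 ≠ none) hO
          (by simpa using hj)⟩
        by_cases hj : (r j).1 = none
        · rw [part_neg (P := fun j => (r j).1 ≠ none) hO (by simpa using hj)]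
        · rw [part_pos (P := fun j => (r j).1 ≠ none) hO hj, hγ]
      refine ⟨(_, _), Finset.mem_product.2 ⟨m1, m2⟩, ?_⟩
      have h4 : part (fun j => (r j).1 = none) (σ * σ₀⁻¹) hE *
          part (fun j => (r j).1 ≠ none) (σ * σ₀⁻¹) hO = σ * σ₀⁻¹ := by
        ext1 j
        rw [Equiv.Perm.mul_apply]
        by_cases hj : (r j).1 = none
        · rw [part_neg (P := fun j => (r j).1 ≠ none) hO (by simpa using hj),
            part_pos (P := fun j => (r j).1 = none) hE hj]
        · rw [part_pos (P := fun j => (r j).1 ≠ none) hO hj,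
            part_neg (P := fun j => (r j).1 = none) hE (by rw [hγ]; exact hj)]
      change part (fun j => (r j).1 = none) (σ * σ₀⁻¹) hE *
          part (fun j => (r j).1 ≠ none) (σ * σ₀⁻¹) hO * σ₀ = σ
      rw [h4, inv_mul_cancel_right]
    · rintro ⟨g, g'⟩ hx
      obtain ⟨hg, hg'⟩ := Finset.mem_product.1 hx
      have h' : r ∘ σ₀ = r ∘ (g * g' * σ₀ : Equiv.Perm (Fin k)) := by
        ext1 j
        simp only [Function.comp_apply, Equiv.Perm.mul_apply]
        rw [(mem_evenPerms.1 hg).1, (mem_oddPerms.1 hg').1]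
      have h4 : WW l r σ₀ (g * g' * σ₀) =
          ((Equiv.Perm.sign (rext (rho r h')) : ℤ) : ℚ) * WW l r σ₀ σ₀ := by
        rw [WW, WW, Finset.mul_sum]
        symm
        refine Finset.sum_equiv (Equiv.mulRight (rext (rho r h'))) (fun τ => ?_) (fun τ hτ => ?_)
        · simp only [Finset.mem_filter, Finset.mem_univ, true_and, Equiv.coe_mulRight]
          exact (rho_isG (l := l) h').mul_iff'
        · rw [Equiv.coe_mulRight, ex_rho h0 h' (Finset.mem_filter.1 hτ).2, map_mul]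
          push_cast
          ring
      simp only
      rw [h4, rho_mul hg hg', sign_rext, Equiv.Perm.sign_inv]
      ring
  rw [← h3] at h1
  exact (mul_eq_zero.1 h1).resolve_left hb

end Pool.Agent.Run7.h570.GAP
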