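import Pool.Agent.Run7.h570.GAP.Words

set_option autoImplicit false
set_option linter.unusedSectionVars false

/-!
# Restitution is injective on the invariants
-/

open MvPolynomial

universe u

namespace Pool.Agent.Run7.h570.GAP

section inj

variable {I J : Type*} [DecidableEq I] [DecidableEq J] [Fintype I] [Fintype J]

/-- the slots of `S` have labels of their own -/
def lab' (w : I → J) (S : Finset I) (t : I) : J ⊕ I := if t ∈ S then Sum.inr t else Sum.inl (w t)

lemma rn_injective {L : Type*} {v : I → L} (hv : Function.Injective v) :
    Function.Injective (rn v : Pol I → Pol L) :=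
  rename_injective _ (Sym2.map.injective hv)

/-- restitution is injective on the invariants of the stabilizer of the labelling -/
theorem eq_zero_of_rn (w : I → J) {F : Pol I} (hF : Multi F)
    (hinv : ∀ τ : Equiv.Perm I, w ∘ τ = w → rn τ F = F) (h0 : rn w F = 0) : F = 0 := by
  have key : ∀ S : Finset I, rn (lab' w S) F = 0 := by
    intro S
    induction S using Finset.induction_on with
    | empty =>
      have h1 : lab' w (∅ : Finset I) = Sum.inl ∘ w := by
        ext1 t
        simp [lab']
      rw [h1, ← rn_rn, h0, map_zero]
    | insert s S hs ih =>
      have h1 := congrArg (ee (Sum.inr s : J ⊕ I) (Sum.inl (w s))) ih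
      rw [map_zero, ee_rn _ _ _ _ (fun j _ => hF j)] at h1
      have h2 : ∀ t ∈ Finset.univ.filter (fun t => lab' w S t = Sum.inl (w s)),
          rn (Function.update (lab' w S) t (Sum.inr s)) F = rn (lab' w (insert s S)) F := by
        intro t ht
        have ht := (Finset.mem_filter.1 ht).2
        have htS : t ∉ S := by
          intro h3
          rw [lab', if_pos h3] at ht
          exact Sum.inr_ne_inl ht
        have htw : w t = w s := by
          rw [lab', if_neg htS] at ht
          exact Sum.inl_injective ht
        have h3 : Function.update (lab' w S) t (Sum.inr s) =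
            lab' w (insert s S) ∘ Equiv.swap s t := by
          ext1 x
          by_cases hx : x = t
          · subst hx
            rw [Function.update_self, Function.comp_apply, Equiv.swap_apply_right, lab',
              if_pos (Finset.mem_insert_self s S)]
          · rw [Function.update_of_ne hx, Function.comp_apply]
            by_cases hx' : x = s
            · subst hx'
              rw [Equiv.swap_apply_left, lab', lab', if_neg hs, if_neg, htw]
              rw [Finset.mem_insert, not_or]
              exact ⟨fun h => hx h.symm, htS⟩
            · rw [Equiv.swap_apply_of_ne_of_ne hx' hx, lab', lab']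
              by_cases hxS : x ∈ S
              · rw [if_pos hxS, if_pos (Finset.mem_insert_of_mem hxS)]
              · rw [if_neg hxS, if_neg]
                rw [Finset.mem_insert, not_or]
                exact ⟨hx', hxS⟩
        have h4 : w ∘ Equiv.swap s t = w := by
          ext1 x
          rw [Function.comp_apply]
          by_cases hx : x = t
          · subst hx
            rw [Equiv.swap_apply_right, htw]
          · by_cases hx' : x = s
            · subst hx'
              rw [Equiv.swap_apply_left, htw]
            · rw [Equiv.swap_apply_of_ne_of_ne hx' hx]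
        rw [h3, ← rn_rn, hinv _ h4]
      rw [Finset.sum_congr rfl h2, Finset.sum_const, ← Nat.cast_smul_eq_nsmul ℚ] at h1
      refine (smul_eq_zero.1 h1).resolve_left ?_
      refine Nat.cast_ne_zero.2 (Finset.card_pos.2 ⟨s, Finset.mem_filter.2 ⟨Finset.mem_univ _, ?_⟩⟩).ne'
      rw [lab', if_neg hs]
  have h1 := key Finset.univ
  have h2 : lab' w (Finset.univ : Finset I) = Sum.inr := by
    ext1 t
    simp [lab']
  rw [h2] at h1
  exact rn_injective Sum.inr_injective (h1.trans (map_zero _).symm)

open Classical in
/-- the sum over the stabilizer of the labelling -/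
noncomputable def sy (w : I → J) (F : Pol I) : Pol I :=
  ∑ τ ∈ Finset.univ.filter (fun τ : Equiv.Perm I => w ∘ τ = w), rn τ F

lemma sy_sub (w : I → J) (F G : Pol I) : sy w (F - G) = sy w F - sy w G := by
  simp only [sy, map_sub, Finset.sum_sub_distrib]

lemma sy_smul (w : I → J) (c : ℚ) (F : Pol I) : sy w (c • F) = c • sy w F := by
  simp only [sy, map_smul, Finset.smul_sum]

/-- **the kernel of the restitution** -/
theorem sy_eq_zero (w : I → J) {F : Pol I} (hF : Multi F) (h0 : rn w F = 0) : sy w F = 0 := by
  classical
  refine eq_zero_of_rn w ?_ ?_ ?_
  · exact fun j => HasWt.sum fun τ _ => hF.equiv τ j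
  · intro ρ hρ
    rw [sy, map_sum]
    refine Finset.sum_equiv (Equiv.mulLeft ρ) (fun τ => ?_) (fun τ _ => ?_)
    · simp only [Finset.mem_filter, Finset.mem_univ, true_and, Equiv.coe_mulLeft,
        Equiv.Perm.coe_mul, ← Function.comp_assoc, hρ]
    · rw [rn_rn]
      rfl
  · rw [sy, map_sum]
    refine Finset.sum_eq_zero fun τ hτ => ?_
    rw [rn_rn, (Finset.mem_filter.1 hτ).2, h0]

end inj

end Pool.Agent.Run7.h570.GAP
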