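import Pool.Agent.Run7.h570.GAP.Growth

set_option autoImplicit false
set_option linter.unusedSectionVars false

/-!
# The relations in few slots
-/

open MvPolynomial

universe u

namespace Pool.Agent.Run7.h570.GAP

variable {R : PowerRings.{u}} {π : R.A 2} {δ : ℚ} {m n : ℕ}

/-- exchanging two labels -/
lemma swap_sum {N : ℕ} (w : Fin m → Fin N) {c b : Fin N} (hcb : c < b)
    (hlt : (Finset.univ.filter fun s => w s = c).card < (Finset.univ.filter fun s => w s = b).card) :
    ∑ s, ((Equiv.swap c b (w s) : Fin N) : ℕ) < ∑ s, (w s : ℕ) := by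
  have h1 : ∀ s, ((w s : ℕ) : ℤ) - ((Equiv.swap c b (w s) : Fin N) : ℕ) =
      (if w s = b then ((b : ℕ) : ℤ) - (c : ℕ) else 0) +
      (if w s = c then ((c : ℕ) : ℤ) - (b : ℕ) else 0) := by
    intro s
    by_cases h1 : w s = b
    · have h2 : w s ≠ c := by rw [h1]; exact hcb.ne'
      rw [if_pos h1, if_neg h2, h1, Equiv.swap_apply_right, add_zero]
    · by_cases h2 : w s = c
      · rw [if_neg h1, if_pos h2, h2, Equiv.swap_apply_left, zero_add]
      · rw [if_neg h1, if_neg h2, Equiv.swap_apply_of_ne_of_ne h2 h1, sub_self, add_zero]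
  have h2 := Finset.sum_congr (rfl : (Finset.univ : Finset (Fin m)) = _) fun s _ => h1 s
  rw [Finset.sum_sub_distrib, Finset.sum_add_distrib, ← Finset.sum_filter, ← Finset.sum_filter,
    Finset.sum_const, Finset.sum_const, nsmul_eq_mul, nsmul_eq_mul] at h2
  have h3 : (0 : ℤ) < ((b : ℕ) : ℤ) - (c : ℕ) := by
    have : (c : ℕ) < b := hcb
    omega
  have h4 : ((Finset.univ.filter fun s => w s = c).card : ℤ) <
    (Finset.univ.filter fun s => w s = b).card := by exact_mod_cast hlt
  have h5 : (0 : ℤ) < ∑ s, ((w s : ℕ) : ℤ) - ∑ s, (((Equiv.swap c b (w s) : Fin N) : ℕ) : ℤ) := by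
    rw [h2]
    nlinarith
  have h6 : ∑ s, (((Equiv.swap c b (w s) : Fin N) : ℕ) : ℤ) < ∑ s, ((w s : ℕ) : ℤ) := by linarith
  exact_mod_cast h6

/-- **a relation in few slots forces a form in one index** -/
theorem exists_good_low {h : IsProj R π δ} (hδ : δ = -2 * n) (hm : m < 6 * (n + 2))
    {f : Pol (Fin m)} (hf : f ∈ Rel h m) (hf0 : f ≠ 0) :
    ∃ x' ∈ KK h (m + 1), Good (fun c : Fin (m + 1) => if c = 0 then 0 else 0) x' ∨
      Good (fun c : Fin (m + 1) => if c = 0 then 2 * n + 2 else 0) x' := by
  classical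
  obtain ⟨w, hw, hmin⟩ := Finset.exists_min_image
    (Finset.univ.filter fun w : Fin m → Fin (m + 1) => rn w f ≠ 0)
    (fun w => ∑ s, (w s : ℕ)) (by
      refine ⟨Fin.castSucc, Finset.mem_filter.2 ⟨Finset.mem_univ _, fun h1 => hf0 ?_⟩⟩
      exact (rename_injective _ (Sym2.map.injective (Fin.castSucc_injective m))) (by
        rw [map_zero]; exact h1))
  rw [Finset.mem_filter] at hw
  obtain ⟨-, hne⟩ := hw
  have hG : Good (fun b => (Finset.univ.filter fun s => w s = b).card) (rn w f) := by
    refine ⟨hne, fun b => HasWt.rn_one fun j _ => hf.1 j, fun a b hab => ?_⟩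
    rw [ee_rn w a b _ (fun j _ => hf.1 j)]
    refine Finset.sum_eq_zero fun j hj => ?_
    have hj : w j = b := (Finset.mem_filter.1 hj).2
    by_contra h1
    have h3 := hmin (Function.update w j a) (Finset.mem_filter.2 ⟨Finset.mem_univ _, h1⟩)
    have h4 : ∑ s, ((Function.update w j a s : Fin (m + 1)) : ℕ) < ∑ s, (w s : ℕ) := by
      refine Finset.sum_lt_sum (fun s _ => ?_) ⟨j, Finset.mem_univ _, ?_⟩
      · by_cases hs : s = j
        · subst hs
          rw [Function.update_self, hj]
          exact (Fin.lt_def.1 hab).le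
        · rw [Function.update_of_ne hs]
      · rw [Function.update_self, hj]
        exact hab
    omega
  have hdec : ∀ c b : Fin (m + 1), c < b → (Finset.univ.filter fun s => w s = b).card ≤
      (Finset.univ.filter fun s => w s = c).card := by
    intro c b hcb
    by_contra h1
    push Not at h1
    have h2 := swap_sum w hcb h1
    have h3 := hmin (Equiv.swap c b ∘ w) (Finset.mem_filter.2 ⟨Finset.mem_univ _, fun h4 => ?_⟩)
    · simp only [Function.comp_apply] at h3
      omega
    · apply hne
      have h5 := congrArg (rn (Equiv.swap c b)) h4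
      rw [rn_rn, map_zero] at h5
      have h6 : (⇑(Equiv.swap c b) ∘ ⇑(Equiv.swap c b) ∘ w) = w := by
        ext1 s
        simp
      rwa [h6] at h5
  obtain ⟨x', hx', hG'⟩ := strip_all (mem_KK w hf) hG (by
    intro b hb t ht1 ht2 ht3 h1
    rw [hδ] at h1
    have h2 : t = 2 * n + b + 2 := by
      have : (t : ℚ) = ((2 * n + b + 2 : ℕ) : ℚ) := by
        push_cast
        linarith
      exact_mod_cast this
    have hb0 : (b : ℕ) ≠ 0 := fun h => hb (Fin.ext h)
    by_cases hb1 : (b : ℕ) = 1
    · rw [hb1] at h2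
      obtain ⟨r, hr⟩ := ht3
      omega
    · have hb2 : 2 ≤ (b : ℕ) := by omega
      have hbm := b.2
      have l0 : (⟨0, by omega⟩ : Fin (m + 1)) < b := Fin.lt_def.2 (show 0 < (b : ℕ) by omega)
      have l1 : (⟨1, by omega⟩ : Fin (m + 1)) < b := Fin.lt_def.2 (show 1 < (b : ℕ) by omega)
      have h3 := hdec _ _ l0
      have h4 := hdec _ _ l1
      have h5 : (Finset.univ.filter fun s => w s = (⟨0, by omega⟩ : Fin (m + 1))).card +
          (Finset.univ.filter fun s => w s = (⟨1, by omega⟩ : Fin (m + 1))).card +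
          (Finset.univ.filter fun s => w s = b).card ≤ m := by
        have e1 : Disjoint (Finset.univ.filter fun s => w s = (⟨0, by omega⟩ : Fin (m + 1)))
            (Finset.univ.filter fun s => w s = (⟨1, by omega⟩ : Fin (m + 1))) := by
          rw [Finset.disjoint_left]
          intro s hs hs'
          have h6 := (Finset.mem_filter.1 hs).2.symm.trans (Finset.mem_filter.1 hs').2
          simp at h6
        rw [← Finset.card_union_of_disjoint e1, ← Finset.card_union_of_disjoint]
        · refine (Finset.card_le_univ _).trans ?_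
          rw [Fintype.card_fin]
        · rw [Finset.disjoint_left]
          intro s hs hs'
          have h7 := (Finset.mem_filter.1 hs').2
          rcases Finset.mem_union.1 hs with h8 | h8
          · have h6 := (Finset.mem_filter.1 h8).2.symm.trans h7
            rw [← h6] at hb2
            simp at hb2
          · have h6 := (Finset.mem_filter.1 h8).2.symm.trans h7
            rw [← h6] at hb2
            simp at hb2
      omega)
  exact strip_zero n hδ _ x' hx' hG'

/-- **no relations in few slots** -/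
theorem low_rel {h : IsProj R π 0} (hπ : π ≠ 0) (hm : m < 12) {f : Pol (Fin m)}
    (hf : f ∈ Rel h m) : f = 0 := by
  by_contra hf0
  obtain ⟨x, hx, h1 | h1⟩ := exists_good_low (n := 0) (h := h) (by simp) (by omega) hf hf0
  · exact (never_ends hπ m x hx).1 h1
  · exact (never_ends hπ m x hx).2 h1

/-- the partitions of the factors into pairs: the involutions without fixed points -/
def Matching (m : ℕ) : Type := {τ : Equiv.Perm (Fin m) // ∀ s, τ (τ s) = s ∧ τ s ≠ s}

noncomputable instance (m : ℕ) : Fintype (Matching m) := by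
  classical
  exact inferInstanceAs (Fintype {τ : Equiv.Perm (Fin m) // ∀ s, τ (τ s) = s ∧ τ s ≠ s})

/-- the product of the pull-backs of `π` under the projections to the pairs of factors -/
noncomputable def mprod (π : R.A 2) (τ : Matching m) : R.A m :=
  ∏ s ∈ Finset.univ.filter (fun s => s < τ.1 s), R.pull ![s, τ.1 s] π

/-- the monomial -/
noncomputable def mexp (τ : Matching m) : Sym2 (Fin m) →₀ ℕ :=
  ∑ s ∈ Finset.univ.filter (fun s => s < τ.1 s), Finsupp.single s(s, τ.1 s) 1

lemma mexp_eq (τ : Matching m) : monomial (mexp τ) (1 : ℚ) =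
    ∏ s ∈ Finset.univ.filter (fun s => s < τ.1 s), X s(s, τ.1 s) := by
  rw [mexp, monomial_sum_one]
  rfl

lemma mexp_wt (τ : Matching m) (j : Fin m) : HasWt j (monomial (mexp τ) (1 : ℚ)) 1 := by
  rw [mexp_eq]
  have h1 : HasWt j (∏ s ∈ Finset.univ.filter (fun s => s < τ.1 s), (X s(s, τ.1 s) : Pol (Fin m)))
      (∑ s ∈ Finset.univ.filter (fun s => s < τ.1 s), wt j s(s, τ.1 s)) :=
    IsWeightedHomogeneous.prod _ _ _ fun i _ => isWeightedHomogeneous_X ..
  convert h1 using 1
  simp only [wt_mk]
  rw [Finset.sum_add_distrib, Finset.sum_ite_eq']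
  have h2 : ∀ s, (if τ.1 s = j then 1 else 0) = (if s = τ.1 j then 1 else 0) := by
    intro s
    have : τ.1 s = j ↔ s = τ.1 j := by
      constructor
      · rintro rfl
        exact (τ.2 s).1.symm
      · rintro rfl
        exact (τ.2 j).1
    simp only [this]
  simp only [h2]
  rw [Finset.sum_ite_eq']
  simp only [Finset.mem_filter, Finset.mem_univ, true_and, (τ.2 j).1]
  rcases lt_trichotomy j (τ.1 j) with h3 | h3 | h3
  · simp [h3, not_lt.2 h3.le]
  · exact absurd h3.symm (τ.2 j).2
  · simp [h3, not_lt.2 h3.le]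

lemma mexp_injective : Function.Injective (mexp : Matching m → _) := by
  intro τ τ' hττ
  have hmem : ∀ (τ : Matching m) (p : Sym2 (Fin m)), mexp τ p ≠ 0 ↔
      ∃ s, s < τ.1 s ∧ s(s, τ.1 s) = p := by
    intro τ p
    rw [mexp, Finsupp.finsetSum_apply, Ne, Finset.sum_eq_zero_iff]
    push Not
    constructor
    · rintro ⟨s, hs, h1⟩
      refine ⟨s, (Finset.mem_filter.1 hs).2, ?_⟩
      by_contra h2
      exact h1 (Finsupp.single_eq_of_ne' h2)
    · rintro ⟨s, hs, rfl⟩
      exact ⟨s, Finset.mem_filter.2 ⟨Finset.mem_univ _, hs⟩, by simp⟩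
  have key : ∀ s, s < τ.1 s → τ'.1 s = τ.1 s := by
    intro s hs
    have h1 : mexp τ s(s, τ.1 s) ≠ 0 := (hmem _ _).2 ⟨s, hs, rfl⟩
    rw [hττ] at h1
    obtain ⟨t, ht, h2⟩ := (hmem _ _).1 h1
    rw [Sym2.eq_iff] at h2
    rcases h2 with ⟨rfl, h2⟩ | ⟨h2, h3⟩
    · exact h2
    · rw [h3, h2] at ht
      exact absurd ht (not_lt.2 hs.le)
  apply Subtype.ext
  ext1 s
  rcases lt_trichotomy s (τ.1 s) with h | h | h
  · exact (key s h).symm
  · exact absurd h.symm (τ.2 s).2
  · have h1 := key (τ.1 s) (by rw [(τ.2 s).1]; exact h)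
    rw [(τ.2 s).1] at h1
    have h2 := (τ'.2 (τ.1 s)).1
    rw [h1] at h2
    exact h2.symm

/-- the products of pairs are independent if there are no relations -/
theorem matchings_indep_of (h : IsProj R π δ) (hl : ∀ f ∈ Rel h m, f = 0) :
    LinearIndependent ℚ (fun τ : Matching m => mprod π τ) := by
  rw [Fintype.linearIndependent_iff]
  intro c hc τ
  have h1 : ∑ τ, c τ • monomial (mexp τ) (1 : ℚ) ∈ Rel h m := by
    refine ⟨fun j => HasWt.sum fun τ _ => HasWt.smul (mexp_wt τ j) _, ?_⟩
    rw [map_sum, ← hc]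
    refine Finset.sum_congr rfl fun τ _ => ?_
    rw [map_smul, mexp_eq, map_prod, mprod]
    congr 1
    exact Finset.prod_congr rfl fun s _ => h.ev_X _ _
  have h2 := congrArg (coeff (mexp τ)) (hl _ h1)
  rw [coeff_sum, coeff_zero, Finset.sum_eq_single τ] at h2
  · simpa using h2
  · intro τ' _ hτ
    rw [coeff_smul, coeff_monomial, if_neg (fun h3 => hτ (mexp_injective h3)), smul_zero]
  · simp

/-- **the products of pairs are independent** -/
theorem matchings_indep (h : IsProj R π 0) (hπ : π ≠ 0) (hm : m < 12) :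
    LinearIndependent ℚ (fun τ : Matching m => mprod π τ) :=
  matchings_indep_of h fun _ hf => low_rel hπ hm hf

end Pool.Agent.Run7.h570.GAP
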