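import Pool.Agent.Run7.h570.GAP.Hook

set_option autoImplicit false
set_option linter.unusedSectionVars false

/-!
# The gap theorem
-/

open MvPolynomial

universe u

namespace Pool.Agent.Run7.h570.GAP

variable {R : PowerRings.{u}} {b : ℕ} {a : Fin b → R.A 1} {G : Matrix (Fin b) (Fin b) ℚ}

open Classical in
/-- `c` is a relation between the permutations of the factors of the `k`-th tensor power of the
super vector space `ℚ^(2|2)`. -/
def SuperRelation {k : ℕ} (c : Equiv.Perm (Fin k) → ℚ) : Prop :=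
  ∀ (r : Fin k → Bool × Bool) (σ : Equiv.Perm (Fin k)),
    ∑ g : Equiv.Perm (Fin k) with ∀ j, r (g j) = r j ∧ ((r j).1 = true → g j = j),
      ∑ g' : Equiv.Perm (Fin k) with ∀ j, r (g' j) = r j ∧ ((r j).1 = false → g' j = j),
        ((Equiv.Perm.sign g' : ℤ) : ℚ) * c (g * g' * σ) = 0

/-- the letters -/
def toLet (x : Bool × Bool) : Let 0 := (if x.1 = true then some 0 else none, x.2)

lemma toLet_inj {x y : Bool × Bool} (h : toLet x = toLet y) : x = y := by
  obtain ⟨x1, x2⟩ := x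
  obtain ⟨y1, y2⟩ := y
  simp only [toLet, Prod.mk.injEq] at h
  obtain ⟨h1, h2⟩ := h
  subst h2
  rcases x1 with _ | _ <;> rcases y1 with _ | _ <;> simp at h1 ⊢

lemma toLet_none (x : Bool × Bool) : (toLet x).1 = none ↔ x.1 = false := by
  rcases hx : x.1 with _ | _ <;> simp [toLet, hx]

theorem Tate.super (h : Tate R a G) (hπ : tr R a G ≠ 0) {k : ℕ} {c : Equiv.Perm (Fin k) → ℚ}
    (hc : ∑ σ, c σ • ∏ i, R.pull ![Fin.castAdd k i, Fin.natAdd k (σ i)] (tr R a G) = 0) :
    SuperRelation c := by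
  classical
  intro r σ
  have h1 : Phi h.isProj k c = 0 := by
    rw [Phi_apply, map_sum, ← hc]
    refine Finset.sum_congr rfl fun τ _ => ?_
    rw [map_smul, xs, map_prod]
    congr 1
    exact Finset.prod_congr rfl fun i _ => h.isProj.ev_X _ _
  have h2 := hook (n := 0) (h := h.isProj) (by simp) (never_ends hπ) (Phi_ker h.isProj h1)
    (fun j => toLet (r j)) σ
  have e1 : evenPerms (fun j => toLet (r j)) =
      Finset.univ.filter fun g : Equiv.Perm (Fin k) =>
        ∀ j, r (g j) = r j ∧ ((r j).1 = true → g j = j) := by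
    ext g
    rw [mem_evenPerms, Finset.mem_filter, ← forall_and]
    refine ⟨fun hg => ⟨Finset.mem_univ _, fun j => ⟨toLet_inj (hg j).1, fun hj => (hg j).2 ?_⟩⟩,
      fun hg j => ⟨congrArg toLet (hg.2 j).1, fun hj => (hg.2 j).2 ?_⟩⟩
    · rw [Ne, toLet_none, hj]
      simp
    · rw [Ne, toLet_none] at hj
      simpa using hj
  have e2 : oddPerms (fun j => toLet (r j)) =
      Finset.univ.filter fun g : Equiv.Perm (Fin k) =>
        ∀ j, r (g j) = r j ∧ ((r j).1 = false → g j = j) := by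
    ext g
    rw [mem_oddPerms, Finset.mem_filter, ← forall_and]
    refine ⟨fun hg => ⟨Finset.mem_univ _, fun j => ⟨toLet_inj (hg j).1, fun hj => (hg j).2 ?_⟩⟩,
      fun hg j => ⟨congrArg toLet (hg.2 j).1, fun hj => (hg.2 j).2 ?_⟩⟩
    · rw [toLet_none, hj]
    · rw [toLet_none] at hj
      exact hj
  rw [e1, e2] at h2
  exact h2

/-- **The gap theorem.** -/
theorem Tate.gap (h : Tate R a G) :
    (tr R a G = 0 → ∀ (n N : ℕ) (v : Fin N → R.A n), (∀ j, IsProduct R a n (v j)) →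
      LinearIndependent ℚ v → N ≤ b ^ n) ∧
    (tr R a G ≠ 0 →
      (∀ n : ℕ, ∃ (N : ℕ) (v : Fin N → R.A n), (∀ j, IsProduct R a n (v j)) ∧
        LinearIndependent ℚ v ∧
        ((b : ℤ) + 4) ^ n + ((b : ℤ) - 4) ^ n ≤ 2 * ((n / 2 + 15).choose 15 : ℕ) * N) ∧
      (∀ (k : ℕ) (c : Equiv.Perm (Fin k) → ℚ),
        ∑ σ, c σ • ∏ i, R.pull ![Fin.castAdd k i, Fin.natAdd k (σ i)] (tr R a G) = 0 →
          SuperRelation c) ∧
      (∀ m < 12, LinearIndependent ℚ (fun τ : Matching m => mprod (tr R a G) τ))) := by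
  refine ⟨fun hπ n N v hv hi => Tate.small_card hπ v hv hi, fun hπ => ⟨fun n => ?_, fun k c hc =>
    h.super hπ hc, fun m hm => matchings_indep h.isProj hπ hm⟩⟩
  obtain ⟨N, hN, hb⟩ := h.growth hπ n
  obtain ⟨v, hv, hi⟩ := exists_indep _ hN
  exact ⟨N, v, hv, hi, hb⟩

end Pool.Agent.Run7.h570.GAP
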