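import Pool.Agent.Run7.h570.GAP.Main
import Pool.Agent.Run7.h570.GAP.Homog

set_option autoImplicit false
set_option linter.unusedSectionVars false

/-!
# Motives of negative even dimension
-/

open MvPolynomial

universe u

namespace Pool.Agent.Run7.h570.GAP

variable {R : PowerRings.{u}} {π : R.A 2} {δ : ℚ} {n : ℕ}

/-- The sum over all partitions of `2 k` factors into pairs (each of them counted `2 ^ k * k!` times)
of the products of the pull-backs of `π` is zero. -/
def HafZero (π : R.A 2) (k : ℕ) : Prop :=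
  ∑ τ : Equiv.Perm (Fin (k + k)), ∏ i, R.pull ![τ (Fin.castAdd k i), τ (Fin.natAdd k i)] π = 0

/-- The `N`-th symmetric power of the motive defined by `π` is zero. -/
def SymZero (π : R.A 2) (N : ℕ) : Prop :=
  ∑ σ : Equiv.Perm (Fin N), ∏ i, R.pull ![Fin.castAdd N i, Fin.natAdd N (σ i)] π = 0

/-- one of the stripped relations exists -/
def Tight (h : IsProj R π δ) (n : ℕ) : Prop :=
  ∃ (N : ℕ), ∃ x' ∈ KK h (N + 1), Good (fun c : Fin (N + 1) => if c = 0 then 0 else 0) x' ∨
    Good (fun c : Fin (N + 1) => if c = 0 then 2 * n + 2 else 0) x'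

lemma not_tight {h : IsProj R π δ} (ht : ¬ Tight h n) : ∀ (N : ℕ), ∀ x' ∈ KK h (N + 1),
    ¬ Good (fun c : Fin (N + 1) => if c = 0 then 0 else 0) x' ∧
      ¬ Good (fun c : Fin (N + 1) => if c = 0 then 2 * n + 2 else 0) x' :=
  fun N x hx => ⟨fun hG => ht ⟨N, x, hx, Or.inl hG⟩, fun hG => ht ⟨N, x, hx, Or.inr hG⟩⟩

lemma Tight.pow {h : IsProj R π δ} (ht : Tight h n) :
    ∃ N : ℕ, (X s(0, 0) : Pol (Fin (N + 1))) ^ (n + 1) ∈ KK h (N + 1) := by
  obtain ⟨N, x, hx, hG | hG⟩ := ht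
  · obtain ⟨r, hr, q, hq, rfl⟩ := hG.eq_pow
    have hr0 : r = 0 := by omega
    subst hr0
    refine ⟨N, ?_⟩
    have h1 := Submodule.smul_mem _ q⁻¹ hx
    rw [smul_smul, inv_mul_cancel₀ hq, one_smul, pow_zero] at h1
    have h2 := KK.mul_mem ((X s(0, 0) : Pol (Fin (N + 1))) ^ (n + 1)) h1
    rwa [mul_one] at h2
  · obtain ⟨r, hr, q, hq, rfl⟩ := hG.eq_pow
    have hr0 : r = n + 1 := by omega
    subst hr0
    refine ⟨N, ?_⟩
    have h1 := Submodule.smul_mem _ q⁻¹ hx
    rwa [smul_smul, inv_mul_cancel₀ hq, one_smul] at h1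

lemma ev_rn_xs (h : IsProj R π δ) {k : ℕ} (τ : Equiv.Perm (Fin (k + k))) :
    h.ev (k + k) (rn τ (xs 1)) =
      ∏ i, R.pull ![τ (Fin.castAdd k i), τ (Fin.natAdd k i)] π := by
  rw [xs, map_prod, map_prod]
  refine Finset.prod_congr rfl fun i _ => ?_
  rw [rn_X, h.ev_X]
  rfl

lemma haf_mem_iff (h : IsProj R π δ) (k : ℕ) :
    HafZero π k ↔ ∑ τ : Equiv.Perm (Fin (k + k)), rn τ (xs 1) ∈ Rel h (k + k) := by
  rw [HafZero]
  have h1 : h.ev (k + k) (∑ τ : Equiv.Perm (Fin (k + k)), rn τ (xs 1)) =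
      ∑ τ : Equiv.Perm (Fin (k + k)), ∏ i, R.pull ![τ (Fin.castAdd k i), τ (Fin.natAdd k i)] π := by
    rw [map_sum]
    exact Finset.sum_congr rfl fun τ _ => ev_rn_xs h τ
  rw [← h1]
  exact ⟨fun h2 => ⟨fun j => HasWt.sum fun τ _ => (xs_multi 1).equiv τ j, h2⟩, fun h2 => h2.2⟩

lemma rn_const_xs {k N : ℕ} (j : Fin N) :
    rn (fun _ : Fin (k + k) => j) (xs 1) = (X s(j, j) : Pol (Fin N)) ^ k := by
  rw [xs, map_prod]
  simp

/-- the power of the first variable gives the relation between all pairings -/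
lemma haf_of_pow {h : IsProj R π δ} {k N : ℕ}
    (hx : (X s(0, 0) : Pol (Fin (N + 1))) ^ k ∈ KK h (N + 1)) : HafZero π k := by
  classical
  obtain ⟨F, hF, hF'⟩ := KK.extract (fun _ : Fin (k + k) => (0 : Fin (N + 1))) hx (by
    intro j
    have h1 : HasWt j ((X s(0, 0) : Pol (Fin (N + 1))) ^ k) (k • wt j s(0, 0)) :=
      (HasWt.X j 0 0).pow k
    convert h1 using 1
    by_cases hj : (0 : Fin (N + 1)) = j
    · subst hj
      simp
      omega
    · simp [hj])
  have h1 : sy (fun _ : Fin (k + k) => (0 : Fin (N + 1))) (F - xs 1) = 0 :=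
    sy_eq_zero _ (fun j => (hF.1 j).sub (xs_multi 1 j)) (by
      rw [map_sub, hF', rn_const_xs, sub_self])
  rw [sy_sub, sub_eq_zero] at h1
  have h2 : sy (fun _ : Fin (k + k) => (0 : Fin (N + 1))) F ∈ Rel h (k + k) :=
    Submodule.sum_mem _ fun τ _ => Rel.equiv hF τ
  have h3 : ∀ τ : Equiv.Perm (Fin (k + k)), (fun _ : Fin (k + k) => (0 : Fin (N + 1))) ∘ τ =
      fun _ => 0 := fun τ => rfl
  rw [h1, sy] at h2
  simp only [h3, Finset.filter_true] at h2
  exact (haf_mem_iff h k).2 h2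

/-- the relation between all pairings gives the power of a variable -/
lemma pow_of_haf {h : IsProj R π δ} {k N : ℕ} (hx : HafZero π k) :
    (X s(0, 0) : Pol (Fin (N + 1))) ^ k ∈ KK h (N + 1) := by
  have h1 := mem_KK (fun _ : Fin (k + k) => (0 : Fin (N + 1))) ((haf_mem_iff h k).1 hx)
  rw [map_sum] at h1
  have h2 : ∀ τ : Equiv.Perm (Fin (k + k)), rn (fun _ : Fin (k + k) => (0 : Fin (N + 1)))
      (rn τ (xs 1)) = (X s(0, 0) : Pol (Fin (N + 1))) ^ k := by
    intro τ
    rw [rn_rn, ← rn_const_xs]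
    rfl
  rw [Finset.sum_congr rfl fun τ _ => h2 τ, Finset.sum_const, ← Nat.cast_smul_eq_nsmul ℚ] at h1
  have h3 : ((Finset.univ : Finset (Equiv.Perm (Fin (k + k)))).card : ℚ) ≠ 0 := by
    rw [Finset.card_univ]
    exact Nat.cast_ne_zero.2 Fintype.card_ne_zero
  have h4 := Submodule.smul_mem _ ((Finset.univ : Finset (Equiv.Perm (Fin (k + k)))).card : ℚ)⁻¹ h1
  rwa [smul_smul, inv_mul_cancel₀ h3, one_smul] at h4

theorem tight_iff {h : IsProj R π δ} : Tight h n ↔ HafZero π (n + 1) := by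
  constructor
  · intro ht
    obtain ⟨N, hN⟩ := ht.pow
    exact haf_of_pow hN
  · intro hx
    refine ⟨0, _, pow_of_haf (h := h) (N := 0) hx, Or.inr ⟨pow_ne_zero _ (X_ne_zero _), ?_, ?_⟩⟩
    · intro j
      have hj : j = 0 := Fin.fin_one_eq_zero j
      subst hj
      have h1 : HasWt (0 : Fin 1) ((X s(0, 0) : Pol (Fin (0 + 1))) ^ (n + 1))
        ((n + 1) • wt 0 s(0, 0)) := (HasWt.X 0 0 0).pow (n + 1)
      convert h1 using 1
      simp
      omega
    · intro a b hab
      omega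

/-- the odd powers of the mixed variable -/
lemma mixed_pow {h : IsProj R π δ}
    (hx : (X s(0, 0) : Pol (Fin 2)) ^ (n + 1) ∈ KK h 2) :
    (X s(0, 1) : Pol (Fin 2)) ^ (2 * n + 1) ∈ KK h 2 := by
  have e1 : ee (1 : Fin 2) 0 (X s(0, 0)) = 2 * X s(0, 1) := by
    rw [ee_X, if_pos rfl, if_pos rfl, Sym2.eq_swap (a := (1 : Fin 2)), two_mul]
  have e2 : ee (1 : Fin 2) 0 (X s(0, 1)) = X s(1, 1) := by
    rw [ee_X, if_pos rfl, if_neg (by decide), add_zero]
  have hsm : ∀ (c : ℚ) (p : Pol (Fin 2)), c ≠ 0 → C c * p ∈ KK h 2 → p ∈ KK h 2 := by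
    intro c p hc hp
    have h1 := Submodule.smul_mem _ c⁻¹ hp
    rwa [C_mul', smul_smul, inv_mul_cancel₀ hc, one_smul] at h1
  have key : ∀ j k : ℕ, j + k = n →
      (X s(0, 1) : Pol (Fin 2)) ^ (2 * j + 1) * X s(0, 0) ^ k ∈ KK h 2 := by
    intro j
    induction j with
    | zero =>
      intro k hk
      have hk : k = n := by omega
      subst hk
      have h1 := KK.ee_mem (1 : Fin 2) 0 hx
      rw [Derivation.leibniz_pow, e1] at h1
      refine hsm (2 * (k + 1)) _ (by positivity) ?_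
      convert h1 using 1
      simp only [Nat.add_sub_cancel, smul_eq_mul, nsmul_eq_mul, map_mul, map_add, map_natCast,
        map_one, map_ofNat]
      push_cast
      ring
    | succ j ih =>
      intro k hk
      have h1 := ih (k + 1) (by omega)
      have h2 := KK.mul_mem (X s(0, 1)) (KK.ee_mem (1 : Fin 2) 0 h1)
      have h3 := KK.mul_mem (C ((2 * j + 1 : ℕ) : ℚ) * X s(1, 1)) h1
      have h4 := Submodule.sub_mem _ h2 h3
      rw [Derivation.leibniz, Derivation.leibniz_pow, Derivation.leibniz_pow, e1, e2] at h4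
      refine hsm (2 * (k + 1)) _ (by positivity) ?_
      convert h4 using 1
      simp only [Nat.add_sub_cancel, smul_eq_mul, nsmul_eq_mul, map_mul, map_add, map_natCast,
        map_one, map_ofNat]
      push_cast
      ring
  have h1 := key n 0 (by omega)
  rwa [pow_zero, mul_one] at h1

/-- the two groups of factors -/
def two (N : ℕ) : Fin (N + N) → Fin 2 := Fin.append (fun _ => 0) (fun _ => 1)

lemma two_lf {N : ℕ} (i : Fin N) : two N (lf i) = 0 := Fin.append_left ..

lemma two_rt {N : ℕ} (i : Fin N) : two N (rt i) = 1 := Fin.append_right ..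

lemma rn_two_xs {N : ℕ} (σ : Equiv.Perm (Fin N)) :
    rn (two N) (xs σ) = (X s(0, 1) : Pol (Fin 2)) ^ N := by
  rw [xs, map_prod]
  simp only [rn_X, two_lf, two_rt]
  simp

/-- a permutation of the left and a permutation of the right slots -/
def bi {N : ℕ} (α β : Equiv.Perm (Fin N)) : Equiv.Perm (Fin (N + N)) :=
  finSumFinEquiv.permCongr (Equiv.Perm.sumCongr α β)

lemma bi_lf {N : ℕ} (α β : Equiv.Perm (Fin N)) (i : Fin N) : bi α β (lf i) = lf (α i) := by
  change finSumFinEquiv.permCongr (Equiv.Perm.sumCongr α β) (finSumFinEquiv (Sum.inl i)) =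
    finSumFinEquiv (Sum.inl (α i))
  rw [Equiv.permCongr_apply, Equiv.symm_apply_apply]
  rfl

lemma bi_rt {N : ℕ} (α β : Equiv.Perm (Fin N)) (i : Fin N) : bi α β (rt i) = rt (β i) := by
  change finSumFinEquiv.permCongr (Equiv.Perm.sumCongr α β) (finSumFinEquiv (Sum.inr i)) =
    finSumFinEquiv (Sum.inr (β i))
  rw [Equiv.permCongr_apply, Equiv.symm_apply_apply]
  rfl

lemma exists_bi {N : ℕ} {τ : Equiv.Perm (Fin (N + N))} (hτ : two N ∘ τ = two N) :
    ∃ α β, bi α β = τ := by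
  have h1 : finSumFinEquiv.symm.permCongr τ ∈ (Equiv.Perm.sumCongrHom (Fin N) (Fin N)).range := by
    refine Equiv.Perm.mem_sumCongrHom_range_of_perm_mapsTo_inl ?_
    rintro _ ⟨i, rfl⟩
    have h2 := congrFun hτ (lf i)
    rw [Function.comp_apply, two_lf] at h2
    rw [Equiv.permCongr_apply, Equiv.symm_symm]
    change finSumFinEquiv.symm (τ (lf i)) ∈ Set.range Sum.inl
    generalize τ (lf i) = s at h2
    induction s using slot_cases with
    | hl j =>
      refine ⟨j, ?_⟩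
      rw [eq_comm, Equiv.symm_apply_eq]
      rfl
    | hr j =>
      rw [two_rt] at h2
      exact absurd h2 (by decide)
  obtain ⟨⟨α, β⟩, h2⟩ := h1
  refine ⟨α, β, ?_⟩
  rw [bi]
  have h3 : Equiv.Perm.sumCongr α β = finSumFinEquiv.symm.permCongr τ := h2
  rw [h3]
  ext1 s
  simp [Equiv.permCongr_apply]

lemma two_bi {N : ℕ} (α β : Equiv.Perm (Fin N)) : two N ∘ bi α β = two N := by
  ext1 s
  rw [Function.comp_apply]
  induction s using slot_cases with
  | hl i => rw [bi_lf, two_lf, two_lf]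
  | hr i => rw [bi_rt, two_rt, two_rt]

lemma rn_bi_xs {N : ℕ} (α β : Equiv.Perm (Fin N)) : rn (bi α β) (xs 1) = xs (β * α⁻¹) := by
  rw [xs, xs, map_prod]
  conv_rhs => rw [← Equiv.prod_comp α]
  refine Finset.prod_congr rfl fun i _ => ?_
  rw [rn_X, bi_lf, bi_rt]
  simp

/-- the permanent -/
lemma sy_two {N : ℕ} : sy (two N) (xs 1) = (N.factorial : ℚ) • ∑ σ : Equiv.Perm (Fin N), xs σ := by
  classical
  have h1 : sy (two N) (xs 1) = ∑ x : Equiv.Perm (Fin N) × Equiv.Perm (Fin N),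
      rn (bi x.1 x.2) (xs 1) := by
    rw [sy]
    symm
    refine Finset.sum_bij (fun x _ => bi x.1 x.2) ?_ ?_ ?_ ?_
    · intro x _
      exact Finset.mem_filter.2 ⟨Finset.mem_univ _, two_bi _ _⟩
    · rintro ⟨α, β⟩ _ ⟨α', β'⟩ _ hxy
      refine Prod.ext ?_ ?_
      · ext1 i
        have := congrArg (fun e : Equiv.Perm (Fin (N + N)) => e (lf i)) hxy
        simp only [bi_lf] at this
        exact lf_inj this
      · ext1 i
        have := congrArg (fun e : Equiv.Perm (Fin (N + N)) => e (rt i)) hxy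
        simp only [bi_rt] at this
        exact rt_inj this
    · intro τ hτ
      obtain ⟨α, β, h2⟩ := exists_bi (Finset.mem_filter.1 hτ).2
      exact ⟨(α, β), Finset.mem_univ _, h2⟩
    · intro x _
      rfl
  rw [h1, Fintype.sum_prod_type]
  have h2 : ∀ α : Equiv.Perm (Fin N), ∑ β : Equiv.Perm (Fin N), rn (bi α β) (xs 1) =
      ∑ σ : Equiv.Perm (Fin N), xs σ := by
    intro α
    simp only [rn_bi_xs]
    exact Equiv.sum_comp (Equiv.mulRight α⁻¹) xs
  rw [Finset.sum_congr rfl fun α _ => h2 α, Finset.sum_const, Finset.card_univ,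
    Fintype.card_perm, Fintype.card_fin, ← Nat.cast_smul_eq_nsmul ℚ]

lemma sym_iff (h : IsProj R π δ) (N : ℕ) :
    SymZero π N ↔ ∑ σ : Equiv.Perm (Fin N), xs σ ∈ Rel h (N + N) := by
  have h1 : h.ev (N + N) (∑ σ : Equiv.Perm (Fin N), xs σ) =
      ∑ σ : Equiv.Perm (Fin N), ∏ i, R.pull ![Fin.castAdd N i, Fin.natAdd N (σ i)] π := by
    rw [map_sum]
    refine Finset.sum_congr rfl fun σ _ => ?_
    rw [xs, map_prod]
    exact Finset.prod_congr rfl fun i _ => h.ev_X _ _
  rw [SymZero, ← h1]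
  exact ⟨fun h2 => ⟨fun j => HasWt.sum fun τ _ => xs_multi τ j, h2⟩, fun h2 => h2.2⟩

/-- the power of the mixed variable gives the permanent -/
lemma sym_of_pow {h : IsProj R π δ} {N : ℕ} (hx : (X s(0, 1) : Pol (Fin 2)) ^ N ∈ KK h 2) :
    SymZero π N := by
  classical
  obtain ⟨F, hF, hF'⟩ := KK.extract (two N) hx (by
    intro j
    have h1 := HasWt.rn_one (w := two N) (b := j) (f := xs (1 : Equiv.Perm (Fin N)))
      (fun s _ => xs_multi 1 s)
    rwa [rn_two_xs] at h1)
  have h1 : sy (two N) (F - xs 1) = 0 :=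
    sy_eq_zero _ (fun j => (hF.1 j).sub (xs_multi 1 j)) (by
      rw [map_sub, hF', rn_two_xs, sub_self])
  rw [sy_sub, sub_eq_zero] at h1
  have h2 : sy (two N) F ∈ Rel h (N + N) :=
    Submodule.sum_mem _ fun τ _ => Rel.equiv hF τ
  rw [h1, sy_two] at h2
  have h3 : ((N.factorial : ℕ) : ℚ) ≠ 0 := Nat.cast_ne_zero.2 (Nat.factorial_ne_zero N)
  have h4 := Submodule.smul_mem _ ((N.factorial : ℕ) : ℚ)⁻¹ h2
  rw [smul_smul, inv_mul_cancel₀ h3, one_smul] at h4
  exact (sym_iff h N).2 h4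

/-- Kimura finiteness from the relation between all pairings -/
theorem sym_of_haf (h : IsProj R π δ) (hx : HafZero π (n + 1)) : SymZero π (2 * n + 1) :=
  sym_of_pow (mixed_pow (pow_of_haf (h := h) (N := 1) hx))

/-- the relation between all pairings from Kimura finiteness -/
theorem haf_of_sym {h : IsProj R π δ} (hδ : δ = -2 * n) {N : ℕ} (hx : SymZero π N) :
    HafZero π (n + 1) := by
  classical
  rw [← tight_iff (h := h)]
  by_contra ht
  have h1 := hook hδ (not_tight ht) (c := fun _ => 1) (k := N) (by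
    simpa using (sym_iff h N).1 hx) (fun _ => (none, false)) 1
  have h2 : oddPerms (fun _ : Fin N => ((none, false) : Let n)) = {1} := by
    ext g
    rw [mem_oddPerms, Finset.mem_singleton]
    constructor
    · rintro ⟨-, h3⟩
      ext1 j
      exact h3 j rfl
    · rintro rfl
      exact ⟨fun _ => rfl, fun _ _ => rfl⟩
  rw [h2] at h1
  simp only [Finset.sum_singleton, map_one, Units.val_one, Int.cast_one, mul_one,
    Finset.sum_const, nsmul_eq_mul] at h1
  have h3 : (evenPerms (fun _ : Fin N => ((none, false) : Let n))).card ≠ 0 := by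
    refine (Finset.card_pos.2 ⟨1, mem_evenPerms.2 ⟨fun _ => rfl, fun _ _ => rfl⟩⟩).ne'
  exact h3 (by exact_mod_cast h1)

end Pool.Agent.Run7.h570.GAP
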