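import Pool.Agent.Run7.h570.GAP.Odd

set_option autoImplicit false
set_option linter.unusedSectionVars false

/-!
# The gap theorem for motives of negative even dimension
-/

open MvPolynomial

universe u

namespace Pool.Agent.Run7.h570.GAP

variable {R : PowerRings.{u}} {π : R.A 2} {δ : ℚ} {n : ℕ}

/-- `c` is a relation between the permutations of the factors of the `k`-th tensor power of the
super vector space with the basis `α`, where `odd` tells the parity of the elements of the basis. -/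
def SuperRel {k : ℕ} {α : Type} [DecidableEq α] (odd : α → Bool) (c : Equiv.Perm (Fin k) → ℚ) : Prop :=
  ∀ (r : Fin k → α) (σ : Equiv.Perm (Fin k)),
    ∑ g : Equiv.Perm (Fin k) with ∀ j, r (g j) = r j ∧ (odd (r j) = true → g j = j),
      ∑ g' : Equiv.Perm (Fin k) with ∀ j, r (g' j) = r j ∧ (odd (r j) = false → g' j = j),
        ((Equiv.Perm.sign g' : ℤ) : ℚ) * c (g * g' * σ) = 0

/-- the letters -/
def finLet (n : ℕ) (x : Fin (2 * n + 4)) : Let n :=
  if h : 2 ≤ (x : ℕ) then (some ⟨(x - 2) / 2, by have := x.2; omega⟩, decide ((x : ℕ) % 2 = 1))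
  else (none, decide ((x : ℕ) % 2 = 1))

lemma finLet_none (x : Fin (2 * n + 4)) : (finLet n x).1 = none ↔ ¬ 2 ≤ (x : ℕ) := by
  rw [finLet]
  split_ifs with h
  · simp [h]
  · simp [h]

lemma finLet_inj {x y : Fin (2 * n + 4)} (h : finLet n x = finLet n y) : x = y := by
  have h1 : (2 ≤ (x : ℕ)) ↔ 2 ≤ (y : ℕ) := by
    rw [← not_iff_not, ← finLet_none, ← finLet_none, h]
  have h2 : (x : ℕ) % 2 = (y : ℕ) % 2 := by
    have h3 : (finLet n x).2 = (finLet n y).2 := by rw [h]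
    have h4 : ∀ x : Fin (2 * n + 4), (finLet n x).2 = decide ((x : ℕ) % 2 = 1) := by
      intro x
      rw [finLet]
      split_ifs <;> rfl
    rw [h4, h4, decide_eq_decide] at h3
    omega
  by_cases hx : 2 ≤ (x : ℕ)
  · have hy := h1.1 hx
    rw [finLet, finLet, dif_pos hx, dif_pos hy] at h
    have h3 := congrArg Prod.fst h
    simp only [Option.some.injEq, Fin.mk.injEq] at h3
    exact Fin.ext (by omega)
  · have hy : ¬ 2 ≤ (y : ℕ) := fun h3 => hx (h1.2 h3)
    exact Fin.ext (by omega)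

theorem superRel_of {h : IsProj R π δ} (hδ : δ = -2 * n) (ht : ¬ Tight h n) {k : ℕ}
    {c : Equiv.Perm (Fin k) → ℚ}
    (hc : ∑ σ, c σ • ∏ i, R.pull ![Fin.castAdd k i, Fin.natAdd k (σ i)] π = 0) :
    SuperRel (fun x : Fin (2 * n + 4) => decide (2 ≤ (x : ℕ))) c := by
  classical
  intro r σ
  have h1 : Phi h k c = 0 := by
    rw [Phi_apply, map_sum, ← hc]
    refine Finset.sum_congr rfl fun τ _ => ?_
    rw [map_smul, xs, map_prod]
    congr 1
    exact Finset.prod_congr rfl fun i _ => h.ev_X _ _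
  have h2 := hook hδ (not_tight ht) (Phi_ker h h1) (fun j => finLet n (r j)) σ
  refine Eq.trans (Finset.sum_congr ?_ fun g _ => Finset.sum_congr ?_ fun g' _ => rfl) h2
  · ext g
    rw [mem_evenPerms, Finset.mem_filter, ← forall_and]
    refine ⟨fun hg j => ⟨congrArg (finLet n) (hg.2 j).1, fun hj => (hg.2 j).2 ?_⟩,
      fun hg => ⟨Finset.mem_univ _, fun j => ⟨finLet_inj (hg j).1, fun hj => (hg j).2 ?_⟩⟩⟩
    · rw [Ne, finLet_none, not_not] at hj
      exact decide_eq_true hj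
    · rw [Ne, finLet_none, not_not]
      exact of_decide_eq_true hj
  · ext g
    rw [mem_oddPerms, Finset.mem_filter, ← forall_and]
    refine ⟨fun hg j => ⟨congrArg (finLet n) (hg.2 j).1, fun hj => (hg.2 j).2 ?_⟩,
      fun hg => ⟨Finset.mem_univ _, fun j => ⟨finLet_inj (hg j).1, fun hj => (hg j).2 ?_⟩⟩⟩
    · rw [finLet_none] at hj
      exact decide_eq_false hj
    · rw [finLet_none]
      exact of_decide_eq_false hj

theorem matchings_indep' {h : IsProj R π δ} (hδ : δ = -2 * n) (ht : ¬ Tight h n) {m : ℕ}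
    (hm : m < 6 * (n + 2)) : LinearIndependent ℚ (fun τ : Matching m => mprod π τ) := by
  refine matchings_indep_of h fun f hf => ?_
  by_contra hf0
  obtain ⟨x, hx, h1⟩ := exists_good_low hδ hm hf hf0
  exact ht ⟨m, x, hx, h1⟩

variable {b : ℕ} {a : Fin b → R.A 1} {G : Matrix (Fin b) (Fin b) ℚ}

lemma rk_bound' {hp : IsProj R (tr R a G) δ} (hδ : δ = -2 * n) (ht : ¬ Tight hp n) (m : ℕ) {j : ℕ}
    (hj : j ≤ m) : (((2 * n + 4 : ℕ) : ℤ) ^ j + (-((2 * n + 4 : ℕ) : ℤ)) ^ j) ≤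
      2 * ((m / 2 + (2 * n + 3) * (2 * n + 5)).choose ((2 * n + 3) * (2 * n + 5)) : ℕ) * rk hp j := by
  rcases Nat.even_or_odd j with he | ho
  · have h1 := rank_Phi hδ (not_tight ht) (j / 2)
    have h2 : rk hp j = Module.finrank ℚ (LinearMap.range (Phi hp (j / 2))) := if_pos he
    have hD : Fintype.card (Let n) = 2 * n + 4 := by
      simp [Let]
      ring
    rw [hD, ← h2, Nat.two_mul_div_two_of_even he] at h1
    have h3 : ((2 * n + 4) ^ 2).ascFactorial (j / 2) =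
        (j / 2).factorial * (j / 2 + (2 * n + 3) * (2 * n + 5)).choose ((2 * n + 3) * (2 * n + 5)) := by
      rw [show (2 * n + 4) ^ 2 = (2 * n + 3) * (2 * n + 5) + 1 by ring,
        Nat.ascFactorial_eq_factorial_mul_choose, Nat.add_comm _ (j / 2), Nat.choose_symm_add]
    have h4 : (j / 2 + (2 * n + 3) * (2 * n + 5)).choose ((2 * n + 3) * (2 * n + 5)) ≤
        (m / 2 + (2 * n + 3) * (2 * n + 5)).choose ((2 * n + 3) * (2 * n + 5)) :=
      Nat.choose_le_choose _ (by omega)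
    have h5 : (2 * n + 4) ^ j ≤
        rk hp j * (m / 2 + (2 * n + 3) * (2 * n + 5)).choose ((2 * n + 3) * (2 * n + 5)) := by
      refine le_trans ?_ (Nat.mul_le_mul_left _ h4)
      refine Nat.le_of_mul_le_mul_left ?_ (Nat.factorial_pos (j / 2))
      calc _ ≤ _ := h1
        _ = _ := by rw [h3]; ring
    have h6 : ((2 * n + 4 : ℕ) : ℤ) ^ j ≤ rk hp j *
        ((m / 2 + (2 * n + 3) * (2 * n + 5)).choose ((2 * n + 3) * (2 * n + 5)) : ℕ) := by
      exact_mod_cast h5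
    rw [he.neg_pow]
    linarith
  · rw [ho.neg_pow, add_neg_cancel]
    positivity

/-- the growth of the space of the products -/
theorem PreTate.growth' (h : PreTate R a G) {hp : IsProj R (tr R a G) δ} (hδ : δ = -2 * n)
    (ht : ¬ Tight hp n) (m : ℕ) : ∃ N : ℕ, (N : Cardinal.{u}) ≤ Module.rank ℚ (EE R a m) ∧
      ((b : ℤ) + (2 * n + 4 : ℕ)) ^ m + ((b : ℤ) - (2 * n + 4 : ℕ)) ^ m ≤
        2 * ((m / 2 + (2 * n + 3) * (2 * n + 5)).choose ((2 * n + 3) * (2 * n + 5)) : ℕ) * N := by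
  refine ⟨LL hp m 0, (h.LL_le hp m 0 m rfl).trans
    (Submodule.rank_mono fun y hy => hy.1), ?_⟩
  have h1 := LL_bound hp ((2 * n + 4 : ℕ) : ℤ) (fun j hj => rk_bound' hδ ht m hj) m 0 le_rfl
  simpa using h1

/-- **The gap theorem in dimension `- 2 n`.** -/
theorem PreTate.oddGap (h : PreTate R a G) (n : ℕ)
    (he : R.push (R.push (R.diag * R.diag)) = algebraMap ℚ (R.A 0) (b - 2 * n)) :
    [HafZero (tr R a G) (n + 1), SymZero (tr R a G) (2 * n + 1),
      ∃ N, SymZero (tr R a G) N].TFAE ∧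
    ((∀ N, ¬ SymZero (tr R a G) N) →
      (∀ m : ℕ, ∃ (N : ℕ) (v : Fin N → R.A m), (∀ j, IsProduct R a m (v j)) ∧
        LinearIndependent ℚ v ∧ ((b : ℤ) + (2 * n + 4 : ℕ)) ^ m + ((b : ℤ) - (2 * n + 4 : ℕ)) ^ m ≤
          2 * ((m / 2 + (2 * n + 3) * (2 * n + 5)).choose ((2 * n + 3) * (2 * n + 5)) : ℕ) * N) ∧
      (∀ (k : ℕ) (c : Equiv.Perm (Fin k) → ℚ),
        ∑ σ, c σ • ∏ i, R.pull ![Fin.castAdd k i, Fin.natAdd k (σ i)] (tr R a G) = 0 →
          SuperRel (fun x : Fin (2 * n + 4) => decide (2 ≤ (x : ℕ))) c) ∧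
      (∀ m < 6 * (n + 2), LinearIndependent ℚ (fun τ : Matching m => mprod (tr R a G) τ))) := by
  have hp : IsProj R (tr R a G) (-2 * n) := h.isProj (by rw [he]; congr 1; ring)
  refine ⟨?_, fun hN => ?_⟩
  · tfae_have 1 → 2 := fun h1 => sym_of_haf hp h1
    tfae_have 2 → 3 := fun h1 => ⟨_, h1⟩
    tfae_have 3 → 1 := fun ⟨N, h1⟩ => haf_of_sym (h := hp) rfl h1
    tfae_finish
  · have ht : ¬ Tight hp n := fun ht => hN _ (sym_of_haf hp (tight_iff.1 ht))
    refine ⟨fun m => ?_, fun k c hc => superRel_of rfl ht hc, fun m hm => matchings_indep' rfl ht hm⟩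
    obtain ⟨N, hN, hb⟩ := h.growth' rfl ht m
    obtain ⟨v, hv, hi⟩ := exists_indep _ hN
    exact ⟨N, v, hv, hi, hb⟩

end Pool.Agent.Run7.h570.GAP
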