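import Pool.Agent.Run7.h570.GAP.Words

set_option autoImplicit false
set_option linter.unusedSectionVars false

/-!
# Permutations and pairs of words
-/

open MvPolynomial

universe u

namespace Pool.Agent.Run7.h570.GAP

variable {R : PowerRings.{u}} {π : R.A 2} {δ : ℚ} {n k : ℕ}

/-- the dual letter -/
def dual (a : Let n) : Let n := (a.1, !a.2)

lemma dual_dual (a : Let n) : dual (dual a) = a := by
  simp [dual]

lemma dual_inj {a b : Let n} (h : dual a = dual b) : a = b := by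
  rw [← dual_dual a, h, dual_dual]

/-- left slots -/
def lf (i : Fin k) : Fin (k + k) := Fin.castAdd k i

/-- right slots -/
def rt (j : Fin k) : Fin (k + k) := Fin.natAdd k j

lemma lf_inj {i j : Fin k} (h : lf i = lf j) : i = j := Fin.castAdd_injective _ _ h

lemma rt_inj {i j : Fin k} (h : rt i = rt j) : i = j := Fin.natAdd_injective _ _ h

lemma lf_ne_rt (i j : Fin k) : lf i ≠ rt j := by
  intro h
  have := congrArg Fin.val h
  simp [lf, rt] at this
  omega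

lemma slot_cases {motive : Fin (k + k) → Prop} (hl : ∀ i, motive (lf i)) (hr : ∀ j, motive (rt j))
    (s : Fin (k + k)) : motive s := Fin.addCases hl hr s

/-- the product of the pairs of a permutation -/
noncomputable def xs (σ : Equiv.Perm (Fin k)) : Pol (Fin (k + k)) :=
  ∏ i, X s(lf i, rt (σ i))

/-- the exponents -/
noncomputable def ex {N : ℕ} (w : Fin (k + k) → Fin N) (σ : Equiv.Perm (Fin k)) :
    Sym2 (Fin N) →₀ ℕ := ∑ i, Finsupp.single s(w (lf i), w (rt (σ i))) 1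

lemma rn_xs {N : ℕ} (w : Fin (k + k) → Fin N) (σ : Equiv.Perm (Fin k)) :
    rn w (xs σ) = monomial (ex w σ) 1 := by
  rw [xs, map_prod, ex, monomial_sum_one]
  refine Finset.prod_congr rfl fun i _ => ?_
  rw [rn_X]
  rfl

lemma xs_multi (σ : Equiv.Perm (Fin k)) : Multi (xs σ) := by
  intro c
  have h1 : HasWt c (xs σ) (∑ i, wt c s(lf i, rt (σ i))) :=
    IsWeightedHomogeneous.prod _ _ _ fun i _ => isWeightedHomogeneous_X ..
  convert h1 using 1
  induction c using slot_cases with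
  | hl i =>
    rw [Finset.sum_eq_single i]
    · rw [wt_mk, if_pos rfl, if_neg (lf_ne_rt _ _).symm]
    · intro j _ hj
      rw [wt_mk, if_neg (fun h => hj (lf_inj h)), if_neg (lf_ne_rt _ _).symm, add_zero]
    · simp
  | hr j =>
    rw [Finset.sum_eq_single (σ⁻¹ j)]
    · rw [wt_mk, if_neg (lf_ne_rt _ _), if_pos (by simp)]
    · intro i _ hi
      rw [wt_mk, if_neg (lf_ne_rt _ _), if_neg (fun h => hi (by rw [← rt_inj h]; simp)), add_zero]
    · simp

/-- the letters of the slots -/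
def uu (l r : Fin k → Let n) : Fin (k + k) → Let n := Fin.append l (fun j => dual (r j))

lemma uu_lf (l r : Fin k → Let n) (i : Fin k) : uu l r (lf i) = l i := Fin.append_left ..

lemma uu_rt (l r : Fin k → Let n) (j : Fin k) : uu l r (rt j) = dual (r j) := Fin.append_right ..

/-- labels -/
def lab (a : Let n) (i : Fin k) : Fin (k + 1 + 1) :=
  if a.1 = none then (if a.2 = true then 1 else 0) else i.succ.succ

lemma lab_even {a : Let n} (h : a.1 = none) (i : Fin k) : (lab a i : ℕ) = if a.2 = true then 1 else 0 := by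
  rw [lab, if_pos h]
  split_ifs <;> simp

lemma lab_odd {a : Let n} (h : a.1 ≠ none) (i : Fin k) : (lab a i : ℕ) = i + 2 := by
  rw [lab, if_neg h]
  simp

/-- the number of the pair of a slot -/
def idx (σ₀ : Equiv.Perm (Fin k)) : Fin (k + k) → Fin k := Fin.append id (fun j => σ₀⁻¹ j)

lemma idx_lf (σ₀ : Equiv.Perm (Fin k)) (i : Fin k) : idx σ₀ (lf i) = i := Fin.append_left ..

lemma idx_rt (σ₀ : Equiv.Perm (Fin k)) (j : Fin k) : idx σ₀ (rt j) = σ₀⁻¹ j := Fin.append_right ..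

/-- the labels of the slots -/
def ww (l r : Fin k → Let n) (σ₀ : Equiv.Perm (Fin k)) (s : Fin (k + k)) : Fin (k + 1 + 1) :=
  lab (uu l r s) (idx σ₀ s)

/-- the partner -/
def ptf (σ₀ : Equiv.Perm (Fin k)) : Fin (k + k) → Fin (k + k) :=
  Fin.append (fun i => rt (σ₀ i)) (fun j => lf (σ₀⁻¹ j))

lemma ptf_lf (σ₀ : Equiv.Perm (Fin k)) (i : Fin k) : ptf σ₀ (lf i) = rt (σ₀ i) := Fin.append_left ..

lemma ptf_rt (σ₀ : Equiv.Perm (Fin k)) (j : Fin k) : ptf σ₀ (rt j) = lf (σ₀⁻¹ j) :=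
  Fin.append_right ..

lemma ptf_ptf (σ₀ : Equiv.Perm (Fin k)) (s : Fin (k + k)) : ptf σ₀ (ptf σ₀ s) = s := by
  induction s using slot_cases with
  | hl i => rw [ptf_lf, ptf_rt]; simp
  | hr j => rw [ptf_rt, ptf_lf]; simp

/-- the partner as a permutation -/
def pt (σ₀ : Equiv.Perm (Fin k)) : Equiv.Perm (Fin (k + k)) :=
  ⟨ptf σ₀, ptf σ₀, ptf_ptf σ₀, ptf_ptf σ₀⟩

lemma uu_pt {l r : Fin k → Let n} {σ₀ : Equiv.Perm (Fin k)} (h : l = r ∘ σ₀) (s : Fin (k + k)) :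
    uu l r (ptf σ₀ s) = dual (uu l r s) := by
  subst h
  induction s using slot_cases with
  | hl i => rw [ptf_lf, uu_rt, uu_lf]; rfl
  | hr j =>
    rw [ptf_rt, uu_rt, uu_lf, dual_dual, Function.comp_apply]
    simp

/-- slots with the same odd label -/
lemma ww_eq {l r : Fin k → Let n} {σ₀ : Equiv.Perm (Fin k)} {s s' : Fin (k + k)}
    (h1 : (uu l r s).1 ≠ none) (h2 : (uu l r s').1 ≠ none)
    (h : ww l r σ₀ s = ww l r σ₀ s') : s' = s ∨ s' = ptf σ₀ s := by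
  have h3 : idx σ₀ s = idx σ₀ s' := by
    have := congrArg Fin.val h
    rw [ww, ww, lab_odd h1, lab_odd h2] at this
    exact Fin.ext (by omega)
  induction s using slot_cases with
  | hl i =>
    induction s' using slot_cases with
    | hl j =>
      left
      rw [idx_lf, idx_lf] at h3
      rw [h3]
    | hr j =>
      right
      rw [idx_lf, idx_rt] at h3
      rw [ptf_lf, h3]
      simp
  | hr i =>
    induction s' using slot_cases with
    | hl j =>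
      right
      rw [idx_lf, idx_rt] at h3
      rw [ptf_rt, h3]
    | hr j =>
      left
      rw [idx_rt, idx_rt] at h3
      rw [σ₀⁻¹.injective h3]

lemma mem_ex {N : ℕ} (w : Fin (k + k) → Fin N) (σ : Equiv.Perm (Fin k)) (p : Sym2 (Fin N)) :
    ex w σ p ≠ 0 ↔ ∃ i, s(w (lf i), w (rt (σ i))) = p := by
  rw [ex, Finsupp.finsetSum_apply, Ne, Finset.sum_eq_zero_iff]
  push Not
  constructor
  · rintro ⟨i, -, hi⟩
    refine ⟨i, ?_⟩
    by_contra h
    rw [Finsupp.single_eq_of_ne (Ne.symm h)] at hi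
    exact hi rfl
  · rintro ⟨i, rfl⟩
    exact ⟨i, Finset.mem_univ _, by simp⟩

/-- the shape of the pairs of the base monomial -/
lemma base_shape {l r : Fin k → Let n} {σ₀ : Equiv.Perm (Fin k)} (h : l = r ∘ σ₀) (i : Fin k) :
    ((uu l r (lf i)).1 = none ∧ (((ww l r σ₀ (lf i) : ℕ) = 0 ∧ (ww l r σ₀ (rt (σ₀ i)) : ℕ) = 1) ∨
      ((ww l r σ₀ (lf i) : ℕ) = 1 ∧ (ww l r σ₀ (rt (σ₀ i)) : ℕ) = 0))) ∨
    ((uu l r (lf i)).1 ≠ none ∧ ww l r σ₀ (lf i) = ww l r σ₀ (rt (σ₀ i)) ∧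
      2 ≤ (ww l r σ₀ (lf i) : ℕ)) := by
  have h1 := uu_pt h (lf i)
  rw [ptf_lf] at h1
  by_cases h2 : (uu l r (lf i)).1 = none
  · left
    refine ⟨h2, ?_⟩
    have h3 : (uu l r (rt (σ₀ i))).1 = none := by rw [h1]; exact h2
    rw [ww, ww, lab_even h2, lab_even h3, h1, dual]
    rcases (uu l r (lf i)).2 with _ | _ <;> simp
  · right
    have h3 : (uu l r (rt (σ₀ i))).1 ≠ none := by rw [h1]; exact h2
    refine ⟨h2, Fin.ext ?_, ?_⟩
    · rw [ww, ww, lab_odd h2, lab_odd h3, idx_lf, idx_rt]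
      simp
    · rw [ww, lab_odd h2]
      omega

/-- the analysis of a permutation of the slots which gives the base monomial -/
lemma analysis {l r : Fin k → Let n} {σ₀ : Equiv.Perm (Fin k)} (h : l = r ∘ σ₀)
    {τ : Equiv.Perm (Fin (k + k))} (hτ : IsG (uu l r) τ) {σ : Equiv.Perm (Fin k)}
    (he : ex (ww l r σ₀ ∘ τ) σ = ex (ww l r σ₀) σ₀) (i : Fin k) :
    ((uu l r (lf i)).1 = none ∧ uu l r (rt (σ i)) = dual (uu l r (lf i))) ∨
      τ (rt (σ i)) = ptf σ₀ (τ (lf i)) := by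
  have h1 : ex (ww l r σ₀ ∘ τ) σ s((ww l r σ₀ ∘ τ) (lf i), (ww l r σ₀ ∘ τ) (rt (σ i))) ≠ 0 :=
    (mem_ex _ _ _).2 ⟨i, rfl⟩
  rw [he, mem_ex] at h1
  obtain ⟨j, hj⟩ := h1
  rw [Function.comp_apply, Function.comp_apply] at hj
  -- slots with small labels have even letters
  have small : ∀ s, (ww l r σ₀ s : ℕ) ≤ 1 → (uu l r s).1 = none := by
    intro s hs
    by_contra h2
    rw [ww, lab_odd h2] at hs
    omega
  have big : ∀ s, 2 ≤ (ww l r σ₀ s : ℕ) → (uu l r s).1 ≠ none := by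
    intro s hs h2
    rw [ww, lab_even h2] at hs
    split_ifs at hs <;> omega
  have evenlab : ∀ s, (uu l r s).1 = none → (ww l r σ₀ s : ℕ) = if (uu l r s).2 = true then 1 else 0 :=
    fun s hs => by rw [ww, lab_even hs]
  -- the labels of the two slots
  have h2 : ((ww l r σ₀ (τ (lf i)) : ℕ) = 0 ∧ (ww l r σ₀ (τ (rt (σ i))) : ℕ) = 1) ∨
      ((ww l r σ₀ (τ (lf i)) : ℕ) = 1 ∧ (ww l r σ₀ (τ (rt (σ i))) : ℕ) = 0) ∨
      (ww l r σ₀ (τ (lf i)) = ww l r σ₀ (τ (rt (σ i))) ∧ 2 ≤ (ww l r σ₀ (τ (lf i)) : ℕ)) := by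
    rcases base_shape h j with ⟨-, ⟨h3, h4⟩ | ⟨h3, h4⟩⟩ | ⟨-, h3, h4⟩
    · rcases Sym2.eq_iff.1 hj with ⟨h5, h6⟩ | ⟨h5, h6⟩
      · left; rw [← h5, ← h6]; exact ⟨h3, h4⟩
      · right; left; rw [← h5, ← h6]; exact ⟨h4, h3⟩
    · rcases Sym2.eq_iff.1 hj with ⟨h5, h6⟩ | ⟨h5, h6⟩
      · right; left; rw [← h5, ← h6]; exact ⟨h3, h4⟩
      · left; rw [← h5, ← h6]; exact ⟨h4, h3⟩
    · rcases Sym2.eq_iff.1 hj with ⟨h5, h6⟩ | ⟨h5, h6⟩
      · right; right; rw [← h5, ← h6]; exact ⟨h3, h4⟩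
      · right; right; rw [← h5, ← h6]; exact ⟨h3.symm, h3 ▸ h4⟩
  have even_case : (ww l r σ₀ (τ (lf i)) : ℕ) ≤ 1 → (ww l r σ₀ (τ (rt (σ i))) : ℕ) ≤ 1 →
      (ww l r σ₀ (τ (lf i)) : ℕ) ≠ (ww l r σ₀ (τ (rt (σ i))) : ℕ) →
      (uu l r (lf i)).1 = none ∧ uu l r (rt (σ i)) = dual (uu l r (lf i)) := by
    intro h3 h4 h5
    have h6 := small _ h3
    have h7 := small _ h4
    rw [evenlab _ h6, evenlab _ h7] at h5
    rw [hτ.1] at h6 h7 h5
    rw [hτ.1] at h5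
    refine ⟨h6, Prod.ext (h7.trans h6.symm) ?_⟩
    rw [dual]
    rcases hc : (uu l r (lf i)).2 with _ | _ <;> rcases hd : (uu l r (rt (σ i))).2 with _ | _ <;>
      simp_all
  rcases h2 with ⟨h3, h4⟩ | ⟨h3, h4⟩ | ⟨h3, h4⟩
  · left
    exact even_case (by omega) (by omega) (by omega)
  · left
    exact even_case (by omega) (by omega) (by omega)
  · right
    have h5 := big _ h4
    have h6 := big _ (h3 ▸ h4 : 2 ≤ (ww l r σ₀ (τ (rt (σ i))) : ℕ))
    rcases ww_eq h5 h6 h3 with h7 | h7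
    · exact absurd (τ.injective h7).symm (lf_ne_rt _ _)
    · exact h7

/-- the permutation is compatible with the words -/
lemma compat {l r : Fin k → Let n} {σ₀ : Equiv.Perm (Fin k)} (h : l = r ∘ σ₀)
    {τ : Equiv.Perm (Fin (k + k))} (hτ : IsG (uu l r) τ) {σ : Equiv.Perm (Fin k)}
    (he : ex (ww l r σ₀ ∘ τ) σ = ex (ww l r σ₀) σ₀) : l = r ∘ σ := by
  ext1 i
  have h1 : uu l r (rt (σ i)) = dual (uu l r (lf i)) := by
    rcases analysis h hτ he i with ⟨-, h1⟩ | h1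
    · exact h1
    · rw [← hτ.1 (rt (σ i)), h1, uu_pt h, hτ.1]
  rw [uu_rt, uu_lf] at h1
  exact (dual_inj h1).symm

/-- the permutation commutes with the partner map -/
lemma commutes {l r : Fin k → Let n} {σ₀ : Equiv.Perm (Fin k)} (h : l = r ∘ σ₀)
    {τ : Equiv.Perm (Fin (k + k))} (hτ : IsG (uu l r) τ)
    (he : ex (ww l r σ₀ ∘ τ) σ₀ = ex (ww l r σ₀) σ₀) (s : Fin (k + k)) :
    τ (ptf σ₀ s) = ptf σ₀ (τ s) := by
  have key : ∀ i, τ (rt (σ₀ i)) = ptf σ₀ (τ (lf i)) := by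
    intro i
    rcases analysis h hτ he i with ⟨h1, h2⟩ | h1
    · rw [hτ.2 _ h1, ptf_lf, hτ.2]
      rw [h2]
      exact h1
    · exact h1
  induction s using slot_cases with
  | hl i => rw [ptf_lf]; exact key i
  | hr j =>
    have h1 := key (σ₀⁻¹ j)
    rw [show σ₀ (σ₀⁻¹ j) = j by simp] at h1
    rw [ptf_rt, h1, ptf_ptf]

/-- a permutation preserving the letters and commuting with the partner map is even -/
lemma sign_eq_one {l r : Fin k → Let n} {σ₀ : Equiv.Perm (Fin k)} (h : l = r ∘ σ₀)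
    {τ : Equiv.Perm (Fin (k + k))} (hτ : IsG (uu l r) τ)
    (hc : ∀ s, τ (ptf σ₀ s) = ptf σ₀ (τ s)) : Equiv.Perm.sign τ = 1 := by
  let B : Fin (k + k) → Prop := fun s => (uu l r s).2 = false
  have hB : ∀ s, B (τ s) ↔ B s := fun s => by simp only [B, hτ.1]
  have hP : ∀ s, B (ptf σ₀ s) ↔ ¬ B s := by
    intro s
    simp only [B, uu_pt h, dual]
    rcases (uu l r s).2 with _ | _ <;> simp
  let ρ : Equiv.Perm (Fin (k + k)) := Equiv.Perm.ofSubtype (τ.subtypePerm hB)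
  have e1 : ∀ s, B s → ρ s = τ s := by
    intro s hs
    simp only [ρ]
    rw [Equiv.Perm.ofSubtype_apply_of_mem _ hs]
    rfl
  have e2 : ∀ s, ¬ B s → ρ s = s := fun s hs => Equiv.Perm.ofSubtype_apply_of_not_mem _ hs
  have e3 : τ = ρ * (pt σ₀ * ρ * (pt σ₀)⁻¹) := by
    ext1 s
    have hpt : (pt σ₀)⁻¹ s = ptf σ₀ s := rfl
    have hpt' : ∀ x, pt σ₀ x = ptf σ₀ x := fun _ => rfl
    rw [Equiv.Perm.mul_apply, Equiv.Perm.mul_apply, Equiv.Perm.mul_apply, hpt, hpt']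
    by_cases hs : B s
    · have h1 : ¬ B (ptf σ₀ s) := fun h2 => ((hP s).1 h2) hs
      rw [e2 _ h1, ptf_ptf, e1 s hs]
    · have h1 : B (ptf σ₀ s) := (hP s).2 hs
      rw [e1 _ h1, hc, ptf_ptf, e2]
      rwa [hB]
  rw [e3, map_mul, map_mul, map_mul, Equiv.Perm.sign_inv]
  rcases Int.units_eq_one_or (Equiv.Perm.sign ρ) with h1 | h1 <;>
    rcases Int.units_eq_one_or (Equiv.Perm.sign (pt σ₀)) with h2 | h2 <;> simp [h1, h2]

end Pool.Agent.Run7.h570.GAP
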