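import Mathlib

set_option autoImplicit false

/-!
# Polynomials in the entries of a symmetric matrix: polarizations, contractions, stripping
-/

open MvPolynomial

namespace Pool.Agent.Run7.h570.GAP

/-- polynomials in the entries of a symmetric matrix -/
abbrev Pol (J : Type*) := MvPolynomial (Sym2 J) ℚ

section basic

variable {J : Type*} [DecidableEq J]

/-- the number of times the index `j` occurs in `s` -/
def wt (j : J) (s : Sym2 J) : ℕ :=
  Sym2.lift ⟨fun p q => (if p = j then 1 else 0) + (if q = j then 1 else 0), fun _ _ =>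
    add_comm _ _⟩ s

@[simp] lemma wt_mk (j p q : J) :
    wt j s(p, q) = (if p = j then 1 else 0) + (if q = j then 1 else 0) := rfl

/-- the number of ways to write `s` as `(b, i)` -/
def nv (b i : J) (s : Sym2 J) : ℚ :=
  Sym2.lift ⟨fun p q => (if p = b ∧ q = i then 1 else 0) + (if q = b ∧ p = i then 1 else 0),
    fun _ _ => add_comm _ _⟩ s

@[simp] lemma nv_mk (b i p q : J) : nv b i s(p, q) =
    (if p = b ∧ q = i then 1 else 0) + (if q = b ∧ p = i then 1 else 0) := rfl

lemma nv_symm (b i : J) (s : Sym2 J) : nv b i s = nv i b s := by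
  induction s with
  | _ p q =>
    simp only [nv_mk]
    rw [add_comm]
    simp only [and_comm]

/-- the derivation which removes a pair `(b, i)` -/
noncomputable def nn (b i : J) : Derivation ℚ (Pol J) (Pol J) :=
  mkDerivation ℚ (fun s => C (nv b i s))

lemma nn_X (b i : J) (s : Sym2 J) : nn b i (X s) = C (nv b i s) := mkDerivation_X ..

lemma nn_symm (b i : J) : nn b i = nn i b := by
  ext s
  rw [nn_X, nn_X, nv_symm]

lemma nn_comm (b i c j : J) (f : Pol J) : nn b i (nn c j f) = nn c j (nn b i f) := by
  have h : ⁅nn b i, nn c j⁆ = (0 : Derivation ℚ (Pol J) (Pol J)) := by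
    apply derivation_ext
    intro s
    rw [Derivation.commutator_apply, nn_X, nn_X]
    simp
  have h1 := congrArg (fun D : Derivation ℚ (Pol J) (Pol J) => D f) h
  simp only [Derivation.commutator_apply, Derivation.coe_zero, Pi.zero_apply] at h1
  exact sub_eq_zero.1 h1

lemma nn_eq (b i : J) (f : Pol J) :
    nn b i f = (if b = i then 2 else 1 : ℚ) • pderiv s(b, i) f := by
  have h : nn b i = (if b = i then 2 else 1 : ℚ) • (pderiv s(b, i) : Derivation ℚ (Pol J) (Pol J)) := by
    apply derivation_ext
    intro s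
    rw [Derivation.coe_smul, Pi.smul_apply, nn_X, pderiv_X]
    induction s with
    | _ p q =>
      simp only [nv_mk, Pi.single_apply, Sym2.eq_iff]
      by_cases h1 : b = i
      · subst h1
        by_cases h2 : p = b <;> by_cases h3 : q = b <;> simp [h2, h3, smul_eq_C_mul]
        rw [one_add_one_eq_two]
        exact (map_ofNat (C : ℚ →+* Pol J) 2).symm
      · by_cases h2 : p = b ∧ q = i
        · obtain ⟨rfl, rfl⟩ := h2
          have : ¬ (q = p) := fun h => h1 h.symm
          simp [h1, this]
        · by_cases h3 : p = i ∧ q = b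
          · obtain ⟨rfl, rfl⟩ := h3
            simp [h1]
          · have h3' : ¬ (q = b ∧ p = i) := fun h => h3 ⟨h.2, h.1⟩
            simp [h1, h2, h3, h3']
  rw [h]
  rfl

section weights

/-- `f` has the weight `n` in the index `j` -/
def HasWt (j : J) (f : Pol J) (n : ℕ) : Prop := IsWeightedHomogeneous (wt j) f n

lemma HasWt.le {j : J} {f : Pol J} {n : ℕ} (h : HasWt j f n) {s : Sym2 J} (hs : s ∈ f.vars) :
    wt j s ≤ n := by
  rw [mem_vars_iff_mem_support] at hs
  obtain ⟨d, hd, hs⟩ := hs
  have h1 := h (mem_support_iff.1 hd)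
  rw [Finsupp.weight_apply] at h1
  rw [← h1, Finsupp.sum]
  have h2 : 1 ≤ d s := Nat.one_le_iff_ne_zero.2 (Finsupp.mem_support_iff.1 hs)
  calc wt j s = 1 • wt j s := by simp
    _ ≤ d s • wt j s := by gcongr
    _ ≤ ∑ a ∈ d.support, d a • wt j a :=
      Finset.single_le_sum (f := fun a => d a • wt j a) (fun _ _ => Nat.zero_le _) hs

lemma HasWt.nn_eq_zero {j b i : J} {f : Pol J} {n : ℕ} (h : HasWt j f n)
    (hn : n < wt j s(b, i)) : nn b i f = 0 := by
  rw [nn_eq, pderiv_eq_zero_of_notMem_vars, smul_zero]
  intro hs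
  exact absurd (h.le hs) (by omega)

lemma HasWt.nn {j b i : J} {f : Pol J} {n n' : ℕ} (h : HasWt j f n)
    (hn : n' + wt j s(b, i) = n) : HasWt j (nn b i f) n' := by
  rw [nn_eq]
  exact (weightedHomogeneousSubmodule ℚ (wt j) n').smul_mem _
    ((mem_weightedHomogeneousSubmodule ..).2 (IsWeightedHomogeneous.pderiv h hn))

lemma HasWt.smul {j : J} {f : Pol J} {n : ℕ} (h : HasWt j f n) (c : ℚ) : HasWt j (c • f) n :=
  (weightedHomogeneousSubmodule ℚ (wt j) n).smul_mem c h

lemma HasWt.add {j : J} {f g : Pol J} {n : ℕ} (h : HasWt j f n) (h' : HasWt j g n) :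
    HasWt j (f + g) n :=
  (weightedHomogeneousSubmodule ℚ (wt j) n).add_mem h h'

lemma HasWt.sum {ι : Type*} {j : J} {S : Finset ι} {f : ι → Pol J} {n : ℕ}
    (h : ∀ x ∈ S, HasWt j (f x) n) : HasWt j (∑ x ∈ S, f x) n :=
  (weightedHomogeneousSubmodule ℚ (wt j) n).sum_mem h

end weights

end basic

section ee

variable {J : Type*} [DecidableEq J] [Fintype J]

/-- the polarization: replace an index `b` by `a` -/
noncomputable def ee (a b : J) : Derivation ℚ (Pol J) (Pol J) :=
  ∑ i, (X s(a, i) : Pol J) • nn b i

lemma ee_apply (a b : J) (f : Pol J) : ee a b f = ∑ i, X s(a, i) * nn b i f := by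
  have : ∀ S : Finset J, (∑ i ∈ S, (X s(a, i) : Pol J) • nn b i) f =
      ∑ i ∈ S, X s(a, i) * nn b i f := by
    intro S
    classical
    induction S using Finset.induction_on with
    | empty => simp
    | insert x S hx ih =>
      rw [Finset.sum_insert hx, Finset.sum_insert hx, Derivation.coe_add, Pi.add_apply, ih,
        Derivation.coe_smul, Pi.smul_apply, smul_eq_mul]
  exact this _

lemma ee_X (a b p q : J) : ee a b (X s(p, q)) =
    (if p = b then X s(a, q) else 0) + (if q = b then X s(p, a) else 0) := by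
  rw [ee_apply]
  simp only [nn_X, nv_mk, map_add, mul_add, Finset.sum_add_distrib]
  congr 1
  · rw [Finset.sum_eq_single q]
    · split_ifs <;> simp_all
    · intro i _ hi
      rw [if_neg (fun h => hi h.2.symm)]
      simp
    · simp
  · rw [Finset.sum_eq_single p]
    · split_ifs <;> simp_all [Sym2.eq_swap]
    · intro i _ hi
      rw [if_neg (fun h => hi h.2.symm)]
      simp
    · simp

lemma nn_ee (b i a c : J) (f : Pol J) : nn b i (ee a c f) = ee a c (nn b i f) +
    (if a = b then nn c i f else 0) + (if a = i then nn c b f else 0) := by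
  rw [ee_apply, ee_apply, map_sum]
  have h : ∀ j, nn b i (X s(a, j) * nn c j f) = X s(a, j) * nn c j (nn b i f) +
      ((if a = b ∧ j = i then nn c j f else 0) + (if j = b ∧ a = i then nn c j f else 0)) := by
    intro j
    rw [Derivation.leibniz, nn_X, nv_mk, nn_comm b i c j f]
    simp only [smul_eq_mul, map_add, mul_add]
    congr 2
    · split_ifs <;> simp
    · split_ifs <;> simp
  simp only [h, Finset.sum_add_distrib, add_assoc]
  congr 2
  · by_cases h1 : a = b
    · simp [h1]
    · simp [h1]
  · by_cases h1 : a = i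
    · simp [h1]
    · simp [h1]

/-- the contraction of two indices `b`, with a loop having the value `δ` -/
noncomputable def dd (δ : ℚ) (b : J) (f : Pol J) : Pol J :=
  δ • nn b b f + ∑ i, ee i b (nn b i f)

lemma HasWt.euler {j : J} {f : Pol J} {n : ℕ} (h : HasWt j f n) : ee j j f = (n : ℚ) • f := by
  have h1 : ee j j = mkDerivation ℚ (fun s : Sym2 J => (wt j s : ℚ) • (X s : Pol J)) := by
    apply derivation_ext
    intro s
    rw [mkDerivation_X]
    induction s with
    | _ p q =>
      rw [ee_X, wt_mk]
      by_cases h1 : p = j <;> by_cases h2 : q = j <;> simp [h1, h2, Sym2.eq_swap]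
      rw [← two_smul ℚ]
  rw [h1]
  have h2 : mkDerivation ℚ (fun s : Sym2 J => (wt j s : ℚ) • (X s : Pol J)) f =
      ∑ s : Sym2 J, wt j s • (X s * pderiv s f) := by
    have h3 : mkDerivation ℚ (fun s : Sym2 J => (wt j s : ℚ) • (X s : Pol J)) =
        ∑ s : Sym2 J, (wt j s : ℚ) • ((X s : Pol J) • (pderiv s : Derivation ℚ (Pol J) (Pol J))) := by
      apply derivation_ext
      intro s
      rw [mkDerivation_X]
      have h4 : ∀ S : Finset (Sym2 J), (∑ t ∈ S, (wt j t : ℚ) •
          ((X t : Pol J) • (pderiv t : Derivation ℚ (Pol J) (Pol J)))) (X s) =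
          ∑ t ∈ S, (wt j t : ℚ) • (X t * pderiv t (X s)) := by
        intro S
        induction S using Finset.induction_on with
        | empty => simp
        | insert x S hx ih =>
          rw [Finset.sum_insert hx, Finset.sum_insert hx, Derivation.coe_add, Pi.add_apply, ih]
          rfl
      rw [h4, Finset.sum_eq_single s]
      · simp
      · intro t _ ht
        rw [pderiv_X_of_ne (Ne.symm ht)]
        simp
      · simp
    rw [h3]
    have h4 : ∀ S : Finset (Sym2 J), (∑ t ∈ S, (wt j t : ℚ) •
        ((X t : Pol J) • (pderiv t : Derivation ℚ (Pol J) (Pol J)))) f =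
        ∑ t ∈ S, wt j t • (X t * pderiv t f) := by
      intro S
      induction S using Finset.induction_on with
      | empty => simp
      | insert x S hx ih =>
        rw [Finset.sum_insert hx, Finset.sum_insert hx, Derivation.coe_add, Pi.add_apply, ih,
          ← Nat.cast_smul_eq_nsmul ℚ]
        rfl
    exact h4 _
  rw [h2, IsWeightedHomogeneous.sum_weight_X_mul_pderiv h, Nat.cast_smul_eq_nsmul]

end ee

section strip

variable {N : ℕ}

/-- the generic symmetric matrix of size `b` has a nonzero determinant -/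
lemma det_ne {J : Type*} [DecidableEq J] [Fintype J] {ι : Type*} [DecidableEq ι] [Fintype ι]
    (e : ι → J) (he : Function.Injective e) :
    (Matrix.of fun i j : ι => (X s(e i, e j) : Pol J)).det ≠ 0 := by
  intro h
  have h1 := congrArg (MvPolynomial.eval (fun s : Sym2 J => if s.IsDiag then (1 : ℚ) else 0)) h
  rw [RingHom.map_det, map_zero] at h1
  have h2 : (MvPolynomial.eval (fun s : Sym2 J => if s.IsDiag then (1 : ℚ) else 0)).mapMatrix
      (Matrix.of fun i j : ι => (X s(e i, e j) : Pol J)) = 1 := by
    ext i j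
    rw [RingHom.mapMatrix_apply, Matrix.map_apply, Matrix.of_apply, eval_X, Matrix.one_apply]
    by_cases hij : i = j
    · simp [hij]
    · simp [hij, he.eq_iff]
  rw [h2, Matrix.det_one] at h1
  exact one_ne_zero h1

/-- `h` is invariant under the unipotent group, has the weights `μ`, and is not zero -/
structure Good (μ : Fin N → ℕ) (h : Pol (Fin N)) : Prop where
  ne : h ≠ 0
  wt : ∀ j, HasWt j h (μ j)
  inv : ∀ a b : Fin N, a < b → ee a b h = 0

/-- the contraction of an invariant polynomial in its last index -/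
lemma Good.dd_eq {μ : Fin N → ℕ} {h : Pol (Fin N)} (H : Good μ h) (δ : ℚ) (b : Fin N)
    (hb : ∀ c, b < c → μ c = 0) (hμ : 2 ≤ μ b) :
    dd δ b h = (δ - b + μ b - 2) • nn b b h := by
  have h1 : ∀ i, ee i b (nn b i h) =
      (if i < b then -(nn b b h) else 0) + (if i = b then ((μ b : ℚ) - 2) • nn b b h else 0) := by
    intro i
    rcases lt_trichotomy i b with hi | rfl | hi
    · rw [if_pos hi, if_neg hi.ne, add_zero]
      have h2 := nn_ee b i i b h
      rw [H.inv i b hi, map_zero, if_neg hi.ne, if_pos rfl, add_zero] at h2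
      exact eq_neg_of_add_eq_zero_left h2.symm
    · rw [if_neg (lt_irrefl _), if_pos rfl, zero_add]
      have h2 : HasWt i (nn i i h) (μ i - 2) := (H.wt i).nn (by simp; omega)
      rw [h2.euler, Nat.cast_sub hμ]
      norm_num
    · rw [if_neg (not_lt.2 hi.le), if_neg hi.ne', add_zero]
      have h2 : nn b i h = 0 := by
        refine (H.wt i).nn_eq_zero ?_
        rw [hb i hi, wt_mk]
        simp
      rw [h2, map_zero]
  rw [dd]
  simp only [h1, Finset.sum_add_distrib]
  rw [Finset.sum_ite_eq' Finset.univ b, if_pos (Finset.mem_univ _), ← Finset.sum_filter,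
    Finset.sum_const]
  have h3 : (Finset.univ.filter fun i : Fin N => i < b).card = (b : ℕ) := by
    rw [show (Finset.univ.filter fun i : Fin N => i < b) = Finset.Iio b by ext; simp, Fin.card_Iio]
  rw [h3, ← Nat.cast_smul_eq_nsmul ℚ, smul_neg, ← neg_smul, ← add_smul, ← add_smul]
  congr 1
  ring

/-- one step of the stripping -/
lemma Good.step {μ : Fin N → ℕ} {h : Pol (Fin N)} (H : Good μ h) (b : Fin N)
    (hb : ∀ c, b < c → μ c = 0) (hμ : μ b ≠ 0) :
    2 ≤ μ b ∧ Good (fun c => if c = b then μ b - 2 else μ c) (nn b b h) := by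
  have hz : ∀ i, b < i → nn b i h = 0 := by
    intro i hi
    refine (H.wt i).nn_eq_zero ?_
    rw [hb i hi, wt_mk]
    simp
  have hne : nn b b h ≠ 0 := by
    intro h0
    have h1 : ∀ i : {i : Fin N // i < b}, ∑ j : {j : Fin N // j < b},
        (X s(i.1, j.1) : Pol (Fin N)) * nn b j.1 h = 0 := by
      intro i
      have h2 := H.inv i.1 b i.2
      rw [ee_apply] at h2
      rw [← h2, ← Finset.sum_subtype (Finset.univ.filter fun j : Fin N => j < b) (by simp)
        (fun j => (X s(i.1, j) : Pol (Fin N)) * nn b j h), Finset.sum_filter]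
      refine Finset.sum_congr rfl fun j _ => ?_
      rcases lt_trichotomy j b with hj | rfl | hj
      · rw [if_pos hj]
      · rw [if_neg (lt_irrefl _), h0, mul_zero]
      · rw [if_neg (not_lt.2 hj.le), hz j hj, mul_zero]
    have h3 : (fun j : {j : Fin N // j < b} => nn b j.1 h) = 0 := by
      refine Matrix.eq_zero_of_mulVec_eq_zero
        (det_ne (fun i : {i : Fin N // i < b} => i.1) Subtype.val_injective) ?_
      ext1 i
      exact h1 i
    have h4 : ee b b h = 0 := by
      rw [ee_apply]
      refine Finset.sum_eq_zero fun j _ => ?_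
      rcases lt_trichotomy j b with hj | rfl | hj
      · rw [show nn b j h = 0 from congrFun h3 ⟨j, hj⟩, mul_zero]
      · rw [h0, mul_zero]
      · rw [hz j hj, mul_zero]
    rw [(H.wt b).euler] at h4
    exact H.ne ((smul_eq_zero.1 h4).resolve_left (Nat.cast_ne_zero.2 hμ))
  have h2 : 2 ≤ μ b := by
    by_contra h2
    refine hne ((H.wt b).nn_eq_zero ?_)
    rw [wt_mk, if_pos rfl]
    omega
  refine ⟨h2, hne, fun c => ?_, fun a c hac => ?_⟩
  · split_ifs with hc
    · subst hc
      refine (H.wt c).nn ?_
      rw [wt_mk, if_pos rfl]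
      omega
    · refine (H.wt c).nn ?_
      rw [wt_mk, if_neg (Ne.symm hc)]
      omega
  · have h3 := nn_ee b b a c h
    rw [H.inv a c hac, map_zero] at h3
    by_cases ha : a = b
    · subst ha
      have h4 : nn c a h = 0 := by
        rw [nn_symm]
        exact hz c hac
      rw [if_pos rfl, h4, add_zero, add_zero] at h3
      exact h3.symm
    · rw [if_neg ha, add_zero, add_zero] at h3
      exact h3.symm

end strip

end Pool.Agent.Run7.h570.GAP
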