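import Pool.Agent.Run7.h570.GAP.Extract
import Pool.Agent.Run7.h570.GAP.Count
import Pool.Agent.Run7.h570.GAP.CS

set_option autoImplicit false
set_option linter.unusedSectionVars false

/-!
# The dimension of the span of the products of the pairs
-/

open MvPolynomial

universe u

namespace Pool.Agent.Run7.h570.GAP

variable {R : PowerRings.{u}} {π : R.A 2} {δ : ℚ} {n k : ℕ}

/-- the linear combinations of the products of pairs -/
noncomputable def Phi (h : IsProj R π δ) (k : ℕ) : (Equiv.Perm (Fin k) → ℚ) →ₗ[ℚ] R.A (k + k) :=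
  Fintype.linearCombination ℚ (fun σ => h.ev (k + k) (xs σ))

lemma Phi_apply (h : IsProj R π δ) (c : Equiv.Perm (Fin k) → ℚ) :
    Phi h k c = h.ev (k + k) (∑ σ, c σ • xs σ) := by
  rw [Phi, Fintype.linearCombination_apply, map_sum]
  simp only [map_smul]

lemma Phi_ker (h : IsProj R π δ) {c : Equiv.Perm (Fin k) → ℚ} (hc : Phi h k c = 0) :
    ∑ σ, c σ • xs σ ∈ Rel h (k + k) := by
  refine ⟨fun j => HasWt.sum fun σ _ => HasWt.smul (xs_multi σ j) _, ?_⟩
  rw [← Phi_apply, hc]

section counting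

variable {α : Type*} [Fintype α] [DecidableEq α]

lemma card_comp_eq (σ τ : Equiv.Perm (Fin k)) :
    Fintype.card {r : Fin k → α // r ∘ σ = r ∘ τ} = fixn α (σ * τ⁻¹) := by
  rw [fixn]
  refine Fintype.card_congr (Equiv.subtypeEquivRight fun r => ?_)
  constructor
  · intro h
    ext1 x
    have h1 := congrFun h (τ⁻¹ x)
    simpa using h1
  · intro h
    ext1 x
    have h1 := congrFun h (τ x)
    simpa using h1

lemma fixn_prod (ρ : Equiv.Perm (Fin k)) : fixn (α × α) ρ = fixn α ρ ^ 2 := by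
  rw [sq, fixn, fixn, ← Fintype.card_prod]
  refine Fintype.card_congr
    ⟨fun R => (⟨fun i => (R.1 i).1, funext fun i => congrArg Prod.fst (congrFun R.2 i)⟩,
      ⟨fun i => (R.1 i).2, funext fun i => congrArg Prod.snd (congrFun R.2 i)⟩),
    fun x => ⟨fun i => (x.1.1 i, x.2.1 i), funext fun i => Prod.ext (congrFun x.1.2 i)
      (congrFun x.2.2 i)⟩, fun R => rfl, fun x => rfl⟩

lemma sum_pairs (k : ℕ) : ∑ σ : Equiv.Perm (Fin k), ∑ τ : Equiv.Perm (Fin k),
    fixn α (σ * τ⁻¹) ^ 2 = k.factorial * (Fintype.card α ^ 2).ascFactorial k := by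
  have h1 : ∀ σ : Equiv.Perm (Fin k), ∑ τ : Equiv.Perm (Fin k), fixn α (σ * τ⁻¹) ^ 2 =
      (Fintype.card α ^ 2).ascFactorial k := by
    intro σ
    rw [sq (Fintype.card α), ← Fintype.card_prod, ← sum_fixn]
    rw [← Equiv.sum_comp ((Equiv.inv (Equiv.Perm (Fin k))).trans (Equiv.mulRight σ))]
    refine Finset.sum_congr rfl fun τ _ => ?_
    rw [fixn_prod]
    congr 2
    simp
  rw [Finset.sum_congr rfl fun σ _ => h1 σ, Finset.sum_const, Finset.card_univ,
    Fintype.card_perm, Fintype.card_fin, smul_eq_mul]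

end counting

/-- **the dimension of the span of the products of the pairs** -/
theorem rank_Phi {h : IsProj R π δ} (hδ : δ = -2 * n)
    (hN : ∀ (N : ℕ), ∀ x' ∈ KK h (N + 1), ¬ Good (fun c : Fin (N + 1) => if c = 0 then 0 else 0) x' ∧
      ¬ Good (fun c : Fin (N + 1) => if c = 0 then 2 * n + 2 else 0) x') (k : ℕ) :
    k.factorial * (Fintype.card (Let n)) ^ (2 * k) ≤
      Module.finrank ℚ (LinearMap.range (Phi h k)) * ((Fintype.card (Let n)) ^ 2).ascFactorial k := by
  classical
  choose ε hε1 hε2 using fun u : (Fin k → Let n) × (Fin k → Let n) => exists_eps hδ hN u.1 u.2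
  -- the functionals
  have hg : ∀ u, ∃ g : LinearMap.range (Phi h k) →ₗ[ℚ] ℚ,
      ∀ c : Equiv.Perm (Fin k) → ℚ, g ((Phi h k).rangeRestrict c) = ∑ σ, c σ * ε u σ := by
    intro u
    let Wu : (Equiv.Perm (Fin k) → ℚ) →ₗ[ℚ] ℚ := Fintype.linearCombination ℚ (ε u)
    have hWu : ∀ c, Wu c = ∑ σ, c σ * ε u σ := fun c => by
      rw [Fintype.linearCombination_apply]; rfl
    have hker : LinearMap.ker (Phi h k) ≤ LinearMap.ker Wu := by
      intro c hc
      rw [LinearMap.mem_ker, hWu]
      exact hε2 u c (Phi_ker h hc)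
    refine ⟨((LinearMap.ker (Phi h k)).liftQ Wu hker).comp
      (Phi h k).quotKerEquivRange.symm.toLinearMap, fun c => ?_⟩
    rw [← hWu, LinearMap.comp_apply]
    have h1 : (Phi h k).quotKerEquivRange.symm ((Phi h k).rangeRestrict c) =
        (LinearMap.ker (Phi h k)).mkQ c := by
      rw [LinearEquiv.symm_apply_eq]
      rfl
    rw [LinearEquiv.coe_coe, h1]
    rfl
  choose g hg using hg
  set ρ := Module.finrank ℚ (LinearMap.range (Phi h k)) with hρ
  let bs := Module.finBasis ℚ (LinearMap.range (Phi h k))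
  let W : Matrix (Equiv.Perm (Fin k)) ((Fin k → Let n) × (Fin k → Let n)) ℝ :=
    Matrix.of fun σ u => ((ε u σ : ℚ) : ℝ)
  let B : Matrix (Equiv.Perm (Fin k)) (Fin ρ) ℝ :=
    Matrix.of fun σ i => ((bs.repr ((Phi h k).rangeRestrict (Pi.single σ 1)) i : ℚ) : ℝ)
  let A : Matrix (Fin ρ) ((Fin k → Let n) × (Fin k → Let n)) ℝ :=
    Matrix.of fun i u => ((g u (bs i) : ℚ) : ℝ)
  have hW : W = B * A := by
    ext σ u
    rw [Matrix.mul_apply]
    have h1 : ε u σ = ∑ i, bs.repr ((Phi h k).rangeRestrict (Pi.single σ 1)) i * g u (bs i) := by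
      have h2 := hg u (Pi.single σ 1)
      rw [Finset.sum_eq_single σ (fun τ _ hτ => by rw [Pi.single_eq_of_ne hτ, zero_mul])
        (by simp), Pi.single_eq_same, one_mul] at h2
      rw [← h2]
      conv_lhs => rw [← bs.sum_repr ((Phi h k).rangeRestrict (Pi.single σ 1))]
      rw [map_sum]
      refine Finset.sum_congr rfl fun i _ => ?_
      rw [map_smul, smul_eq_mul]
    change ((ε u σ : ℚ) : ℝ) = ∑ i, ((_ : ℚ) : ℝ) * ((_ : ℚ) : ℝ)
    rw [h1]
    push_cast
    rfl
  have h1 := rank_bound W B A hW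
  -- the sum of the squares
  have h2 : ∑ σ, ∑ u, W σ u ^ 2 = (k.factorial * (Fintype.card (Let n)) ^ k : ℕ) := by
    have h3 : ∀ σ : Equiv.Perm (Fin k), ∑ u, W σ u ^ 2 = ((Fintype.card (Let n)) ^ k : ℕ) := by
      intro σ
      have h4 : ∀ u, W σ u ^ 2 = if u.1 = u.2 ∘ σ then (1 : ℝ) else 0 := by
        intro u
        split_ifs with hu
        · have := (hε1 u σ).1 hu
          change ((ε u σ : ℚ) : ℝ) ^ 2 = 1
          exact_mod_cast this
        · have := (hε1 u σ).2 hu
          change ((ε u σ : ℚ) : ℝ) ^ 2 = 0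
          rw [this]
          simp
      rw [Finset.sum_congr rfl fun u _ => h4 u, Fintype.sum_prod_type, Finset.sum_comm]
      have h5 : ∀ r : Fin k → Let n, ∑ l : Fin k → Let n, (if l = r ∘ σ then (1 : ℝ) else 0) = 1 := by
        intro r
        rw [Finset.sum_ite_eq' Finset.univ (r ∘ σ), if_pos (Finset.mem_univ _)]
      rw [Finset.sum_congr rfl fun r _ => h5 r, Finset.sum_const, Finset.card_univ,
        Fintype.card_fun, Fintype.card_fin]
      simp
    rw [Finset.sum_congr rfl fun σ _ => h3 σ, Finset.sum_const, Finset.card_univ,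
      Fintype.card_perm, Fintype.card_fin]
    push_cast
    rw [nsmul_eq_mul]
  -- the sum of the squares of the inner products
  have h3 : ∑ σ, ∑ τ, (∑ u, W σ u * W τ u) ^ 2 ≤
      (k.factorial * ((Fintype.card (Let n)) ^ 2).ascFactorial k : ℕ) := by
    have h4 : ∀ σ τ, (∑ u, W σ u * W τ u) ^ 2 ≤ ((fixn (Let n) (σ * τ⁻¹) ^ 2 : ℕ) : ℝ) := by
      intro σ τ
      have h5 : |∑ u, W σ u * W τ u| ≤ (fixn (Let n) (σ * τ⁻¹) : ℝ) := by
        refine (Finset.abs_sum_le_sum_abs _ _).trans ?_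
        have h6 : ∀ u, |W σ u * W τ u| = if u.1 = u.2 ∘ σ ∧ u.2 ∘ σ = u.2 ∘ τ then (1 : ℝ) else 0 := by
          intro u
          rw [abs_mul]
          have h7 : ∀ σ, |W σ u| = if u.1 = u.2 ∘ σ then (1 : ℝ) else 0 := by
            intro σ
            change |((ε u σ : ℚ) : ℝ)| = _
            split_ifs with hu
            · have h8 : ((ε u σ : ℚ) : ℝ) ^ 2 = 1 := by exact_mod_cast (hε1 u σ).1 hu
              rw [sq, mul_self_eq_one_iff] at h8
              rcases h8 with h8 | h8 <;> rw [h8] <;> simp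
            · rw [(hε1 u σ).2 hu]
              simp
          rw [h7, h7]
          by_cases h8 : u.1 = u.2 ∘ σ
          · rw [if_pos h8, one_mul]
            by_cases h9 : u.2 ∘ σ = u.2 ∘ τ
            · rw [if_pos (h8.trans h9), if_pos ⟨h8, h9⟩]
            · rw [if_neg (fun h => h9 (h8.symm.trans h)), if_neg (fun h => h9 h.2)]
          · rw [if_neg h8, zero_mul, if_neg (fun h => h8 h.1)]
        rw [Finset.sum_congr rfl fun u _ => h6 u, Fintype.sum_prod_type, Finset.sum_comm]
        have h5 : ∀ r : Fin k → Let n, ∑ l : Fin k → Let n,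
            (if l = r ∘ σ ∧ r ∘ σ = r ∘ τ then (1 : ℝ) else 0) =
              if r ∘ σ = r ∘ τ then 1 else 0 := by
          intro r
          by_cases h9 : r ∘ σ = r ∘ τ
          · simp only [h9, and_true, if_true]
            rw [Finset.sum_ite_eq' Finset.univ (r ∘ τ), if_pos (Finset.mem_univ _)]
          · simp [h9]
        rw [Finset.sum_congr rfl fun r _ => h5 r, Finset.sum_boole, ← card_comp_eq,
          Fintype.card_subtype]
      rw [Nat.cast_pow, ← sq_abs]
      exact pow_le_pow_left₀ (abs_nonneg _) h5 2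
    refine (Finset.sum_le_sum fun σ _ => Finset.sum_le_sum fun τ _ => h4 σ τ).trans ?_
    rw [← sum_pairs]
    push_cast
    exact le_rfl
  rw [h2] at h1
  have h4 := h1.trans (mul_le_mul_of_nonneg_left h3 (Nat.cast_nonneg ρ))
  have h5 : (k.factorial * (Fintype.card (Let n)) ^ k) ^ 2 ≤
      ρ * (k.factorial * ((Fintype.card (Let n)) ^ 2).ascFactorial k) := by
    exact_mod_cast h4
  have h6 : 0 < k.factorial := Nat.factorial_pos k
  refine Nat.le_of_mul_le_mul_left ?_ h6
  calc k.factorial * (k.factorial * Fintype.card (Let n) ^ (2 * k))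
      = (k.factorial * (Fintype.card (Let n)) ^ k) ^ 2 := by ring
    _ ≤ _ := h5
    _ = _ := by ring

/-- the case of dimension zero -/
theorem rank_Phi_zero {h : IsProj R π 0} (hπ : π ≠ 0) (k : ℕ) :
    16 ^ k ≤ Module.finrank ℚ (LinearMap.range (Phi h k)) * (k + 15).choose 15 := by
  have h1 := rank_Phi (n := 0) (h := h) (by simp) (never_ends hπ) k
  have h2 : Fintype.card (Let 0) = 4 := by
    simp [Let]
  rw [h2] at h1
  have h3 : (4 ^ 2).ascFactorial k = k.factorial * (k + 15).choose 15 := by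
    rw [show (4 : ℕ) ^ 2 = 15 + 1 by norm_num, Nat.ascFactorial_eq_factorial_mul_choose,
      Nat.add_comm 15 k, Nat.choose_symm_add]
  rw [h3, pow_mul, show (4 : ℕ) ^ 2 = 16 by norm_num] at h1
  refine Nat.le_of_mul_le_mul_left ?_ (Nat.factorial_pos k)
  calc k.factorial * 16 ^ k ≤ _ := h1
    _ = _ := by ring

end Pool.Agent.Run7.h570.GAP
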