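import Pool.Agent.Run7.h570.GAP.Close

set_option autoImplicit false
set_option linter.unusedSectionVars false

/-!
# The relations and their restitutions
-/

open MvPolynomial

universe u

namespace Pool.Agent.Run7.h570.GAP

variable {R : PowerRings.{u}} {π : R.A 2} {δ : ℚ}

/-- the relations which are linear in each of the `m` slots -/
def Rel (h : IsProj R π δ) (m : ℕ) : Submodule ℚ (Pol (Fin m)) where
  carrier := {f | Multi f ∧ h.ev m f = 0}
  add_mem' := fun hf hg => ⟨fun j => (hf.1 j).add (hg.1 j), by rw [map_add, hf.2, hg.2, add_zero]⟩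
  zero_mem' := ⟨fun j => HasWt.zero j 1, map_zero _⟩
  smul_mem' := fun c f hf => ⟨fun j => (hf.1 j).smul c, by rw [map_smul, hf.2, smul_zero]⟩

lemma Rel.equiv {h : IsProj R π δ} {m n : ℕ} {f : Pol (Fin m)} (hf : f ∈ Rel h m)
    (e : Fin m ≃ Fin n) : rn e f ∈ Rel h n :=
  ⟨hf.1.equiv e, by rw [h.ev_rn, hf.2, map_zero]⟩

lemma Rel.close {h : IsProj R π δ} {m : ℕ} {f : Pol (Fin (m + 2))} (hf : f ∈ Rel h (m + 2)) :
    ∃ g ∈ Rel h m, rn up g = cc δ (Fin.last m).castSucc (Fin.last (m + 1)) f := by
  obtain ⟨g, hg, hv⟩ := h.close hf.1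
  refine ⟨g, ⟨fun c => ?_, ?_⟩, hg⟩
  · refine HasWt.of_rn up_inj ?_
    rw [hg]
    have h1 := hf.1.cc_wt δ (a_ne_b (m := m)) (up c)
    rwa [if_neg (by
      rintro (h1 | h1)
      · exact up_ne_a c h1
      · exact up_ne_b c h1)] at h1
  · rw [← hv, hf.2, mul_zero, map_zero, map_zero]

/-- the restitutions of the relations -/
noncomputable def KK (h : IsProj R π δ) (N : ℕ) : Submodule ℚ (Pol (Fin N)) :=
  Submodule.span ℚ {x | ∃ (m : ℕ) (w : Fin m → Fin N) (f : Pol (Fin m)), f ∈ Rel h m ∧ x = rn w f}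

lemma mem_KK {h : IsProj R π δ} {m N : ℕ} (w : Fin m → Fin N) {f : Pol (Fin m)}
    (hf : f ∈ Rel h m) : rn w f ∈ KK h N := Submodule.subset_span ⟨m, w, f, hf, rfl⟩

lemma dd_add {J : Type*} [DecidableEq J] [Fintype J] (δ : ℚ) (b : J) (f g : Pol J) :
    dd δ b (f + g) = dd δ b f + dd δ b g := by
  simp only [dd, map_add, smul_add, Finset.sum_add_distrib]
  abel

lemma dd_smul {J : Type*} [DecidableEq J] [Fintype J] (δ : ℚ) (b : J) (c : ℚ) (f : Pol J) :
    dd δ b (c • f) = c • dd δ b f := by
  simp only [dd, Derivation.map_smul, smul_add, Finset.smul_sum, smul_comm c]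

lemma dd_zero {J : Type*} [DecidableEq J] [Fintype J] (δ : ℚ) (b : J) :
    dd δ b (0 : Pol J) = 0 := by
  simp [dd]

/-- the restitutions of the relations are stable under contractions -/
lemma dd_mem {h : IsProj R π δ} {N : ℕ} (b : Fin N) {x : Pol (Fin N)} (hx : x ∈ KK h N) :
    dd δ b x ∈ KK h N := by
  induction hx using Submodule.span_induction with
  | mem x hx =>
    obtain ⟨m, w, f, hf, rfl⟩ := hx
    rw [dd_rn]
    refine Submodule.sum_mem _ fun j _ => Submodule.sum_mem _ fun j' _ => ?_
    by_cases hj : j = j'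
    · subst hj
      rw [cc_self (hf.1 j), map_zero]
      exact Submodule.zero_mem _
    obtain ⟨m', rfl⟩ : ∃ m', m = m' + 2 := by
      refine ⟨m - 2, ?_⟩
      have h1 := j.2
      have h2 := j'.2
      have h3 : (j : ℕ) ≠ j' := fun h => hj (Fin.ext h)
      omega
    set a : Fin (m' + 2) := (Fin.last m').castSucc with ha
    set c : Fin (m' + 2) := Fin.last (m' + 1) with hc
    have hac : a ≠ c := a_ne_b
    let e : Fin (m' + 2) ≃ Fin (m' + 2) := (Equiv.swap j a).trans
      (Equiv.swap (Equiv.swap j a j') c)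
    have hx : Equiv.swap j a j' ≠ a := by
      intro h0
      have h1 : Equiv.swap j a j' = Equiv.swap j a j := by rw [h0, Equiv.swap_apply_left]
      exact hj ((Equiv.injective _ h1).symm)
    have e1 : e j = a := by
      change Equiv.swap (Equiv.swap j a j') c (Equiv.swap j a j) = a
      rw [Equiv.swap_apply_left, Equiv.swap_apply_of_ne_of_ne (Ne.symm hx) hac]
    have e2 : e j' = c := by
      change Equiv.swap (Equiv.swap j a j') c (Equiv.swap j a j') = c
      rw [Equiv.swap_apply_left]
    obtain ⟨g, hg, hg'⟩ := Rel.close (Rel.equiv hf e)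
    have h1 : rn w (cc δ j j' f) = rn (w ∘ e.symm ∘ up) g := by
      have h2 := cc_equiv δ e j j' f
      rw [e1, e2] at h2
      rw [← hg'] at h2
      have h3 : rn w (cc δ j j' f) = rn (w ∘ e.symm) (rn e (cc δ j j' f)) := by
        rw [rn_rn]
        congr 2
        ext i
        simp
      rw [h3, ← h2, rn_rn]
      rfl
    rw [h1]
    exact mem_KK _ hg
  | zero => rw [dd_zero]; exact Submodule.zero_mem _
  | add x y _ _ hx hy => rw [dd_add]; exact Submodule.add_mem _ hx hy
  | smul c x _ hx => rw [dd_smul]; exact Submodule.smul_mem _ c hx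

/-- stripping one index completely -/
lemma strip_one {h : IsProj R π δ} {N : ℕ} (b : Fin N) (k : ℕ) :
    ∀ (μ : Fin N → ℕ) (x : Pol (Fin N)), x ∈ KK h N → Good μ x → (∀ c, b < c → μ c = 0) →
    μ b = k → (∀ t : ℕ, 2 ≤ t → t ≤ k → Even t → δ - b + t - 2 ≠ 0) →
    ∃ x' ∈ KK h N, Good (fun c => if c = b then 0 else μ c) x' := by
  induction k using Nat.strong_induction_on with
  | _ k ih =>
    intro μ x hx H hb hk ht
    by_cases h0 : k = 0
    · refine ⟨x, hx, ?_⟩
      convert H using 1
      ext c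
      split_ifs with hc
      · rw [hc, hk, h0]
      · rfl
    · obtain ⟨h2, hG⟩ := H.step b hb (by rw [hk]; exact h0)
      -- the weight is even
      have heven : ∀ (k : ℕ) (μ : Fin N → ℕ) (x : Pol (Fin N)), Good μ x →
          (∀ c, b < c → μ c = 0) → μ b = k → Even k := by
        intro k
        induction k using Nat.strong_induction_on with
        | _ k ih =>
          intro μ x H hb hk
          by_cases h0 : k = 0
          · rw [h0]; exact Even.zero
          · obtain ⟨h2, hG⟩ := H.step b hb (by rw [hk]; exact h0)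
            have h3 := ih (k - 2) (by omega) _ _ hG (fun c hc => by
              rw [if_neg hc.ne', hb c hc]) (by rw [if_pos rfl, hk])
            obtain ⟨r, hr⟩ := h3
            exact ⟨r + 1, by omega⟩
      have h3 : nn b b x ∈ KK h N := by
        have h4 := dd_mem b hx
        rw [H.dd_eq δ b hb h2] at h4
        have h5 := ht k (by omega) le_rfl (heven k μ x H hb hk)
        rw [← hk] at h5
        have h6 := Submodule.smul_mem _ (δ - b + μ b - 2)⁻¹ h4
        rwa [smul_smul, inv_mul_cancel₀ h5, one_smul] at h6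
      obtain ⟨x', hx', hG'⟩ := ih (k - 2) (by omega) _ _ h3 hG
        (fun c hc => by rw [if_neg hc.ne', hb c hc]) (by rw [if_pos rfl, hk])
        (fun t h1 h2 h3 => ht t h1 (by omega) h3)
      refine ⟨x', hx', ?_⟩
      convert hG' using 1
      ext c
      split_ifs <;> rfl

/-- stripping all indices but the first one -/
lemma strip_all {h : IsProj R π δ} {N : ℕ} {μ : Fin (N + 1) → ℕ} {x : Pol (Fin (N + 1))}
    (hx : x ∈ KK h (N + 1)) (H : Good μ x)
    (ht : ∀ b : Fin (N + 1), b ≠ 0 → ∀ t : ℕ, 2 ≤ t → t ≤ μ b → Even t → δ - b + t - 2 ≠ 0) :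
    ∃ x' ∈ KK h (N + 1), Good (fun c => if c = 0 then μ 0 else 0) x' := by
  have key : ∀ k : ℕ, k ≤ N → ∃ x' ∈ KK h (N + 1),
      Good (fun c : Fin (N + 1) => if (c : ℕ) + k ≤ N then μ c else 0) x' := by
    intro k
    induction k with
    | zero =>
      intro _
      refine ⟨x, hx, ?_⟩
      convert H using 1
      ext c
      rw [if_pos (by omega)]
    | succ k ih =>
      intro hk
      obtain ⟨x', hx', H'⟩ := ih (by omega)
      obtain ⟨x'', hx'', H''⟩ := strip_one (⟨N - k, by omega⟩ : Fin (N + 1)) _ _ x' hx' H'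
        (fun c hc => if_neg (by rw [Fin.lt_def] at hc; simp at hc; omega)) rfl (by
          intro t h1 h2 h3
          rw [if_pos (by simp; omega)] at h2
          exact ht _ (fun h0 => by rw [Fin.ext_iff] at h0; simp at h0; omega) t h1 h2 h3)
      refine ⟨x'', hx'', ?_⟩
      convert H'' using 1
      ext c
      by_cases h1 : c = (⟨N - k, by omega⟩ : Fin (N + 1))
      · rw [if_pos h1, if_neg]
        rw [h1]
        simp
        omega
      · rw [if_neg h1]
        have h2 : (c : ℕ) ≠ N - k := fun h => h1 (Fin.ext h)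
        by_cases h3 : (c : ℕ) + k ≤ N
        · rw [if_pos h3, if_pos (by omega)]
        · rw [if_neg h3, if_neg (by omega)]
  obtain ⟨x', hx', H'⟩ := key N le_rfl
  refine ⟨x', hx', ?_⟩
  convert H' using 1
  ext c
  by_cases hc : c = 0
  · subst hc
    simp
  · rw [if_neg hc, if_neg]
    have : (c : ℕ) ≠ 0 := fun h => hc (Fin.ext h)
    omega

/-- stripping the first index -/
lemma strip_zero {h : IsProj R π δ} {N : ℕ} (n : ℕ) (hδ : δ = -2 * n) (k : ℕ) :
    ∀ (x : Pol (Fin (N + 1))), x ∈ KK h (N + 1) →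
    Good (fun c : Fin (N + 1) => if c = 0 then k else 0) x →
    ∃ x' ∈ KK h (N + 1), Good (fun c : Fin (N + 1) => if c = 0 then 0 else 0) x' ∨
      Good (fun c : Fin (N + 1) => if c = 0 then 2 * n + 2 else 0) x' := by
  induction k using Nat.strong_induction_on with
  | _ k ih =>
    intro x hx H
    by_cases h0 : k = 0
    · exact ⟨x, hx, Or.inl (by rw [h0] at H; exact H)⟩
    by_cases h1 : k = 2 * n + 2
    · exact ⟨x, hx, Or.inr (by rw [h1] at H; exact H)⟩
    · have hb : ∀ c : Fin (N + 1), 0 < c → (if c = 0 then k else 0) = 0 :=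
        fun c hc => if_neg hc.ne'
      obtain ⟨h2, hG⟩ := H.step 0 hb (by rw [if_pos rfl]; exact h0)
      rw [if_pos rfl] at h2
      have h3 : nn 0 0 x ∈ KK h (N + 1) := by
        have h4 := dd_mem 0 hx
        rw [H.dd_eq δ 0 hb (by rw [if_pos rfl]; exact h2), if_pos rfl] at h4
        have h5 : δ - ((0 : Fin (N + 1)) : ℕ) + k - 2 ≠ 0 := by
          rw [hδ]
          intro h5
          apply h1
          have h6 : (k : ℚ) = ((2 * n + 2 : ℕ) : ℚ) := by
            push_cast
            simp at h5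
            linarith
          exact_mod_cast h6
        have h6 := Submodule.smul_mem _ (δ - ((0 : Fin (N + 1)) : ℕ) + k - 2)⁻¹ h4
        rwa [smul_smul, inv_mul_cancel₀ h5, one_smul] at h6
      refine ih (k - 2) (by omega) _ h3 ?_
      convert hG using 1
      ext c
      by_cases hc : c = 0
      · rw [if_pos hc, if_pos hc, if_pos rfl]
      · rw [if_neg hc, if_neg hc, if_neg hc]

/-- a polynomial in the first index only -/
lemma Good.eq_pow {N k : ℕ} {x : Pol (Fin (N + 1))}
    (H : Good (fun c : Fin (N + 1) => if c = 0 then k else 0) x) :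
    ∃ r : ℕ, 2 * r = k ∧ ∃ q : ℚ, q ≠ 0 ∧ x = q • (X s(0, 0)) ^ r := by
  have h1 : ∀ d, coeff d x ≠ 0 → ∀ s, d s ≠ 0 → s = s(0, 0) := by
    intro d hd s hs
    have h2 : s ∈ x.vars := by
      rw [mem_vars_iff_mem_support]
      exact ⟨d, mem_support_iff.2 hd, Finsupp.mem_support_iff.2 hs⟩
    induction s with
    | _ p q =>
      have hp : p = 0 := by
        by_contra hp
        have := (H.wt p).le h2
        rw [if_neg hp, wt_mk, if_pos rfl] at this
        omega
      have hq : q = 0 := by
        by_contra hq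
        have := (H.wt q).le h2
        rw [if_neg hq, wt_mk, if_pos (rfl : q = q)] at this
        omega
      rw [hp, hq]
  obtain ⟨d, hd⟩ := MvPolynomial.ne_zero_iff.1 H.ne
  have h2 : ∀ d, coeff d x ≠ 0 → d = Finsupp.single s(0, 0) (d s(0, 0)) ∧ 2 * d s(0, 0) = k := by
    intro d hd
    have h3 : d = Finsupp.single s(0, 0) (d s(0, 0)) := by
      ext s
      by_cases hs : s = s(0, 0)
      · rw [hs, Finsupp.single_eq_same]
      · rw [Finsupp.single_eq_of_ne hs]
        by_contra h4
        exact hs (h1 d hd s h4)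
    refine ⟨h3, ?_⟩
    have h4 := H.wt 0 hd
    rw [if_pos rfl, h3, Finsupp.weight_apply, Finsupp.sum_single_index (by simp)] at h4
    rw [← h4]
    simp [mul_comm]
  refine ⟨d s(0, 0), (h2 d hd).2, coeff d x, hd, ?_⟩
  rw [X_pow_eq_monomial, smul_monomial, smul_eq_mul, mul_one]
  ext d'
  rw [coeff_monomial]
  split_ifs with h3
  · rw [← h3, ← (h2 d hd).1]
  · by_contra h4
    apply h3
    have h5 := h2 d' h4
    have h6 := h2 d hd
    rw [h5.1]
    congr 1
    omega

end Pool.Agent.Run7.h570.GAP
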