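import Pool.Agent.Run7.h570.GAP.Poly

set_option autoImplicit false
set_option linter.unusedSectionVars false

/-!
# Renaming the indices
-/

open MvPolynomial

namespace Pool.Agent.Run7.h570.GAP

variable {I J : Type*} [DecidableEq I] [DecidableEq J]

/-- renaming the indices -/
noncomputable abbrev rn (w : I → J) : Pol I →ₐ[ℚ] Pol J := rename (Sym2.map w)

lemma rn_X (w : I → J) (p q : I) : rn w (X s(p, q)) = X s(w p, w q) := rename_X _ _

lemma rn_rn {L : Type*} (w : I → J) (v : J → L) (f : Pol I) : rn v (rn w f) = rn (v ∘ w) f := by
  rw [rn, rn, rename_rename, ← Sym2.map_comp]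

lemma rn_id (f : Pol I) : rn id f = f := by
  rw [rn, Sym2.map_id, rename_id_apply]

lemma rn_congr {w v : I → J} {f : Pol I} (h : ∀ j, HasWt j f 0 ∨ w j = v j) : rn w f = rn v f := by
  have h1 : ((rn w : Pol I →ₐ[ℚ] Pol J) : Pol I →+* Pol J) f =
      ((rn v : Pol I →ₐ[ℚ] Pol J) : Pol I →+* Pol J) f := by
    refine hom_congr_vars ?_ ?_ rfl
    · ext1 r
      simp
    · intro s hs _
      induction s with
      | _ p q =>
        have h2 : ∀ j, wt j s(p, q) ≠ 0 → w j = v j := by
          intro j hj
          rcases h j with h3 | h3
          · exact absurd (h3.le hs) (by omega)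
          · exact h3
        have hp : w p = v p := h2 p (by simp)
        have hq : w q = v q := h2 q (by simp)
        simp [hp, hq]
  exact h1

section sums

variable [Fintype I]

/-- the chain rule -/
lemma nn_rn (w : I → J) (b i : J) (f : Pol I) :
    nn b i (rn w f) = ∑ j ∈ Finset.univ.filter (fun j => w j = b),
      ∑ p ∈ Finset.univ.filter (fun p => w p = i), rn w (nn j p f) := by
  induction f using MvPolynomial.induction_on with
  | C r => simp
  | add f g hf hg =>
    simp only [map_add, hf, hg, Finset.sum_add_distrib]
  | mul_X f s hf =>
    induction s with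
    | _ x y =>
      simp only [map_mul, Derivation.leibniz, hf, nn_X, rn_X, smul_eq_mul, nv_mk, map_add,
        Finset.sum_add_distrib, mul_add, ← Finset.mul_sum]
      congr 1
      · congr 1
        · congr 1
          by_cases h1 : w x = b
          · rw [Finset.sum_eq_single x]
            · by_cases h2 : w y = i
              · rw [Finset.sum_eq_single y]
                · simp [h1, h2]
                · intro p _ hp
                  simp [Ne.symm hp]
                · simp [h2]
              · rw [Finset.sum_eq_zero]
                · simp [h2]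
                · intro p hp
                  have : y ≠ p := by
                    rintro rfl
                    exact h2 (Finset.mem_filter.1 hp).2
                  simp [this]
            · intro j _ hj
              simp [Ne.symm hj]
            · simp [h1]
          · rw [Finset.sum_eq_zero]
            · simp [h1]
            · intro j hj
              have : x ≠ j := by
                rintro rfl
                exact h1 (Finset.mem_filter.1 hj).2
              simp [this]
        · congr 1
          by_cases h1 : w y = b
          · rw [Finset.sum_eq_single y]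
            · by_cases h2 : w x = i
              · rw [Finset.sum_eq_single x]
                · simp [h1, h2]
                · intro p _ hp
                  simp [Ne.symm hp]
                · simp [h2]
              · rw [Finset.sum_eq_zero]
                · simp [h2]
                · intro p hp
                  have : x ≠ p := by
                    rintro rfl
                    exact h2 (Finset.mem_filter.1 hp).2
                  simp [this]
            · intro j _ hj
              simp [Ne.symm hj]
            · simp [h1]
          · rw [Finset.sum_eq_zero]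
            · simp [h1]
            · intro j hj
              have : y ≠ j := by
                rintro rfl
                exact h1 (Finset.mem_filter.1 hj).2
              simp [this]

variable [Fintype J]

/-- polarization of a polynomial which is linear in each index -/
lemma ee_rn (w : I → J) (a b : J) (f : Pol I) (hf : ∀ j, w j = b → HasWt j f 1) :
    ee a b (rn w f) = ∑ j ∈ Finset.univ.filter (fun j => w j = b),
      rn (Function.update w j a) f := by
  rw [ee_apply]
  simp only [nn_rn, Finset.mul_sum]
  rw [Finset.sum_comm]
  refine Finset.sum_congr rfl fun j hj => ?_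
  have hj' := hf j (Finset.mem_filter.1 hj).2
  have h1 : ∑ i, ∑ p ∈ Finset.univ.filter (fun p => w p = i), X s(a, i) * rn w (nn j p f) =
      ∑ p, X s(a, w p) * rn w (nn j p f) := by
    rw [← Finset.sum_fiberwise Finset.univ w (fun p => X s(a, w p) * rn w (nn j p f))]
    refine Finset.sum_congr rfl fun i _ => Finset.sum_congr rfl fun p hp => ?_
    rw [(Finset.mem_filter.1 hp).2]
  rw [h1]
  have h2 := hj'.euler
  rw [Nat.cast_one, one_smul, ee_apply] at h2
  conv_rhs => rw [← h2]
  rw [map_sum]
  refine Finset.sum_congr rfl fun p _ => ?_
  rw [map_mul, rn_X, Function.update_self]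
  by_cases hp : p = j
  · subst hp
    rw [hj'.nn_eq_zero (b := p) (i := p) (by simp)]
    simp
  · rw [Function.update_of_ne hp]
    congr 1
    refine rn_congr fun i => ?_
    by_cases hi : i = j
    · left
      subst hi
      exact hj'.nn (by simp [hp])
    · right
      rw [Function.update_of_ne hi]

/-- contraction of the slots `j` and `j'` -/
noncomputable def cc (δ : ℚ) (j j' : I) (f : Pol I) : Pol I :=
  δ • nn j j' f + ∑ p, ∑ p', X s(p, p') * nn j p (nn j' p' f)

lemma cc_self {δ : ℚ} {j : I} {f : Pol I} (hf : HasWt j f 1) : cc δ j j f = 0 := by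
  rw [cc, hf.nn_eq_zero (b := j) (i := j) (by simp), smul_zero, zero_add]
  refine Finset.sum_eq_zero fun p _ => Finset.sum_eq_zero fun p' _ => ?_
  by_cases hp : p' = j
  · subst hp
    rw [hf.nn_eq_zero (b := p') (i := p') (by simp)]
    simp
  · have h1 : HasWt j (nn j p' f) 0 := hf.nn (by simp [hp])
    rw [h1.nn_eq_zero (b := j) (i := p) (by simp), mul_zero]

/-- the contraction of an index is the sum of the contractions of the pairs of slots -/
lemma dd_rn (δ : ℚ) (w : I → J) (b : J) (f : Pol I) :
    dd δ b (rn w f) = ∑ j ∈ Finset.univ.filter (fun j => w j = b),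
      ∑ j' ∈ Finset.univ.filter (fun j => w j = b), rn w (cc δ j j' f) := by
  have h1 : ∀ i i' : J, nn b i' (nn b i (rn w f)) =
      ∑ j ∈ Finset.univ.filter (fun j => w j = b), ∑ j' ∈ Finset.univ.filter (fun j => w j = b),
        ∑ p ∈ Finset.univ.filter (fun p => w p = i), ∑ p' ∈ Finset.univ.filter (fun p => w p = i'),
          rn w (nn j' p' (nn j p f)) := by
    intro i i'
    rw [nn_rn, map_sum]
    refine Finset.sum_congr rfl fun j _ => ?_
    rw [map_sum, Finset.sum_comm]
    refine Finset.sum_congr rfl fun p _ => ?_
    rw [nn_rn]
  have h2 : ∑ i, ee i b (nn b i (rn w f)) =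
      ∑ j ∈ Finset.univ.filter (fun j => w j = b), ∑ j' ∈ Finset.univ.filter (fun j => w j = b),
        ∑ p, ∑ p', rn w (X s(p, p') * nn j p (nn j' p' f)) := by
    have h3 : ∀ i, ee i b (nn b i (rn w f)) = ∑ j ∈ Finset.univ.filter (fun j => w j = b),
        ∑ j' ∈ Finset.univ.filter (fun j => w j = b), ∑ i', ∑ p ∈ Finset.univ.filter (fun p => w p = i),
        ∑ p' ∈ Finset.univ.filter (fun p => w p = i'), X s(i, i') * rn w (nn j' p' (nn j p f)) := by
      intro i
      rw [ee_apply]
      simp only [h1, Finset.mul_sum]
      rw [Finset.sum_comm]
      refine Finset.sum_congr rfl fun j _ => ?_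
      rw [Finset.sum_comm]
    simp only [h3]
    rw [Finset.sum_comm]
    refine Finset.sum_congr rfl fun j _ => ?_
    rw [Finset.sum_comm]
    refine Finset.sum_congr rfl fun j' _ => ?_
    rw [← Finset.sum_fiberwise Finset.univ w (fun p => ∑ p', rn w (X s(p, p') * nn j p (nn j' p' f)))]
    refine Finset.sum_congr rfl fun i _ => ?_
    rw [Finset.sum_comm]
    refine Finset.sum_congr rfl fun p hp => ?_
    rw [← Finset.sum_fiberwise Finset.univ w (fun p' => rn w (X s(p, p') * nn j p (nn j' p' f)))]
    refine Finset.sum_congr rfl fun i' _ => Finset.sum_congr rfl fun p' hp' => ?_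
    rw [map_mul, rn_X, (Finset.mem_filter.1 hp).2, (Finset.mem_filter.1 hp').2, nn_comm]
  rw [dd, h2, nn_rn, Finset.smul_sum, ← Finset.sum_add_distrib]
  refine Finset.sum_congr rfl fun j _ => ?_
  rw [Finset.smul_sum, ← Finset.sum_add_distrib]
  refine Finset.sum_congr rfl fun j' _ => ?_
  rw [cc, map_add, map_smul, map_sum]
  simp only [map_sum]

/-- naturality of the contraction -/
lemma cc_equiv (δ : ℚ) (e : I ≃ J) (j j' : I) (f : Pol I) :
    cc δ (e j) (e j') (rn e f) = rn e (cc δ j j' f) := by
  have h1 : ∀ (i p : I) (g : Pol I), nn (e i) (e p) (rn e g) = rn e (nn i p g) := by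
    intro i p g
    rw [nn_rn]
    simp [Finset.filter_eq']
  rw [cc, cc, h1, map_add, map_smul, map_sum, ← Equiv.sum_comp e]
  congr 1
  refine Finset.sum_congr rfl fun p _ => ?_
  rw [map_sum, ← Equiv.sum_comp e]
  refine Finset.sum_congr rfl fun p' _ => ?_
  rw [h1, h1, map_mul, rn_X]

end sums

end Pool.Agent.Run7.h570.GAP
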