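import Pool.Agent.Run7.h570.GAP.SmashGap

set_option autoImplicit false
set_option linter.unusedSectionVars false

/-!
# Schur functors and Kimura finiteness
-/

open MvPolynomial

universe u

namespace Pool.Agent.Run7.h570.GAP

variable {R : PowerRings.{u}} {π : R.A 2} {δ : ℚ} {n : ℕ}

/-- The class on `X ^ (2 k)` which is given by `π` and by the Young symmetrizer
`∑_p ∑_q sign(q) p q` of the tableau `T`: the number `i < k` stands in the row `(T i).1` and in the column
`(T i).2`, and `p` and `q` run through the permutations which preserve the rows and the columns. Up to a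
scalar it is the projector to the Schur functor `S_T (X, π)`. -/
noncomputable def young {R : PowerRings.{u}} (π : R.A 2) {k : ℕ} (T : Fin k → ℕ × ℕ) : R.A (k + k) :=
  ∑ p : Equiv.Perm (Fin k) with ∀ i, (T (p i)).1 = (T i).1,
    ∑ q : Equiv.Perm (Fin k) with ∀ i, (T (q i)).2 = (T i).2,
      ((Equiv.Perm.sign q : ℤ) : ℚ) • ∏ i, R.pull ![Fin.castAdd k i, Fin.natAdd k ((p * q) i)] π

/-- the coefficients of the Young symmetrizer -/
noncomputable def yc {k : ℕ} (T : Fin k → ℕ × ℕ) (σ : Equiv.Perm (Fin k)) : ℚ :=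
  ∑ p : Equiv.Perm (Fin k) with ∀ i, (T (p i)).1 = (T i).1,
    ∑ q : Equiv.Perm (Fin k) with ∀ i, (T (q i)).2 = (T i).2,
      if p * q = σ then ((Equiv.Perm.sign q : ℤ) : ℚ) else 0

lemma young_eq {k : ℕ} (T : Fin k → ℕ × ℕ) : young π T =
    ∑ σ, yc T σ • ∏ i, R.pull ![Fin.castAdd k i, Fin.natAdd k (σ i)] π := by
  simp only [yc, Finset.sum_smul, ite_smul, zero_smul]
  rw [young]
  symm
  rw [Finset.sum_comm]
  refine Finset.sum_congr rfl fun p _ => ?_
  rw [Finset.sum_comm]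
  refine Finset.sum_congr rfl fun q _ => ?_
  rw [Finset.sum_ite_eq, if_pos (Finset.mem_univ _)]

lemma yc_mul {k : ℕ} {T : Fin k → ℕ × ℕ} (hT : Function.Injective T) {g g' : Equiv.Perm (Fin k)}
    (hg : ∀ i, (T (g i)).1 = (T i).1) (hg' : ∀ i, (T (g' i)).2 = (T i).2) :
    yc T (g * g') = ((Equiv.Perm.sign g' : ℤ) : ℚ) := by
  have key : ∀ p q : Equiv.Perm (Fin k), (∀ i, (T (p i)).1 = (T i).1) →
      (∀ i, (T (q i)).2 = (T i).2) → p * q = g * g' → p = g ∧ q = g' := by
    intro p q hp hq he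
    have h1 : g⁻¹ * p = g' * q⁻¹ := by
      rw [eq_mul_inv_iff_mul_eq, mul_assoc, he, inv_mul_cancel_left]
    have hgi : ∀ i, (T (g⁻¹ i)).1 = (T i).1 := by
      intro i
      have := hg (g⁻¹ i)
      have h0 : g (g⁻¹ i) = i := by simp
      rw [h0] at this
      exact this.symm
    have hqi : ∀ i, (T (q⁻¹ i)).2 = (T i).2 := by
      intro i
      have := hq (q⁻¹ i)
      have h0 : q (q⁻¹ i) = i := by simp
      rw [h0] at this
      exact this.symm
    have h2 : g⁻¹ * p = 1 := by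
      ext1 i
      rw [Equiv.Perm.one_apply]
      apply hT
      refine Prod.ext ?_ ?_
      · rw [Equiv.Perm.mul_apply, hgi, hp]
      · rw [h1, Equiv.Perm.mul_apply, hg', hqi]
    have h3 : p = g := by
      rw [inv_mul_eq_one] at h2
      exact h2.symm
    refine ⟨h3, ?_⟩
    rw [h3] at he
    exact mul_left_cancel he
  rw [yc, Finset.sum_eq_single g, Finset.sum_eq_single g', if_pos rfl]
  · intro q hq hne
    rw [if_neg]
    intro he
    exact hne (key g q hg (Finset.mem_filter.1 hq).2 he).2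
  · intro h1
    exact absurd (Finset.mem_filter.2 ⟨Finset.mem_univ _, hg'⟩) h1
  · intro p hp hne
    refine Finset.sum_eq_zero fun q hq => ?_
    rw [if_neg]
    intro he
    exact hne (key p q (Finset.mem_filter.1 hp).2 (Finset.mem_filter.1 hq).2 he).1
  · intro h1
    exact absurd (Finset.mem_filter.2 ⟨Finset.mem_univ _, hg⟩) h1

/-- small Young symmetrizers do not act by zero on the tensor powers of the super space with
`2` even and `2 n + 2` odd dimensions -/
lemma not_superRel {k : ℕ} {T : Fin k → ℕ × ℕ} (hT : Function.Injective T)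
    (hs : ∀ i, 2 ≤ (T i).1 → (T i).2 < 2 * n + 2) :
    ¬ SuperRel (fun x : Fin (2 * n + 4) => decide (2 ≤ (x : ℕ))) (yc T) := by
  classical
  intro h
  let r : Fin k → Fin (2 * n + 4) := fun i =>
    if h : 2 ≤ (T i).1 then ⟨2 + (T i).2, by have := hs i h; omega⟩ else ⟨(T i).1, by omega⟩
  have r1 : ∀ i, 2 ≤ (T i).1 → (r i : ℕ) = 2 + (T i).2 := fun i hi => by simp [r, hi]
  have r2 : ∀ i, ¬ 2 ≤ (T i).1 → (r i : ℕ) = (T i).1 := fun i hi => by simp [r, hi]
  have r3 : ∀ i, 2 ≤ (r i : ℕ) ↔ 2 ≤ (T i).1 := by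
    intro i
    by_cases hi : 2 ≤ (T i).1
    · rw [r1 i hi]
      exact ⟨fun _ => hi, fun _ => by omega⟩
    · rw [r2 i hi]
  have h1 := h r 1
  have h2 : ∀ g ∈ Finset.univ.filter (fun g : Equiv.Perm (Fin k) => ∀ j, r (g j) = r j ∧
      (decide (2 ≤ (r j : ℕ)) = true → g j = j)),
      ∑ g' : Equiv.Perm (Fin k) with ∀ j, r (g' j) = r j ∧ (decide (2 ≤ (r j : ℕ)) = false → g' j = j),
        ((Equiv.Perm.sign g' : ℤ) : ℚ) * yc T (g * g' * 1) =
      ∑ g' : Equiv.Perm (Fin k) with ∀ j, r (g' j) = r j ∧ (decide (2 ≤ (r j : ℕ)) = false → g' j = j),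
        (1 : ℚ) := by
    intro g hg
    refine Finset.sum_congr rfl fun g' hg' => ?_
    have hg1 := (Finset.mem_filter.1 hg).2
    have hg2 := (Finset.mem_filter.1 hg').2
    rw [mul_one, yc_mul hT, ← Int.cast_mul, ← Units.val_mul, Int.units_mul_self, Units.val_one,
      Int.cast_one]
    · intro i
      by_cases hi : 2 ≤ (r i : ℕ)
      · rw [(hg1 i).2 (decide_eq_true hi)]
      · have h3 : r (g i) = r i := (hg1 i).1
        have h4 : ¬ 2 ≤ (r (g i) : ℕ) := by rw [h3]; exact hi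
        have h5 := congrArg Fin.val h3
        rw [r2 _ (fun h => h4 ((r3 _).2 h)), r2 _ (fun h => hi ((r3 _).2 h))] at h5
        exact h5
    · intro i
      by_cases hi : 2 ≤ (r i : ℕ)
      · have h3 : r (g' i) = r i := (hg2 i).1
        have h4 : 2 ≤ (r (g' i) : ℕ) := by rw [h3]; exact hi
        have h5 := congrArg Fin.val h3
        rw [r1 _ ((r3 _).1 h4), r1 _ ((r3 _).1 hi)] at h5
        omega
      · rw [(hg2 i).2 (decide_eq_false hi)]
  have h3 := (Finset.sum_congr rfl h2).symm.trans h1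
  rw [Finset.sum_const, Finset.sum_const, smul_smul, nsmul_eq_mul, mul_one] at h3
  have m1 : (1 : Equiv.Perm (Fin k)) ∈ Finset.univ.filter (fun g : Equiv.Perm (Fin k) =>
      ∀ j, r (g j) = r j ∧ (decide (2 ≤ (r j : ℕ)) = true → g j = j)) :=
    Finset.mem_filter.2 ⟨Finset.mem_univ _, fun j => ⟨rfl, fun _ => rfl⟩⟩
  have m2 : (1 : Equiv.Perm (Fin k)) ∈ Finset.univ.filter (fun g : Equiv.Perm (Fin k) =>
      ∀ j, r (g j) = r j ∧ (decide (2 ≤ (r j : ℕ)) = false → g j = j)) :=
    Finset.mem_filter.2 ⟨Finset.mem_univ _, fun j => ⟨rfl, fun _ => rfl⟩⟩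
  have h4 := Nat.cast_eq_zero.1 h3
  rcases Nat.mul_eq_zero.1 h4 with h5 | h5
  · exact Finset.ne_empty_of_mem m1 (Finset.card_eq_zero.1 h5)
  · exact Finset.ne_empty_of_mem m2 (Finset.card_eq_zero.1 h5)

variable {b : ℕ} {a : Fin b → R.A 1} {G : Matrix (Fin b) (Fin b) ℚ}

/-- **Small Schur functors decide Kimura finiteness.** -/
theorem PreTate.schur (h : PreTate R a G) (n : ℕ)
    (he : R.push (R.push (R.diag * R.diag)) = algebraMap ℚ (R.A 0) (b - 2 * n))
    {k : ℕ} {T : Fin k → ℕ × ℕ} (hT : Function.Injective T)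
    (hs : ∀ i, 2 ≤ (T i).1 → (T i).2 < 2 * n + 2) (hy : SmashNil R (young (tr R a G) T)) :
    sym (tr R a G) (2 * n + 1) = 0 := by
  obtain ⟨h1, h2⟩ := h.smashGap n he
  by_contra h3
  have h4 : ¬ SmashNil R (haf (tr R a G) (n + 1)) := fun h5 => h3 ((h1.out 1 2).1 h5)
  rw [young_eq] at hy
  exact not_superRel hT hs ((h2 h4).2.1 k _ hy)

/-- the symmetric power is the Schur functor of a row -/
lemma young_row (π : R.A 2) (N : ℕ) : young π (fun i : Fin N => ((0 : ℕ), (i : ℕ))) = sym π N := by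
  rw [young, sym]
  have h1 : (Finset.univ.filter fun q : Equiv.Perm (Fin N) => ∀ i, ((q i : Fin N) : ℕ) = (i : ℕ)) =
      {1} := by
    ext q
    rw [Finset.mem_filter, Finset.mem_singleton]
    constructor
    · rintro ⟨-, hq⟩
      ext1 i
      exact Fin.ext (hq i)
    · rintro rfl
      exact ⟨Finset.mem_univ _, fun _ => rfl⟩
  have h2 : (Finset.univ.filter fun p : Equiv.Perm (Fin N) => ∀ _ : Fin N, (0 : ℕ) = 0) =
      Finset.univ := Finset.filter_true_of_mem fun p _ => fun _ => rfl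
  change ∑ p ∈ Finset.univ.filter (fun p : Equiv.Perm (Fin N) => ∀ _ : Fin N, (0 : ℕ) = 0),
    ∑ q ∈ Finset.univ.filter (fun q : Equiv.Perm (Fin N) => ∀ i, ((q i : Fin N) : ℕ) = (i : ℕ)), _ = _
  rw [h2]
  refine Finset.sum_congr rfl fun p _ => ?_
  rw [h1, Finset.sum_singleton]
  simp

/-- **Schur functors and Kimura finiteness.** -/
theorem PreTate.schur_tfae (h : PreTate R a G) (n : ℕ)
    (he : R.push (R.push (R.diag * R.diag)) = algebraMap ℚ (R.A 0) (b - 2 * n)) :
    [sym (tr R a G) (2 * n + 1) = 0,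
      ∃ (k : ℕ) (T : Fin k → ℕ × ℕ), Function.Injective T ∧ IsLowerSet (Set.range T) ∧
        (2, 2 * n + 2) ∉ Set.range T ∧ SmashNil R (young (tr R a G) T),
      ∃ k < 6 * n + 9, ∃ T : Fin k → ℕ × ℕ, Function.Injective T ∧ IsLowerSet (Set.range T) ∧
        SmashNil R (young (tr R a G) T)].TFAE := by
  tfae_have 1 → 3 := fun h1 => by
    refine ⟨2 * n + 1, by omega, fun i => (0, (i : ℕ)), ?_, ?_, ?_⟩
    · intro i j hij
      exact Fin.ext (congrArg Prod.snd hij)
    · rintro x y hxy ⟨i, rfl⟩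
      have h3 : y.1 ≤ 0 := hxy.1
      have h4 : y.2 ≤ i := hxy.2
      exact ⟨⟨y.2, by have := i.2; omega⟩, Prod.ext (Nat.le_zero.1 h3).symm rfl⟩
    · rw [young_row, h1]
      exact smashNil_zero
  tfae_have 3 → 2 := fun ⟨k, hk, T, hT, hl, hy⟩ => by
    refine ⟨k, T, hT, hl, fun hc => ?_, hy⟩
    have h1 : ∀ x : Fin 3 × Fin (2 * n + 3), ((x.1 : ℕ), (x.2 : ℕ)) ∈ Set.range T := by
      intro x
      refine hl ⟨?_, ?_⟩ hc
      · have := x.1.2
        change (x.1 : ℕ) ≤ 2
        omega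
      · have := x.2.2
        change (x.2 : ℕ) ≤ 2 * n + 2
        omega
    choose f hf using h1
    have h2 : Function.Injective f := by
      intro x y hxy
      have h3 := (hf x).symm.trans ((congrArg T hxy).trans (hf y))
      exact Prod.ext (Fin.ext (congrArg Prod.fst h3)) (Fin.ext (congrArg Prod.snd h3))
    have h3 := Fintype.card_le_of_injective f h2
    simp only [Fintype.card_prod, Fintype.card_fin] at h3
    omega
  tfae_have 2 → 1 := fun ⟨k, T, hT, hl, hc, hy⟩ => by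
    refine h.schur n he hT (fun i hi => ?_) hy
    by_contra h2
    exact hc (hl (show ((2, 2 * n + 2) : ℕ × ℕ) ≤ T i from ⟨hi, not_lt.1 h2⟩) ⟨i, rfl⟩)
  tfae_finish

end Pool.Agent.Run7.h570.GAP
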