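import Pool.Agent.Run7.h570.GAP.Tate

set_option autoImplicit false
set_option linter.unusedSectionVars false

/-!
# Classes which are transcendental in a factor
-/

open MvPolynomial

universe u

namespace Pool.Agent.Run7.h570.GAP

variable {R : PowerRings.{u}} {b : ℕ} {a : Fin b → R.A 1} {G : Matrix (Fin b) (Fin b) ℚ}

/-- replace the factor `s` by the new last factor -/
def sb {n : ℕ} (s : Fin n) : Fin n → Fin (n + 1) := Function.update Fin.castSucc s (Fin.last n)

lemma sb_self {n : ℕ} (s : Fin n) : sb s s = Fin.last n := Function.update_self ..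

lemma sb_ne {n : ℕ} {s t : Fin n} (h : t ≠ s) : sb s t = t.castSucc := Function.update_of_ne h ..

/-- `y` is transcendental in the factor `s` -/
def Tt (a : Fin b → R.A 1) {n : ℕ} (s : Fin n) (y : R.A n) : Prop :=
  ∀ i, R.push (R.pull (sb s) y * R.on (Fin.last n) (a i)) = 0

lemma Tt.add {n : ℕ} {s : Fin n} {y z : R.A n} (hy : Tt a s y) (hz : Tt a s z) :
    Tt a s (y + z) := by
  intro i
  rw [map_add, add_mul, map_add, hy, hz, add_zero]

lemma Tt.zero {n : ℕ} (s : Fin n) : Tt a s (0 : R.A n) := by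
  intro i
  rw [map_zero, zero_mul, map_zero]

lemma Tt.smul {n : ℕ} {s : Fin n} {y : R.A n} (hy : Tt a s y) (c : ℚ) : Tt a s (c • y) := by
  intro i
  rw [map_smul, smul_mul_assoc, map_smul, hy, smul_zero]

lemma Tt.pull {n m : ℕ} {s : Fin n} {y : R.A n} (hy : Tt a s y) {φ : Fin n → Fin m}
    (hφ : Function.Injective φ) : Tt a (φ s) (R.pull φ y) := by
  intro i
  have h1 : sb (φ s) ∘ φ = ext φ ∘ sb s := by
    ext1 t
    by_cases ht : t = s
    · subst ht
      rw [Function.comp_apply, Function.comp_apply, sb_self, sb_self, ext_last]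
    · rw [Function.comp_apply, Function.comp_apply, sb_ne ht, sb_ne (fun h => ht (hφ h)),
        ext_castSucc]
  have h2 : R.on (Fin.last m) (a i) = R.pull (ext φ) (R.on (Fin.last n) (a i)) := by
    rw [pull_on, ext_last]
  rw [← R.pull_comp, h1, R.pull_comp, h2, ← map_mul, R.push_pull, hy, map_zero]

/-- `w` does not depend on the factor `s` -/
def Free {n : ℕ} (s : Fin n) (w : R.A n) : Prop := R.pull (sb s) w = R.pull Fin.castSucc w

lemma Free.mul {n : ℕ} {s : Fin n} {w z : R.A n} (hw : Free s w) (hz : Free s z) :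
    Free s (w * z) := by
  rw [Free, map_mul, map_mul, hw, hz]

lemma Free.prod {ι : Type*} {n : ℕ} {s : Fin n} {S : Finset ι} {w : ι → R.A n}
    (hw : ∀ i ∈ S, Free s (w i)) : Free s (∏ i ∈ S, w i) := by
  rw [Free, map_prod, map_prod]
  exact Finset.prod_congr rfl hw

lemma Free.on {n : ℕ} {s t : Fin n} (h : t ≠ s) (x : R.A 1) : Free s (R.on t x) := by
  rw [Free, pull_on, pull_on, sb_ne h]

lemma Free.two {n : ℕ} {s p q : Fin n} (hp : p ≠ s) (hq : q ≠ s) (x : R.A 2) :
    Free s (R.pull ![p, q] x) := by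
  rw [Free, pull_two_comp, pull_two_comp, sb_ne hp, sb_ne hq]

lemma Tt.mul_free {n : ℕ} {s : Fin n} {y w : R.A n} (hy : Tt a s y) (hw : Free s w) :
    Tt a s (y * w) := by
  intro i
  rw [map_mul (R.pull _), hw, mul_right_comm, push_mul', hy, zero_mul]

lemma PreTate.Tt_two (h : PreTate R a G) {n : ℕ} {p q : Fin n} (hpq : p ≠ q) :
    Tt a p (R.pull ![p, q] (tr R a G)) := by
  intro i
  have h1 : R.pull ![p, q] (tr R a G) = R.pull ![q, p] (tr R a G) := by
    conv_lhs => rw [← h.tr_symm]
    rw [pull_two_comp]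
    rfl
  rw [h1, pull_two_comp, sb_self, sb_ne hpq.symm, mul_comm, push_two_on, h.push_tr,
    map_zero]

lemma PreTate.Tt_mul (h : PreTate R a G) {n : ℕ} {p q : Fin n} (hpq : p ≠ q) {w : R.A n}
    (hw : Free p w) : Tt a p (R.pull ![p, q] (tr R a G) * w) := (h.Tt_two hpq).mul_free hw

/-- the products of the pairs are transcendental in all factors -/
lemma PreTate.Tt_xs (h : PreTate R a G) {δ : ℚ} (hp : IsProj R (tr R a G) δ) {k : ℕ}
    (σ : Equiv.Perm (Fin k)) (s : Fin (k + k)) : Tt a s (hp.ev (k + k) (xs σ)) := by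
  have h1 : hp.ev (k + k) (xs σ) = ∏ i, R.pull ![lf i, rt (σ i)] (tr R a G) := by
    rw [xs, map_prod]
    exact Finset.prod_congr rfl fun i _ => hp.ev_X _ _
  rw [h1]
  induction s using slot_cases with
  | hl i₀ =>
    rw [← Finset.mul_prod_erase Finset.univ _ (Finset.mem_univ i₀)]
    refine h.Tt_mul (lf_ne_rt _ _) (Free.prod fun i hi => Free.two ?_ (lf_ne_rt _ _).symm _)
    exact fun h2 => (Finset.mem_erase.1 hi).1 (lf_inj h2)
  | hr j =>
    obtain ⟨i₀, rfl⟩ := σ.surjective j
    rw [← Finset.mul_prod_erase Finset.univ _ (Finset.mem_univ i₀), hp.swap]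
    refine h.Tt_mul (lf_ne_rt _ _).symm (Free.prod fun i hi => Free.two (lf_ne_rt _ _) ?_ _)
    exact fun h2 => (Finset.mem_erase.1 hi).1 (σ.injective (rt_inj h2))

/-- the last factor -/
lemma PreTate.Tt_last (h : PreTate R a G) {n : ℕ} {y : R.A (n + 1)} (hy : Tt a (Fin.last n) y)
    (i : Fin b) : R.push (y * R.on (Fin.last n) (a i)) = 0 := by
  have h1 : sb (Fin.last n) = ext (Fin.castSucc : Fin n → Fin (n + 1)) := by
    ext1 t
    refine Fin.lastCases ?_ (fun t => ?_) t
    · rw [sb_self, ext_last]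
    · rw [sb_ne (Fin.castSucc_lt_last t).ne, ext_castSucc]
  have h2 : R.on (Fin.last (n + 1)) (a i) =
      R.pull (ext (Fin.castSucc : Fin n → Fin (n + 1))) (R.on (Fin.last n) (a i)) := by
    rw [pull_on, ext_last]
  have h3 := hy i
  rw [h1, h2, ← map_mul, R.push_pull] at h3
  have h4 := push_on (R.push (y * R.on (Fin.last n) (a i))) (a i * dl R a G i) (h.dual i i)
  rw [h3, zero_mul, map_zero, if_pos rfl, one_smul] at h4
  exact h4.symm

lemma PreTate.Tt_last_dl (h : PreTate R a G) {n : ℕ} {y : R.A (n + 1)} (hy : Tt a (Fin.last n) y)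
    (i : Fin b) : R.push (y * R.on (Fin.last n) (dl R a G i)) = 0 := by
  rw [dl, map_sum, Finset.mul_sum, map_sum]
  refine Finset.sum_eq_zero fun j _ => ?_
  rw [map_smul, mul_smul_comm, map_smul, h.Tt_last hy, smul_zero]

/-- The products of disjoint diagonals `Δ_(i, j)` and classes `a_i`: each factor of the power occurs
in exactly one factor of the product. -/
inductive IsProduct (R : PowerRings.{u}) {b : ℕ} (a : Fin b → R.A 1) : ∀ n : ℕ, R.A n → Prop
  | one : IsProduct R a 0 1
  | cls {n : ℕ} {z : R.A n} (hz : IsProduct R a n z) (i : Fin b) :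
      IsProduct R a (n + 1) (R.pull Fin.castSucc z * R.pull (fun _ => Fin.last n) (a i))
  | dia {n : ℕ} {z : R.A n} (hz : IsProduct R a n z) :
      IsProduct R a (n + 2) (R.pull (Fin.castSucc ∘ Fin.castSucc) z *
        R.pull ![(Fin.last n).castSucc, Fin.last (n + 1)] R.diag)
  | perm {n m : ℕ} {z : R.A n} (hz : IsProduct R a n z) (e : Fin n ≃ Fin m) :
      IsProduct R a m (R.pull e z)

/-- the linear combinations of the products -/
def EE (R : PowerRings.{u}) {b : ℕ} (a : Fin b → R.A 1) (n : ℕ) : Submodule ℚ (R.A n) :=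
  Submodule.span ℚ {z | IsProduct R a n z}

lemma EE.map_of {n m : ℕ} (F : R.A n →ₗ[ℚ] R.A m)
    (hF : ∀ z, IsProduct R a n z → F z ∈ EE R a m) {z : R.A n} (hz : z ∈ EE R a n) :
    F z ∈ EE R a m := by
  induction hz using Submodule.span_induction with
  | mem z hz => exact hF z hz
  | zero => rw [map_zero]; exact Submodule.zero_mem _
  | add x y _ _ hx hy => rw [map_add]; exact Submodule.add_mem _ hx hy
  | smul c x _ hx => rw [map_smul]; exact Submodule.smul_mem _ c hx

lemma EE.cls {n : ℕ} {z : R.A n} (hz : z ∈ EE R a n) (i : Fin b) :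
    R.pull Fin.castSucc z * R.on (Fin.last n) (a i) ∈ EE R a (n + 1) := by
  refine EE.map_of ((LinearMap.mulRight ℚ (R.on (Fin.last n) (a i))).comp
    (R.pull Fin.castSucc).toLinearMap) (fun z hz => ?_) hz
  exact Submodule.subset_span (IsProduct.cls hz i)

lemma EE.perm {n m : ℕ} {z : R.A n} (hz : z ∈ EE R a n) (e : Fin n ≃ Fin m) :
    R.pull e z ∈ EE R a m := by
  refine EE.map_of (R.pull e).toLinearMap (fun z hz => ?_) hz
  exact Submodule.subset_span (IsProduct.perm hz e)

lemma EE.dia {n : ℕ} {z : R.A n} (hz : z ∈ EE R a n) :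
    R.pull (Fin.castSucc ∘ Fin.castSucc) z *
      R.pull ![(Fin.last n).castSucc, Fin.last (n + 1)] R.diag ∈ EE R a (n + 2) := by
  refine EE.map_of ((LinearMap.mulRight ℚ (R.pull ![(Fin.last n).castSucc, Fin.last (n + 1)]
    R.diag)).comp (R.pull (Fin.castSucc ∘ Fin.castSucc)).toLinearMap) (fun z hz => ?_) hz
  exact Submodule.subset_span (IsProduct.dia hz)

lemma EE.tr {n : ℕ} {z : R.A n} (hz : z ∈ EE R a n) :
    R.pull (Fin.castSucc ∘ Fin.castSucc) z *
      R.pull ![(Fin.last n).castSucc, Fin.last (n + 1)] (tr R a G) ∈ EE R a (n + 2) := by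
  rw [GAP.tr, map_sub, mul_sub]
  refine Submodule.sub_mem _ (EE.dia hz) ?_
  rw [tt, map_sum, Finset.mul_sum]
  refine Submodule.sum_mem _ fun i _ => ?_
  rw [map_sum, Finset.mul_sum]
  refine Submodule.sum_mem _ fun j _ => ?_
  rw [map_smul, mul_smul_comm, map_mul, pull_on, pull_on, ← mul_assoc, R.pull_comp]
  have h1 : R.on (![(Fin.last n).castSucc, Fin.last (n + 1)] 0) (a i) =
      R.pull Fin.castSucc (R.on (Fin.last n) (a i)) := by
    rw [pull_on]
    rfl
  rw [h1, ← map_mul]
  exact Submodule.smul_mem _ _ (EE.cls (EE.cls hz i) j)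

/-- the products of disjoint pairs -/
lemma EE.pairs {k : ℕ} : ∀ {n : ℕ} (_ : n = k + k) (p q : Fin k → Fin n)
    (_ : Function.Injective p) (_ : Function.Injective q) (_ : ∀ i j, p i ≠ q j),
    ∏ i, R.pull ![p i, q i] (GAP.tr R a G) ∈ EE R a n := by
  induction k with
  | zero =>
    intro n hn p q _ _ _
    subst hn
    rw [Finset.univ_eq_empty, Finset.prod_empty]
    exact Submodule.subset_span IsProduct.one
  | succ k ih =>
    intro n hn p q hp hq hpq
    have h1 := ih (n := k + k) rfl (Fin.castAdd k) (Fin.natAdd k) (Fin.castAdd_injective _ _)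
      (Fin.natAdd_injective _ _) (fun i j => lf_ne_rt i j)
    have h2 := EE.tr (G := G) h1
    let f : Fin (k + k + 1 + 1) → Fin n := Fin.snoc (α := fun _ => Fin n)
      (Fin.snoc (α := fun _ => Fin n) (Fin.append (fun i => p i.castSucc) (fun i => q i.castSucc))
        (p (Fin.last k))) (q (Fin.last k))
    have f1 : ∀ i : Fin k, f (Fin.castAdd k i).castSucc.castSucc = p i.castSucc := by
      intro i
      simp only [f, Fin.snoc_castSucc, Fin.append_left]
    have f2 : ∀ i : Fin k, f (Fin.natAdd k i).castSucc.castSucc = q i.castSucc := by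
      intro i
      simp only [f, Fin.snoc_castSucc, Fin.append_right]
    have f3 : f (Fin.last (k + k)).castSucc = p (Fin.last k) := by
      simp only [f, Fin.snoc_castSucc, Fin.snoc_last]
    have f4 : f (Fin.last (k + k + 1)) = q (Fin.last k) := by
      simp only [f, Fin.snoc_last]
    have hf : Function.Surjective f := by
      have h3 : Finset.image p Finset.univ ∪ Finset.image q Finset.univ = Finset.univ := by
        rw [← Finset.card_eq_iff_eq_univ, Finset.card_union_of_disjoint,
          Finset.card_image_of_injective _ hp, Finset.card_image_of_injective _ hq]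
        · simp [hn]
        · rw [Finset.disjoint_left]
          intro x hx hx'
          obtain ⟨i, _, rfl⟩ := Finset.mem_image.1 hx
          obtain ⟨j, _, hj⟩ := Finset.mem_image.1 hx'
          exact hpq i j hj.symm
      intro y
      have h4 : y ∈ Finset.image p Finset.univ ∪ Finset.image q Finset.univ := by
        rw [h3]; exact Finset.mem_univ y
      rcases Finset.mem_union.1 h4 with h5 | h5
      · obtain ⟨i, _, rfl⟩ := Finset.mem_image.1 h5
        refine Fin.lastCases ⟨_, f3⟩ (fun i => ⟨_, f1 i⟩) i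
      · obtain ⟨i, _, rfl⟩ := Finset.mem_image.1 h5
        refine Fin.lastCases ⟨_, f4⟩ (fun i => ⟨_, f2 i⟩) i
    have hb : Function.Bijective f :=
      (Fintype.bijective_iff_surjective_and_card f).2 ⟨hf, by simp; omega⟩
    have h3 := EE.perm h2 (Equiv.ofBijective f hb)
    rw [map_mul, map_prod, map_prod, Equiv.coe_ofBijective, pull_two_comp, f3, f4] at h3
    rw [Fin.prod_univ_castSucc]
    convert h3 using 2
    refine Finset.prod_congr rfl fun i _ => ?_
    rw [pull_two_comp, pull_two_comp, Function.comp_apply, Function.comp_apply, f1, f2]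

lemma xs_mem {δ : ℚ} (hp : IsProj R (tr R a G) δ) {k : ℕ} (σ : Equiv.Perm (Fin k)) :
    hp.ev (k + k) (xs σ) ∈ EE R a (k + k) := by
  have h1 : hp.ev (k + k) (xs σ) = ∏ i, R.pull ![lf i, rt (σ i)] (tr R a G) := by
    rw [xs, map_prod]
    exact Finset.prod_congr rfl fun i _ => hp.ev_X _ _
  rw [h1]
  exact EE.pairs rfl _ _ (fun i j hij => lf_inj hij)
    (fun i j hij => σ.injective (rt_inj hij)) (fun i j => lf_ne_rt _ _)

end Pool.Agent.Run7.h570.GAP
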