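import Pool.Agent.Run7.h570.GAP.OddMain
import Pool.Agent.Run7.h570.GAP.Corr

set_option autoImplicit false
set_option linter.unusedSectionVars false

/-!
# Smash-nilpotent cycles and the gap theorem
-/

open MvPolynomial

universe u

namespace Pool.Agent.Run7.h570.GAP

variable {R : PowerRings.{u}}

/-- The exterior power `x × x × ⋯ × x` with `N` factors, a class on `X ^ (N * m)` for `x` a class on
`X ^ m`. -/
noncomputable def PowerRings.extPow (R : PowerRings.{u}) {m : ℕ} (x : R.A m) (N : ℕ) : R.A (N * m) :=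
  ∏ j : Fin N, R.pull (fun i => finProdFinEquiv (j, i)) x

/-- `x` is smash-nilpotent: `x × x × ⋯ × x = 0` for some number of factors. -/
def SmashNil (R : PowerRings.{u}) {m : ℕ} (x : R.A m) : Prop :=
  ∃ N : ℕ, 1 ≤ N ∧ R.extPow x N = 0

lemma prod_of_extPow {m N : ℕ} {x : R.A m} (hx : R.extPow x N = 0) {n : ℕ}
    (φ : Fin N → Fin m → Fin n) : ∏ j, R.pull (φ j) x = 0 := by
  have h1 := congrArg (R.pull fun p : Fin (N * m) =>
    φ (finProdFinEquiv.symm p).1 (finProdFinEquiv.symm p).2) hx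
  rw [PowerRings.extPow, map_prod, map_zero] at h1
  rw [← h1]
  refine Finset.prod_congr rfl fun j _ => ?_
  rw [← R.pull_comp]
  congr 2
  ext1 i
  change φ j i = φ (finProdFinEquiv.symm (finProdFinEquiv (j, i))).1
    (finProdFinEquiv.symm (finProdFinEquiv (j, i))).2
  rw [Equiv.symm_apply_apply]

lemma prod_of_extPow' {m N : ℕ} {x : R.A m} (hx : R.extPow x N = 0) {ι : Type*} (S : Finset ι)
    (hS : N ≤ S.card) {n : ℕ} (φ : ι → Fin m → Fin n) : ∏ j ∈ S, R.pull (φ j) x = 0 := by
  classical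
  obtain ⟨T, hT, hc⟩ := Finset.exists_subset_card_eq hS
  have h1 : ∏ j ∈ T, R.pull (φ j) x = 0 := by
    rw [← Finset.prod_coe_sort]
    have h2 := prod_of_extPow hx (fun j => φ ((T.equivFinOfCardEq hc).symm j : ι))
    rw [← h2]
    exact (Equiv.prod_comp (T.equivFinOfCardEq hc).symm (fun j : T => R.pull (φ j) x)).symm
  rw [← Finset.prod_sdiff hT, h1, mul_zero]

lemma extPow_of {m N : ℕ} {x : R.A m} (hx : ∀ (n : ℕ) (φ : Fin N → Fin m → Fin n),
    ∏ j, R.pull (φ j) x = 0) : R.extPow x N = 0 := hx _ _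

lemma SmashNil.add {m : ℕ} {x y : R.A m} (hx : SmashNil R x) (hy : SmashNil R y) :
    SmashNil R (x + y) := by
  classical
  obtain ⟨N, hN, h1⟩ := hx
  obtain ⟨M, hM, h2⟩ := hy
  refine ⟨N + M, by omega, extPow_of fun n φ => ?_⟩
  simp only [map_add]
  rw [Finset.prod_add]
  refine Finset.sum_eq_zero fun S _ => ?_
  have h3 : S.card + (Finset.univ \ S).card = N + M := by
    rw [Finset.card_sdiff_of_subset (Finset.subset_univ S), Finset.card_univ, Fintype.card_fin]
    have := Finset.card_le_univ S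
    rw [Fintype.card_fin] at this
    omega
  rcases le_or_gt N S.card with h4 | h4
  · rw [prod_of_extPow' h1 S h4, zero_mul]
  · rw [prod_of_extPow' h2 (Finset.univ \ S) (by omega), mul_zero]

lemma smashNil_zero {m : ℕ} : SmashNil R (0 : R.A m) :=
  ⟨1, le_rfl, extPow_of fun n φ => by simp⟩

lemma SmashNil.mul {m : ℕ} {x : R.A m} (hx : SmashNil R x) (c : R.A m) : SmashNil R (c * x) := by
  obtain ⟨N, hN, h1⟩ := hx
  refine ⟨N, hN, extPow_of fun n φ => ?_⟩
  simp only [map_mul]
  rw [Finset.prod_mul_distrib, prod_of_extPow h1, mul_zero]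

lemma SmashNil.pull {m n : ℕ} {x : R.A m} (hx : SmashNil R x) (ψ : Fin m → Fin n) :
    SmashNil R (R.pull ψ x) := by
  obtain ⟨N, hN, h1⟩ := hx
  refine ⟨N, hN, extPow_of fun n φ => ?_⟩
  rw [← prod_of_extPow h1 (fun j => φ j ∘ ψ)]
  exact Finset.prod_congr rfl fun j _ => (R.pull_comp _ _ _).symm

/-- products of push-forwards are push-forwards of products -/
lemma prod_push {n : ℕ} (N : ℕ) : ∃ P : R.A (n + N) →ₗ[ℚ] R.A n,
    (∀ (y : R.A (n + N)) (w : R.A n), P (y * R.pull (Fin.castAdd N) w) = P y * w) ∧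
    ∀ z : Fin N → R.A (n + 1), ∏ j, R.push (z j) =
      P (∏ j, R.pull (Fin.snoc (α := fun _ => Fin (n + N)) (Fin.castAdd N) (Fin.natAdd n j)) (z j)) := by
  induction N with
  | zero =>
    refine ⟨(R.pull (id : Fin n → Fin n)).toLinearMap, fun y w => ?_, fun z => ?_⟩
    · change R.pull id (y * R.pull (Fin.castAdd 0) w) = R.pull id y * w
      have h1 : (Fin.castAdd 0 : Fin n → Fin (n + 0)) = id := by
        ext i
        rfl
      rw [map_mul, h1]
      congr 1
      rw [R.pull_id]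
      exact R.pull_id w
    · simp
  | succ N ih =>
    obtain ⟨P, hP1, hP2⟩ := ih
    have e1 : (Fin.castAdd (N + 1) : Fin n → Fin (n + (N + 1))) =
        (Fin.castSucc : Fin (n + N) → Fin (n + N + 1)) ∘ Fin.castAdd N := rfl
    refine ⟨P.comp (R.push : R.A (n + N + 1) →ₗ[ℚ] R.A (n + N)), fun y w => ?_, fun z => ?_⟩
    · rw [e1, R.pull_comp]
      change P (R.push (y * R.pull Fin.castSucc (R.pull (Fin.castAdd N) w))) = P (R.push y) * w
      rw [push_mul', hP1]
    · rw [Fin.prod_univ_castSucc, hP2, ← hP1, Fin.prod_univ_castSucc]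
      change _ = P (R.push _)
      congr 1
      have h1 : R.pull (Fin.castAdd N) (R.push (z (Fin.last N))) =
          R.push (R.pull (ext (Fin.castAdd N)) (z (Fin.last N))) := (R.push_pull _ _).symm
      rw [h1, ← R.push_mul, map_prod]
      congr 2
      refine Finset.prod_congr rfl fun j _ => ?_
      rw [← R.pull_comp]
      congr 2
      ext1 i
      refine Fin.lastCases ?_ (fun i => ?_) i
      · rw [Function.comp_apply, Fin.snoc_last, Fin.snoc_last]
        rfl
      · rw [Function.comp_apply, Fin.snoc_castSucc, Fin.snoc_castSucc]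
        rfl

lemma SmashNil.push {m : ℕ} {x : R.A (m + 1)} (hx : SmashNil R x) : SmashNil R (R.push x) := by
  obtain ⟨N, hN, h1⟩ := hx
  refine ⟨N, hN, extPow_of fun n φ => ?_⟩
  obtain ⟨P, -, hP⟩ := prod_push (R := R) (n := n) N
  have h2 : ∀ j, R.pull (φ j) (R.push x) = R.push (R.pull (ext (φ j)) x) :=
    fun j => (R.push_pull _ _).symm
  rw [Finset.prod_congr rfl fun j _ => h2 j, hP]
  have h3 := prod_of_extPow h1 (fun j : Fin N => (Fin.snoc (α := fun _ => Fin (n + N))
    (Fin.castAdd N) (Fin.natAdd n j)) ∘ ext (φ j))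
  rw [← map_zero P, ← h3]
  congr 1
  exact Finset.prod_congr rfl fun j _ => (R.pull_comp _ _ _).symm

/-- the ideal of the smash-nilpotent classes -/
def smashIdeal (R : PowerRings.{u}) (m : ℕ) : Ideal (R.A m) where
  carrier := {x | SmashNil R x}
  add_mem' := fun hx hy => hx.add hy
  zero_mem' := smashNil_zero
  smul_mem' := fun c _ hx => hx.mul c

/-- the rings modulo smash-nilpotent classes -/
abbrev QA (R : PowerRings.{u}) (n : ℕ) : Type u := R.A n ⧸ smashIdeal R n

/-- the class modulo smash-nilpotent classes -/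
noncomputable def qm (R : PowerRings.{u}) (n : ℕ) : R.A n →ₐ[ℚ] QA R n :=
  Ideal.Quotient.mkₐ ℚ (smashIdeal R n)

lemma qm_surj {n : ℕ} (x : QA R n) : ∃ y, qm R n y = x := Ideal.Quotient.mk_surjective x

lemma qm_eq_zero {n : ℕ} {x : R.A n} : qm R n x = 0 ↔ SmashNil R x :=
  Ideal.Quotient.eq_zero_iff_mem

/-- the pull-back modulo smash-nilpotent classes -/
noncomputable def qpull (R : PowerRings.{u}) {m n : ℕ} (φ : Fin m → Fin n) : QA R m →ₐ[ℚ] QA R n :=
  Ideal.quotientMapₐ (smashIdeal R n) (R.pull φ) (fun _ hx => SmashNil.pull hx φ)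

lemma qpull_qm {m n : ℕ} (φ : Fin m → Fin n) (x : R.A m) :
    qpull R φ (qm R m x) = qm R n (R.pull φ x) := rfl

/-- the push-forward modulo smash-nilpotent classes -/
noncomputable def qpush (R : PowerRings.{u}) (n : ℕ) : QA R (n + 1) →ₗ[ℚ] QA R n :=
  ((Submodule.Quotient.restrictScalarsEquiv ℚ (smashIdeal R n)).toLinearMap.comp
    (Submodule.mapQ ((smashIdeal R (n + 1)).restrictScalars ℚ) ((smashIdeal R n).restrictScalars ℚ)
      (R.push (n := n)) (fun _ hx => SmashNil.push hx))).comp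
    (Submodule.Quotient.restrictScalarsEquiv ℚ (smashIdeal R (n + 1))).symm.toLinearMap

lemma qpush_qm {n : ℕ} (x : R.A (n + 1)) : qpush R n (qm R (n + 1) x) = qm R n (R.push x) := rfl

/-- the rings modulo smash-nilpotent classes -/
noncomputable def quot (R : PowerRings.{u}) : PowerRings.{u} where
  A := QA R
  ring n := Ideal.Quotient.commRing (smashIdeal R n)
  alg n := Ideal.Quotient.algebra ℚ
  pull φ := qpull R φ
  push := qpush R _
  diag := qm R 2 R.diag
  pull_id {n} x := by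
    obtain ⟨x, rfl⟩ := qm_surj x
    rw [qpull_qm, R.pull_id]
  pull_comp φ ψ x := by
    obtain ⟨x, rfl⟩ := qm_surj x
    rw [qpull_qm, qpull_qm, qpull_qm, R.pull_comp]
  push_mul {n} x y := by
    obtain ⟨x, rfl⟩ := qm_surj x
    obtain ⟨y, rfl⟩ := qm_surj y
    rw [qpull_qm, ← map_mul, qpush_qm, qpush_qm, ← map_mul, R.push_mul]
  push_pull φ x := by
    obtain ⟨x, rfl⟩ := qm_surj x
    rw [qpull_qm, qpush_qm, qpush_qm, qpull_qm, R.push_pull]
  push_diag i x := by
    obtain ⟨x, rfl⟩ := qm_surj x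
    rw [qpull_qm, ← map_mul, qpush_qm, qpull_qm, R.push_diag]
  diag_symm := by rw [qpull_qm, R.diag_symm]

end Pool.Agent.Run7.h570.GAP
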