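import Pool.Agent.Run7.h570.GAP.SmashMain

set_option autoImplicit false
set_option linter.unusedSectionVars false

/-!
# The gap theorems modulo smash-nilpotent cycles
-/

open MvPolynomial

universe u

namespace Pool.Agent.Run7.h570.GAP

variable {R : PowerRings.{u}} {π : R.A 2} {δ : ℚ} {n : ℕ}

/-- if the permanent is smash-nilpotent, then a larger permanent is zero -/
theorem sym_of_smash (h : IsProj R π δ) {N : ℕ} (hx : SmashNil R (sym π N)) :
    ∃ N', SymZero π N' := by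
  classical
  obtain ⟨M, -, hM⟩ := hx
  have hf : Multi (∑ σ : Equiv.Perm (Fin N), xs σ) := fun j => HasWt.sum fun τ _ => xs_multi τ j
  have h1 : h.ev (N + N) (∑ σ : Equiv.Perm (Fin N), xs σ) = sym π N := by
    rw [map_sum, sym]
    refine Finset.sum_congr rfl fun σ _ => ?_
    rw [xs, map_prod]
    exact Finset.prod_congr rfl fun i _ => h.ev_X _ _
  rw [← h1] at hM
  have h2 := pow_mem_KK (two N) hf hM
  rw [map_sum, Finset.sum_congr rfl fun σ _ => rn_two_xs σ, Finset.sum_const, Finset.card_univ,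
    Fintype.card_perm, Fintype.card_fin, ← Nat.cast_smul_eq_nsmul ℚ, smul_pow, ← pow_mul] at h2
  have h3 : ((N.factorial : ℚ) ^ M) ≠ 0 := pow_ne_zero _ (Nat.cast_ne_zero.2 (Nat.factorial_ne_zero N))
  have h4 := Submodule.smul_mem _ ((N.factorial : ℚ) ^ M)⁻¹ h2
  rw [smul_smul, inv_mul_cancel₀ h3, one_smul] at h4
  exact ⟨N * M, sym_of_pow h4⟩

variable {b : ℕ} {a : Fin b → R.A 1} {G : Matrix (Fin b) (Fin b) ℚ}

/-- **The gap theorem modulo smash-nilpotent cycles.** -/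
theorem PreTate.smashGap (h : PreTate R a G) (n : ℕ)
    (he : R.push (R.push (R.diag * R.diag)) = algebraMap ℚ (R.A 0) (b - 2 * n)) :
    [haf (tr R a G) (n + 1) = 0, SmashNil R (haf (tr R a G) (n + 1)),
      sym (tr R a G) (2 * n + 1) = 0, ∃ N, SmashNil R (sym (tr R a G) N)].TFAE ∧
    (¬ SmashNil R (haf (tr R a G) (n + 1)) →
      (∀ m : ℕ, ∃ (N : ℕ) (v : Fin N → R.A m), (∀ j, IsProduct R a m (v j)) ∧
        (∀ c : Fin N → ℚ, SmashNil R (∑ j, c j • v j) → c = 0) ∧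
        ((b : ℤ) + (2 * n + 4 : ℕ)) ^ m + ((b : ℤ) - (2 * n + 4 : ℕ)) ^ m ≤
          2 * ((m / 2 + (2 * n + 3) * (2 * n + 5)).choose ((2 * n + 3) * (2 * n + 5)) : ℕ) * N) ∧
      (∀ (k : ℕ) (c : Equiv.Perm (Fin k) → ℚ),
        SmashNil R (∑ σ, c σ • ∏ i, R.pull ![Fin.castAdd k i, Fin.natAdd k (σ i)] (tr R a G)) →
          SuperRel (fun x : Fin (2 * n + 4) => decide (2 ≤ (x : ℕ))) c) ∧
      (∀ m < 6 * (n + 2), ∀ c : Matching m → ℚ,
        SmashNil R (∑ τ, c τ • mprod (tr R a G) τ) → c = 0)) := by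
  obtain ⟨h1, -⟩ := h.oddGap n he
  have he' := euler_cl he
  rw [← cl_diag] at he'
  obtain ⟨h2, h3⟩ := h.toQuot.oddGap n he'
  rw [tr_cl] at h2 h3
  have e1 : ∀ k, HafZero (cl R 2 (tr R a G)) k ↔ SmashNil R (haf (tr R a G) k) := by
    intro k
    rw [← cl_eq_zero, ← haf_cl]
    rfl
  have e2 : ∀ N, SymZero (cl R 2 (tr R a G)) N ↔ SmashNil R (sym (tr R a G) N) := by
    intro k
    rw [← cl_eq_zero, ← sym_cl]
    rfl
  have hp : IsProj R (tr R a G) (-2 * n) := h.isProj (by rw [he]; congr 1; ring)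
  have t14 : SmashNil R (haf (tr R a G) (n + 1)) → ∃ N, SmashNil R (sym (tr R a G) N) := by
    intro h4
    exact ⟨_, (e2 _).1 ((h2.out 0 1).1 ((e1 _).2 h4))⟩
  have t41 : (∃ N, SmashNil R (sym (tr R a G) N)) → haf (tr R a G) (n + 1) = 0 := by
    rintro ⟨N, hN⟩
    exact (h1.out 2 0).1 (sym_of_smash hp hN)
  refine ⟨?_, fun hn => ?_⟩
  · tfae_have 1 → 2 := fun h4 => by
      rw [h4]
      exact smashNil_zero
    tfae_have 2 → 4 := t14
    tfae_have 4 → 1 := t41
    tfae_have 1 → 3 := fun h4 => (h1.out 0 1).1 h4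
    tfae_have 3 → 4 := fun h4 => ⟨_, by
      rw [h4]
      exact smashNil_zero⟩
    tfae_finish
  · have h4 : ∀ N, ¬ SymZero (cl R 2 (tr R a G)) N := by
      intro N hN
      refine hn ?_
      rw [t41 ⟨N, (e2 _).1 hN⟩]
      exact smashNil_zero
    obtain ⟨g1, g2, g3⟩ := h3 h4
    refine ⟨fun m => ?_, fun k c hc => ?_, fun m hm c hc => ?_⟩
    · obtain ⟨N, v, hv, hi, hb⟩ := g1 m
      choose z hz hzv using fun j => isProduct_cl (hv j)
      refine ⟨N, z, hz, fun c hc => indep_cl ?_ c hc, hb⟩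
      simp only [hzv]
      exact hi
    · refine g2 k c ?_
      rw [← cl_eq_zero, map_sum] at hc
      rw [← hc]
      refine Finset.sum_congr rfl fun σ _ => ?_
      rw [map_smul, map_prod]
      rfl
    · refine indep_cl ?_ c hc
      have := g3 m hm
      simp only [mprod_cl] at this
      exact this

end Pool.Agent.Run7.h570.GAP
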