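import Pool.Agent.Run7.h570.GAP.Smash

set_option autoImplicit false
set_option linter.unusedSectionVars false

/-!
# The gap theorem modulo smash-nilpotent cycles
-/

open MvPolynomial

universe u

namespace Pool.Agent.Run7.h570.GAP

variable {R : PowerRings.{u}} {π : R.A 2} {δ : ℚ} {n : ℕ}

/-- The sum over all partitions of the `2 k` factors of `X ^ (2 k)` into pairs (each of them counted
`2 ^ k * k!` times) of the products of the pull-backs of `π` to the pairs of factors. -/
noncomputable def haf (π : R.A 2) (k : ℕ) : R.A (k + k) :=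
  ∑ τ : Equiv.Perm (Fin (k + k)), ∏ i, R.pull ![τ (Fin.castAdd k i), τ (Fin.natAdd k i)] π

/-- The sum over all permutations `σ` of the products of the pull-backs of `π` to the factors `i` and
`N + σ i` of `X ^ (2 N)`; up to the factor `N!` the projector to `Sym ^ N (X, π)`. -/
noncomputable def sym (π : R.A 2) (N : ℕ) : R.A (N + N) :=
  ∑ σ : Equiv.Perm (Fin N), ∏ i, R.pull ![Fin.castAdd N i, Fin.natAdd N (σ i)] π

/-- the class modulo smash-nilpotent classes -/
noncomputable def cl (R : PowerRings.{u}) (n : ℕ) : R.A n →ₐ[ℚ] (quot R).A n := qm R n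

lemma cl_eq_zero {n : ℕ} {x : R.A n} : cl R n x = 0 ↔ SmashNil R x := qm_eq_zero

lemma cl_pull {m n : ℕ} (φ : Fin m → Fin n) (x : R.A m) :
    (quot R).pull φ (cl R m x) = cl R n (R.pull φ x) := rfl

lemma cl_push {n : ℕ} (x : R.A (n + 1)) : (quot R).push (cl R (n + 1) x) = cl R n (R.push x) := rfl

lemma cl_diag : (quot R).diag = cl R 2 R.diag := rfl

lemma cl_on {n : ℕ} (s : Fin n) (x : R.A 1) : (quot R).on s (cl R 1 x) = cl R n (R.on s x) := rfl

lemma haf_cl (k : ℕ) : haf (cl R 2 π) k = cl R (k + k) (haf π k) := by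
  rw [haf, haf, map_sum]
  refine Finset.sum_congr rfl fun τ _ => ?_
  rw [map_prod]
  rfl

lemma sym_cl (N : ℕ) : sym (cl R 2 π) N = cl R (N + N) (sym π N) := by
  rw [sym, sym, map_sum]
  refine Finset.sum_congr rfl fun τ _ => ?_
  rw [map_prod]
  rfl

variable {b : ℕ} {a : Fin b → R.A 1} {G : Matrix (Fin b) (Fin b) ℚ}

lemma tt_cl : tt (quot R) (fun i => cl R 1 (a i)) G = cl R 2 (tt R a G) := by
  rw [tt, tt, map_sum]
  refine Finset.sum_congr rfl fun i _ => ?_
  rw [map_sum]
  refine Finset.sum_congr rfl fun j _ => ?_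
  rw [map_smul, map_mul]
  rfl

lemma tr_cl : tr (quot R) (fun i => cl R 1 (a i)) G = cl R 2 (tr R a G) := by
  rw [tr, tr, map_sub, tt_cl, cl_diag]

lemma PreTate.toQuot (h : PreTate R a G) : PreTate (quot R) (fun i => cl R 1 (a i)) G where
  symm := h.symm
  det := h.det
  pairing i j := by
    rw [← map_mul, cl_push, h.pairing, AlgHom.commutes]

lemma euler_cl {x : R.A 2} {q : ℚ} (he : R.push (R.push (x * x)) = algebraMap ℚ (R.A 0) q) :
    (quot R).push ((quot R).push (cl R 2 x * cl R 2 x)) = algebraMap ℚ ((quot R).A 0) q := by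
  rw [← map_mul, cl_push, cl_push, he, AlgHom.commutes]

lemma isProduct_cl {m : ℕ} {v : (quot R).A m} (hv : IsProduct (quot R) (fun i => cl R 1 (a i)) m v) :
    ∃ z, IsProduct R a m z ∧ cl R m z = v := by
  induction hv with
  | one => exact ⟨1, IsProduct.one, map_one _⟩
  | cls _ i ih =>
    obtain ⟨z, hz, rfl⟩ := ih
    refine ⟨_, IsProduct.cls hz i, ?_⟩
    rw [map_mul]
    rfl
  | dia _ ih =>
    obtain ⟨z, hz, rfl⟩ := ih
    refine ⟨_, IsProduct.dia hz, ?_⟩
    rw [map_mul]
    rfl
  | perm _ e ih =>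
    obtain ⟨z, hz, rfl⟩ := ih
    exact ⟨_, IsProduct.perm hz e, rfl⟩

lemma mprod_cl {m : ℕ} (τ : Matching m) : mprod (cl R 2 π) τ = cl R m (mprod π τ) := by
  rw [mprod, mprod, map_prod]
  rfl

/-- independence modulo smash-nilpotent classes -/
lemma indep_cl {ι : Type*} [Fintype ι] {m : ℕ} {v : ι → R.A m}
    (hv : LinearIndependent ℚ (fun j => cl R m (v j))) (c : ι → ℚ)
    (hc : SmashNil R (∑ j, c j • v j)) : c = 0 := by
  rw [← cl_eq_zero, map_sum] at hc
  simp only [map_smul] at hc
  exact funext fun j => Fintype.linearIndependent_iff.1 hv c hc j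

section power

lemma multi_prod {m : ℕ} {f : Pol (Fin m)} (hf : Multi f) (M : ℕ) :
    Multi (∏ j : Fin M, rn (fun i : Fin m => finProdFinEquiv (j, i)) f) := by
  classical
  intro p
  obtain ⟨⟨j1, i1⟩, rfl⟩ := finProdFinEquiv.surjective p
  have h1 := IsWeightedHomogeneous.prod (w := wt (finProdFinEquiv (j1, i1))) Finset.univ
    (fun j : Fin M => rn (fun i : Fin m => finProdFinEquiv (j, i)) f) _
    (fun j _ => HasWt.rn_one (w := fun i : Fin m => finProdFinEquiv (j, i))
      (b := finProdFinEquiv (j1, i1)) (f := f) (fun i _ => hf i))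
  have h2 : ∀ j : Fin M, (Finset.univ.filter
      (fun i : Fin m => finProdFinEquiv (j, i) = finProdFinEquiv (j1, i1))).card =
      if j = j1 then 1 else 0 := by
    intro j
    split_ifs with hj
    · subst hj
      rw [Finset.card_eq_one]
      refine ⟨i1, ?_⟩
      ext i
      simp
    · rw [Finset.card_eq_zero]
      ext i
      simp [hj]
  rw [Finset.sum_congr rfl fun j _ => h2 j, Finset.sum_ite_eq', if_pos (Finset.mem_univ _)] at h1
  exact h1

lemma pow_mem_KK {h : IsProj R π δ} {m N M : ℕ} (w : Fin m → Fin N) {f : Pol (Fin m)}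
    (hf : Multi f) (hx : R.extPow (h.ev m f) M = 0) : (rn w f) ^ M ∈ KK h N := by
  have h1 : (∏ j : Fin M, rn (fun i : Fin m => finProdFinEquiv (j, i)) f) ∈ Rel h (M * m) := by
    refine ⟨multi_prod hf M, ?_⟩
    rw [map_prod, ← hx, PowerRings.extPow]
    exact Finset.prod_congr rfl fun j _ => h.ev_rn _ _
  have h2 := mem_KK (fun p : Fin (M * m) => w (finProdFinEquiv.symm p).2) h1
  rw [map_prod] at h2
  have h3 : ∀ j : Fin M, rn (fun p : Fin (M * m) => w (finProdFinEquiv.symm p).2)
      (rn (fun i : Fin m => finProdFinEquiv (j, i)) f) = rn w f := by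
    intro j
    rw [rn_rn]
    congr 1
    congr 1
    ext1 i
    change w (finProdFinEquiv.symm (finProdFinEquiv (j, i))).2 = w i
    rw [Equiv.symm_apply_apply]
  rw [Finset.prod_congr rfl fun j _ => h3 j, Finset.prod_const, Finset.card_univ,
    Fintype.card_fin] at h2
  exact h2

end power

end Pool.Agent.Run7.h570.GAP
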