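import Pool.Agent.Run7.h570.GAP.RankBound

set_option autoImplicit false
set_option linter.unusedSectionVars false

/-!
# The Tate classes and the transcendental projector
-/

open MvPolynomial

universe u

namespace Pool.Agent.Run7.h570.GAP

variable {R : PowerRings.{u}}

/-- the class `x` on the factor `s` -/
def PowerRings.on (R : PowerRings.{u}) {n : ℕ} (s : Fin n) : R.A 1 →ₐ[ℚ] R.A n :=
  R.pull (fun _ => s)

lemma pull_on {m n : ℕ} (φ : Fin m → Fin n) (s : Fin m) (x : R.A 1) :
    R.pull φ (R.on s x) = R.on (φ s) x := by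
  rw [PowerRings.on, PowerRings.on, ← R.pull_comp]
  rfl

lemma on_zero (x : R.A 1) : R.on (0 : Fin 1) x = x := by
  have h1 : (fun _ : Fin 1 => (0 : Fin 1)) = id := funext fun i => (Fin.eq_zero i).symm
  rw [PowerRings.on, h1, R.pull_id]

lemma push_on {n : ℕ} (y : R.A n) (x : R.A 1) {q : ℚ} (hx : R.push x = algebraMap ℚ _ q) :
    R.push (R.pull Fin.castSucc y * R.on (Fin.last n) x) = q • y := by
  have h1 : R.on (Fin.last n) x = R.pull (ext (Fin.elim0 : Fin 0 → Fin n)) x := by
    rw [PowerRings.on]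
    congr 2
  rw [R.push_mul, h1, R.push_pull, hx, AlgHom.commutes, Algebra.smul_def, mul_comm]

/-- Classes `a_i` with the intersection matrix `G`, which is symmetric and invertible. -/
structure PreTate (R : PowerRings.{u}) {b : ℕ} (a : Fin b → R.A 1)
    (G : Matrix (Fin b) (Fin b) ℚ) : Prop where
  symm : G.IsSymm
  det : G.det ≠ 0
  pairing : ∀ i j, R.push (a i * a j) = algebraMap ℚ (R.A 0) (G i j)

/-- Classes `a_i` with the intersection matrix `G`, which is symmetric and invertible, on a variety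
with the Euler number `b`. -/
structure Tate (R : PowerRings.{u}) {b : ℕ} (a : Fin b → R.A 1) (G : Matrix (Fin b) (Fin b) ℚ) :
    Prop extends PreTate R a G where
  euler : R.push (R.push (R.diag * R.diag)) = algebraMap ℚ (R.A 0) b

variable {b : ℕ} {a : Fin b → R.A 1} {G : Matrix (Fin b) (Fin b) ℚ}

/-- the dual classes -/
noncomputable def dl (R : PowerRings.{u}) (a : Fin b → R.A 1) (G : Matrix (Fin b) (Fin b) ℚ)
    (i : Fin b) : R.A 1 := ∑ j, G⁻¹ i j • a j

/-- the Tate part of the diagonal -/
noncomputable def tt (R : PowerRings.{u}) (a : Fin b → R.A 1) (G : Matrix (Fin b) (Fin b) ℚ) :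
    R.A 2 := ∑ i, ∑ j, G⁻¹ i j • (R.on 0 (a i) * R.on 1 (a j))

/-- the transcendental part of the diagonal -/
noncomputable def tr (R : PowerRings.{u}) (a : Fin b → R.A 1) (G : Matrix (Fin b) (Fin b) ℚ) :
    R.A 2 := R.diag - tt R a G

lemma tt_eq : tt R a G = ∑ i, R.on 0 (a i) * R.on 1 (dl R a G i) := by
  rw [tt]
  refine Finset.sum_congr rfl fun i _ => ?_
  rw [dl, map_sum, Finset.mul_sum]
  refine Finset.sum_congr rfl fun j _ => ?_
  rw [map_smul, mul_smul_comm]

lemma PreTate.inv_symm (h : PreTate R a G) (i j : Fin b) : G⁻¹ i j = G⁻¹ j i := by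
  have h1 : (G⁻¹).IsSymm := by
    rw [Matrix.IsSymm, Matrix.transpose_nonsing_inv, h.symm]
  exact h1.apply j i

lemma PreTate.dual (h : PreTate R a G) (i j : Fin b) :
    R.push (a i * dl R a G j) = algebraMap ℚ (R.A 0) (if i = j then 1 else 0) := by
  rw [dl, Finset.mul_sum, map_sum]
  have h1 : ∀ k, R.push (a i * G⁻¹ j k • a k) = algebraMap ℚ (R.A 0) (G i k * G⁻¹ k j) := by
    intro k
    rw [mul_smul_comm, map_smul, h.pairing, Algebra.smul_def, ← map_mul, h.inv_symm j k, mul_comm]
  rw [Finset.sum_congr rfl fun k _ => h1 k, ← map_sum, ← Matrix.mul_apply,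
    Matrix.mul_nonsing_inv _ (isUnit_iff_ne_zero.2 h.det), Matrix.one_apply]

lemma PreTate.tt_symm (h : PreTate R a G) : R.pull ![1, 0] (tt R a G) = tt R a G := by
  rw [tt, map_sum]
  simp only [map_sum]
  rw [Finset.sum_comm]
  refine Finset.sum_congr rfl fun i _ => Finset.sum_congr rfl fun j _ => ?_
  rw [map_smul, map_mul, pull_on, pull_on, h.inv_symm j i, mul_comm]
  rfl

lemma push_diag_one (x : R.A 1) : R.push (R.on 1 x * R.diag) = x := by
  have h1 := R.push_diag (0 : Fin 1) (R.on 1 x)
  have h2 : R.pull ![(0 : Fin 1).castSucc, Fin.last 1] R.diag = R.diag := by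
    convert R.pull_id R.diag using 3
    ext i
    fin_cases i <;> rfl
  rw [h2, pull_on] at h1
  rw [mul_comm, h1]
  exact on_zero x

lemma PreTate.push_tt (h : PreTate R a G) (i : Fin b) : R.push (R.on 1 (a i) * tt R a G) = a i := by
  rw [tt_eq, Finset.mul_sum, map_sum]
  have h1 : ∀ k, R.push (R.on 1 (a i) * (R.on 0 (a k) * R.on 1 (dl R a G k))) =
      (if i = k then (1 : ℚ) else 0) • a k := by
    intro k
    have h2 := push_on (a k) (a i * dl R a G k) (h.dual i k)
    rw [← h2, map_mul (R.on _)]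
    congr 1
    have h3 : R.pull Fin.castSucc (a k) = R.on (0 : Fin 2) (a k) := by
      rw [← on_zero (a k), pull_on, on_zero]
      rfl
    rw [h3]
    change _ = _ * (R.on 1 _ * R.on 1 _)
    ring
  rw [Finset.sum_congr rfl fun k _ => h1 k]
  simp

lemma PreTate.push_tr (h : PreTate R a G) (i : Fin b) : R.push (R.on 1 (a i) * tr R a G) = 0 := by
  rw [tr, mul_sub, map_sub, push_diag_one, h.push_tt, sub_self]

lemma PreTate.push_tr_dl (h : PreTate R a G) (i : Fin b) :
    R.push (R.on 1 (dl R a G i) * tr R a G) = 0 := by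
  rw [dl, map_sum, Finset.sum_mul, map_sum]
  refine Finset.sum_eq_zero fun j _ => ?_
  rw [map_smul, smul_mul_assoc, map_smul, h.push_tr, smul_zero]

lemma PreTate.tr_symm (h : PreTate R a G) : R.pull ![1, 0] (tr R a G) = tr R a G := by
  rw [tr, map_sub, R.diag_symm, h.tt_symm]

/-- integration of the second variable of a product with `x` -/
lemma push_two_on {n : ℕ} (q : Fin n) (x : R.A 1) (y : R.A 2) :
    R.push (R.on (Fin.last n) x * R.pull ![q.castSucc, Fin.last n] y) =
      R.on q (R.push (R.on 1 x * y)) := by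
  have h1 : R.on q (R.push (R.on 1 x * y)) =
      R.push (R.pull (ext (fun _ : Fin 1 => q)) (R.on 1 x * y)) := by
    rw [R.push_pull]
    rfl
  rw [h1, map_mul (R.pull _), pull_on]
  have h2 : ext (fun _ : Fin 1 => q) 1 = Fin.last n := ext_last _
  have h3 : ext (fun _ : Fin 1 => q) = ![q.castSucc, Fin.last n] := by
    ext i
    fin_cases i
    · change (ext (fun _ : Fin 1 => q) (Fin.castSucc 0) : ℕ) = _
      rw [ext_castSucc]
      rfl
    · change (ext (fun _ : Fin 1 => q) (Fin.last 1) : ℕ) = _
      rw [ext_last]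
      rfl
  rw [h2, h3]

theorem PreTate.isProj (h : PreTate R a G) {δ : ℚ}
    (he : R.push (R.push (R.diag * R.diag)) = algebraMap ℚ (R.A 0) (b + δ)) :
    IsProj R (tr R a G) δ where
  symm := h.tr_symm
  idem := by
    have h1 : R.pull ![0, 2] (tr R a G) = R.pull ![(0 : Fin 2).castSucc, Fin.last 2] R.diag -
        ∑ i, R.on 0 (a i) * R.on (Fin.last 2) (dl R a G i) := by
      rw [tr, map_sub, tt_eq, map_sum]
      congr 1
      refine Finset.sum_congr rfl fun i _ => ?_
      rw [map_mul, pull_on, pull_on]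
      rfl
    rw [h1, sub_mul, map_sub, R.push_diag, pull_two_comp, Finset.sum_mul, map_sum]
    have h2 : ∑ i, R.push (R.on 0 (a i) * R.on (Fin.last 2) (dl R a G i) *
        R.pull ![1, 2] (tr R a G)) = 0 := by
      refine Finset.sum_eq_zero fun i _ => ?_
      have h3 : R.on (0 : Fin 3) (a i) = R.pull Fin.castSucc (R.on 0 (a i)) := by
        rw [pull_on]
        rfl
      have h4 : R.pull ![1, 2] (tr R a G) = R.pull ![(1 : Fin 2).castSucc, Fin.last 2] (tr R a G) :=
        rfl
      rw [h3, mul_assoc, R.push_mul, h4, push_two_on, h.push_tr_dl, map_zero, mul_zero]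
    rw [h2, sub_zero]
    exact h.tr_symm
  trace := by
    have h1 : tr R a G * tr R a G = R.diag * R.diag - R.diag * tt R a G -
        ∑ i, R.on 0 (a i) * (R.on 1 (dl R a G i) * tr R a G) := by
      have h2 : tr R a G * tr R a G = R.diag * tr R a G - tt R a G * tr R a G := by
        conv_lhs => rw [tr]
        rw [sub_mul]
        rfl
      rw [h2, tt_eq, Finset.sum_mul]
      congr 1
      · rw [← tt_eq, tr, mul_sub]
      · refine Finset.sum_congr rfl fun i _ => ?_
        rw [mul_assoc]
    rw [h1, map_sub, map_sub, map_sub, map_sub, he, map_sum]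
    have h3 : ∑ i, R.push (R.on 0 (a i) * (R.on 1 (dl R a G i) * tr R a G)) = 0 := by
      refine Finset.sum_eq_zero fun i _ => ?_
      have h3 : R.on (0 : Fin 2) (a i) = R.pull Fin.castSucc (R.on 0 (a i)) := by
        rw [pull_on]
        rfl
      rw [h3, R.push_mul, h.push_tr_dl, mul_zero]
    rw [h3, map_zero, sub_zero]
    have h4 : R.push (R.diag * tt R a G) = ∑ i, a i * dl R a G i := by
      have h5 := R.push_diag (0 : Fin 1) (tt R a G)
      have h6 : R.pull ![(0 : Fin 1).castSucc, Fin.last 1] R.diag = R.diag := by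
        convert R.pull_id R.diag using 3
        ext i
        fin_cases i <;> rfl
      rw [h6] at h5
      rw [h5, tt_eq, map_sum]
      refine Finset.sum_congr rfl fun i _ => ?_
      rw [map_mul, pull_on, pull_on]
      congr 1 <;> exact on_zero _
    rw [h4, map_sum]
    simp only [h.dual, if_true, map_one, Finset.sum_const, Finset.card_univ, Fintype.card_fin]
    simp

theorem Tate.isProj (h : Tate R a G) : IsProj R (tr R a G) 0 :=
  h.toPreTate.isProj (by rw [add_zero, h.euler])

end Pool.Agent.Run7.h570.GAP
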