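import Pool.Agent.Run7.h570.GAP.Rename

set_option autoImplicit false
set_option linter.unusedSectionVars false

/-!
# Weights and renaming
-/

open MvPolynomial

namespace Pool.Agent.Run7.h570.GAP

variable {I J : Type*} [DecidableEq I] [DecidableEq J]

lemma wt_map [Fintype I] (w : I → J) (b : J) (s : Sym2 I) :
    wt b (Sym2.map w s) = ∑ j ∈ Finset.univ.filter (fun j => w j = b), wt j s := by
  induction s with
  | _ p q =>
    rw [Sym2.map_mk]
    simp only [wt_mk, Finset.sum_add_distrib]
    congr 1
    · simp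
    · simp

lemma HasWt.rn [Fintype I] {w : I → J} {b : J} {f : Pol I} {n : I → ℕ}
    (h : ∀ j, w j = b → HasWt j f (n j)) :
    HasWt b (rn w f) (∑ j ∈ Finset.univ.filter (fun j => w j = b), n j) := by
  intro d hd
  obtain ⟨u, rfl, hu⟩ := coeff_rename_ne_zero _ _ _ hd
  rw [Finsupp.weight_apply, Finsupp.sum_mapDomain_index (by simp) (by intros; rw [add_smul])]
  simp only [wt_map, Finset.smul_sum]
  rw [Finsupp.sum, Finset.sum_comm]
  refine Finset.sum_congr rfl fun j hj => ?_
  have h1 := h j (Finset.mem_filter.1 hj).2 hu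
  rw [Finsupp.weight_apply, Finsupp.sum] at h1
  exact h1

lemma HasWt.rn_one [Fintype I] {w : I → J} {b : J} {f : Pol I}
    (h : ∀ j, w j = b → HasWt j f 1) :
    HasWt b (GAP.rn w f) (Finset.univ.filter (fun j => w j = b)).card := by
  have := HasWt.rn (n := fun _ => 1) h
  simpa using this

lemma HasWt.of_rn {e : I → J} (he : Function.Injective e) {c : I} {f : Pol I} {n : ℕ}
    (h : HasWt (e c) (GAP.rn e f) n) : HasWt c f n := by
  intro d hd
  have h1 : coeff (d.mapDomain (Sym2.map e)) (GAP.rn e f) ≠ 0 := by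
    rw [GAP.rn, coeff_rename_mapDomain _ (Sym2.map.injective he)]
    exact hd
  have h2 := h h1
  rw [Finsupp.weight_apply, Finsupp.sum_mapDomain_index (by simp) (by intros; rw [add_smul])] at h2
  rw [Finsupp.weight_apply, ← h2]
  refine Finsupp.sum_congr fun s _ => ?_
  congr 1
  induction s with
  | _ p q =>
    rw [Sym2.map_mk]
    simp [he.eq_iff]

lemma HasWt.mul {j : J} {f g : Pol J} {m n : ℕ} (hf : HasWt j f m) (hg : HasWt j g n) :
    HasWt j (f * g) (m + n) := IsWeightedHomogeneous.mul hf hg

lemma HasWt.X (j p q : J) : HasWt j (X s(p, q) : Pol J) (wt j s(p, q)) :=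
  isWeightedHomogeneous_X ..

lemma HasWt.zero (j : J) (n : ℕ) : HasWt j (0 : Pol J) n := isWeightedHomogeneous_zero ..

/-- `f` is linear in each index -/
def Multi (f : Pol J) : Prop := ∀ j, HasWt j f 1

lemma Multi.equiv [Fintype I] {f : Pol I} (h : Multi f) (e : I ≃ J) : Multi (rn e f) := by
  intro j
  have h1 : HasWt j (rn e f) _ := HasWt.rn_one (w := e) (b := j) (f := f) (fun i _ => h i)
  have h2 : (Finset.univ.filter (fun i => e i = j)).card = 1 := by
    rw [Finset.card_eq_one]
    refine ⟨e.symm j, ?_⟩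
    ext i
    simp [Equiv.eq_symm_apply]
  rwa [h2] at h1

/-- the weights of the contraction -/
lemma Multi.cc_wt [Fintype J] {f : Pol J} (h : Multi f) (δ : ℚ) {a b : J} (hab : a ≠ b) (c : J) :
    HasWt c (cc δ a b f) (if c = a ∨ c = b then 0 else 1) := by
  refine HasWt.add (HasWt.smul ((h c).nn ?_) _) (HasWt.sum fun p _ => HasWt.sum fun p' _ => ?_)
  · rw [wt_mk]
    by_cases h1 : a = c
    · subst h1
      simp [hab.symm]
    · by_cases h2 : b = c
      · subst h2
        simp [hab]
      · simp [h1, h2, Ne.symm h1, Ne.symm h2]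
  · -- the terms with `p` or `p'` among `a`, `b` are zero
    by_cases hp' : p' = b
    · subst hp'
      rw [(h p').nn_eq_zero (b := p') (i := p') (by simp), map_zero, mul_zero]
      exact HasWt.zero _ _
    by_cases hp : p = a
    · subst hp
      have h1 : HasWt p (nn b p' f) (if p' = p then 0 else 1) := by
        refine (h p).nn ?_
        rw [wt_mk, if_neg hab.symm]
        split_ifs <;> rfl
      rw [h1.nn_eq_zero (b := p) (i := p) (by rw [wt_mk]; split_ifs <;> simp_all), mul_zero]
      exact HasWt.zero _ _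
    have hb : HasWt b (nn b p' f) 0 := (h b).nn (by rw [wt_mk]; simp [hp'])
    by_cases hpb : p = b
    · subst hpb
      rw [hb.nn_eq_zero (b := a) (i := p) (by rw [wt_mk]; simp), mul_zero]
      exact HasWt.zero _ _
    by_cases hpa' : p' = a
    · subst hpa'
      have h1 : HasWt p' (nn b p' f) 0 := (h p').nn (by rw [wt_mk]; simp [Ne.symm hp'])
      rw [h1.nn_eq_zero (b := p') (i := p) (by rw [wt_mk]; simp), mul_zero]
      exact HasWt.zero _ _
    by_cases hpp : p = p'
    · subst hpp
      have h1 : HasWt p (nn b p f) 0 := (h p).nn (by rw [wt_mk]; simp [Ne.symm hpb])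
      rw [h1.nn_eq_zero (b := a) (i := p) (by rw [wt_mk]; simp [Ne.symm hp]), mul_zero]
      exact HasWt.zero _ _
    -- now all indices are different
    have h1 : HasWt c (nn b p' f) (if c = b ∨ c = p' then 0 else 1) := by
      refine (h c).nn ?_
      rw [wt_mk]
      by_cases e1 : b = c
      · subst e1; simp [hp']
      · by_cases e2 : p' = c
        · subst e2; simp [Ne.symm hp']
        · simp [e1, e2, Ne.symm e1, Ne.symm e2]
    have h2 : HasWt c (nn a p (nn b p' f)) (if c = b ∨ c = p' ∨ c = a ∨ c = p then 0 else 1) := by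
      refine h1.nn ?_
      rw [wt_mk]
      by_cases e1 : a = c
      · subst e1; simp [hp, hab, Ne.symm hpa']
      · by_cases e2 : p = c
        · subst e2; simp [hpb, Ne.symm hp, hpp]
        · by_cases e3 : c = b
          · simp [e3, hab, hpb]
          · by_cases e4 : c = p'
            · simp [e4, Ne.symm hpa', hpp]
            · simp [e1, e2, e3, e4, Ne.symm e1, Ne.symm e2]
    have h3 := (HasWt.X c p p').mul h2
    convert h3 using 1
    rw [wt_mk]
    by_cases e1 : p = c
    · subst e1; simp [hp, hpb, Ne.symm hpp]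
    · by_cases e2 : p' = c
      · subst e2; simp [hp', hpa', hpp]
      · by_cases e3 : c = a
        · simp [e3, hp, hpa']
        · by_cases e4 : c = b
          · simp [e4, hpb, hp']
          · simp [e1, e2, e3, e4, Ne.symm e1, Ne.symm e2]

end Pool.Agent.Run7.h570.GAP
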