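import Pool.Agent.Run7.h570.GAP.Rel

set_option autoImplicit false
set_option linter.unusedSectionVars false

/-!
# Words: the relations hold on the super space of dimension `(2 | 2 n + 2)`
-/

open MvPolynomial

universe u

namespace Pool.Agent.Run7.h570.GAP

/-- letters: `(none, _)` are the two even letters, `(some _, _)` are the odd letters -/
abbrev Let (n : ℕ) := Option (Fin (n + 1)) × Bool

variable {R : PowerRings.{u}} {π : R.A 2} {δ : ℚ} {m n : ℕ}

/-- permutations of the slots preserving the letters and fixing the slots with even letters -/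
def IsG (u : Fin m → Let n) (τ : Equiv.Perm (Fin m)) : Prop :=
  (∀ s, u (τ s) = u s) ∧ ∀ s, (u s).1 = none → τ s = s

lemma IsG.one (u : Fin m → Let n) : IsG u 1 := ⟨fun _ => rfl, fun _ _ => rfl⟩

lemma IsG.mul {u : Fin m → Let n} {ρ τ : Equiv.Perm (Fin m)} (h : IsG u ρ) (h' : IsG u τ) :
    IsG u (ρ * τ) := by
  refine ⟨fun s => ?_, fun s hs => ?_⟩
  · rw [Equiv.Perm.mul_apply, h.1, h'.1]
  · rw [Equiv.Perm.mul_apply, h'.2 s hs, h.2 s hs]

lemma IsG.inv {u : Fin m → Let n} {ρ : Equiv.Perm (Fin m)} (h : IsG u ρ) : IsG u ρ⁻¹ := by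
  refine ⟨fun s => ?_, fun s hs => ?_⟩
  · have h1 := h.1 (ρ⁻¹ s)
    have h2 : ρ (ρ⁻¹ s) = s := by simp
    rw [h2] at h1
    exact h1.symm
  · have h1 := h.2 s hs
    rw [Equiv.Perm.inv_eq_iff_eq, h1]

lemma IsG.mul_iff {u : Fin m → Let n} {ρ τ : Equiv.Perm (Fin m)} (h : IsG u ρ) :
    IsG u τ ↔ IsG u (ρ * τ) := by
  refine ⟨fun h' => h.mul h', fun h' => ?_⟩
  have := h.inv.mul h'
  rwa [inv_mul_cancel_left] at this

lemma IsG.mul_iff' {u : Fin m → Let n} {ρ τ : Equiv.Perm (Fin m)} (h : IsG u ρ) :
    IsG u τ ↔ IsG u (τ * ρ) := by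
  refine ⟨fun h' => h'.mul h, fun h' => ?_⟩
  have := h'.mul h.inv
  rwa [mul_inv_cancel_right] at this

open Classical in
/-- antisymmetrization -/
noncomputable def alt (u : Fin m → Let n) (f : Pol (Fin m)) : Pol (Fin m) :=
  ∑ τ ∈ Finset.univ.filter (IsG u), ((Equiv.Perm.sign τ : ℤ) : ℚ) • rn τ f

lemma alt_mem {h : IsProj R π δ} (u : Fin m → Let n) {f : Pol (Fin m)} (hf : f ∈ Rel h m) :
    alt u f ∈ Rel h m :=
  Submodule.sum_mem _ fun τ _ => Submodule.smul_mem _ _ (Rel.equiv hf τ)

lemma alt_swap (u : Fin m → Let n) (f : Pol (Fin m)) {s s' : Fin m} (hs : s ≠ s')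
    (h1 : u s = u s') (h2 : (u s).1 ≠ none) :
    rn (Equiv.swap s s') (alt u f) = -alt u f := by
  classical
  have hG : IsG u (Equiv.swap s s') := by
    have h3 : ∀ x, u (Equiv.swap s s' x) = u x := by
      intro x
      by_cases hx : x = s
      · rw [hx, Equiv.swap_apply_left, h1]
      by_cases hx' : x = s'
      · rw [hx', Equiv.swap_apply_right, h1]
      rw [Equiv.swap_apply_of_ne_of_ne hx hx']
    refine ⟨h3, fun x hx => Equiv.swap_apply_of_ne_of_ne ?_ ?_⟩
    · rintro rfl
      exact h2 hx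
    · rintro rfl
      rw [← h1] at hx
      exact h2 hx
  rw [alt, map_sum, ← Finset.sum_neg_distrib]
  refine Finset.sum_equiv (Equiv.mulLeft (Equiv.swap s s')) (fun τ => ?_) (fun τ _ => ?_)
  · simp only [Finset.mem_filter, Finset.mem_univ, true_and, Equiv.coe_mulLeft]
    exact hG.mul_iff
  · rw [map_smul, rn_rn, Equiv.coe_mulLeft, map_mul, Equiv.Perm.sign_swap hs, Equiv.Perm.coe_mul]
    simp

lemma rn_alt_eq_zero {N : ℕ} (u : Fin m → Let n) (f : Pol (Fin m)) {s s' : Fin m} (hs : s ≠ s')
    (h1 : u s = u s') (h2 : (u s).1 ≠ none) (w : Fin m → Fin N) (hw : w s = w s') :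
    rn w (alt u f) = 0 := by
  have h3 : w ∘ Equiv.swap s s' = w := by
    ext x
    by_cases hx : x = s
    · rw [hx, Function.comp_apply, Equiv.swap_apply_left, hw]
    by_cases hx' : x = s'
    · rw [hx', Function.comp_apply, Equiv.swap_apply_right, hw]
    rw [Function.comp_apply, Equiv.swap_apply_of_ne_of_ne hx hx']
  have h4 : rn w (alt u f) = -rn w (alt u f) := by
    conv_lhs => rw [← h3]
    rw [← rn_rn, alt_swap u f hs h1 h2, map_neg]
  exact self_eq_neg.1 h4

/-- the admissible labels -/
def Adm {N : ℕ} (u : Fin m → Let n) (w : Fin m → Fin (N + 1)) : Prop :=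
  ∀ s, (u s = (none, false) → (w s : ℕ) = 0) ∧ (u s = (none, true) → (w s : ℕ) ≤ 1)

lemma card_odd : (Finset.univ.filter fun a : Let n => a.1 ≠ none).card = 2 * n + 2 := by
  have h1 : (Finset.univ.filter fun a : Let n => a.1 ≠ none) =
      (Finset.univ.filter fun a : Option (Fin (n + 1)) => a ≠ none) ×ˢ (Finset.univ : Finset Bool) := by
    ext a
    simp
  rw [h1, Finset.card_product, Finset.card_univ, Fintype.card_bool, Finset.filter_ne',
    Finset.card_erase_of_mem (Finset.mem_univ _), Finset.card_univ, Fintype.card_option,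
    Fintype.card_fin]
  omega

/-- **the main step** -/
theorem exists_good {h : IsProj R π δ} (hδ : δ = -2 * n) {N : ℕ} {f : Pol (Fin m)}
    (hf : f ∈ Rel h m) (u : Fin m → Let n)
    (h0 : ∃ w : Fin m → Fin (N + 1), Adm u w ∧ rn w (alt u f) ≠ 0) :
    ∃ x' ∈ KK h (N + 1), Good (fun c : Fin (N + 1) => if c = 0 then 0 else 0) x' ∨
      Good (fun c : Fin (N + 1) => if c = 0 then 2 * n + 2 else 0) x' := by
  classical
  obtain ⟨w, hw, hmin⟩ := Finset.exists_min_image
    (Finset.univ.filter fun w : Fin m → Fin (N + 1) => Adm u w ∧ rn w (alt u f) ≠ 0)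
    (fun w => ∑ s, (w s : ℕ)) (by
      obtain ⟨w, hw⟩ := h0
      exact ⟨w, Finset.mem_filter.2 ⟨Finset.mem_univ _, hw⟩⟩)
  rw [Finset.mem_filter] at hw
  obtain ⟨-, hadm, hne⟩ := hw
  have hr := alt_mem (h := h) u hf
  have hG : Good (fun b => (Finset.univ.filter fun s => w s = b).card) (rn w (alt u f)) := by
    refine ⟨hne, fun b => HasWt.rn_one fun j _ => hr.1 j, fun a b hab => ?_⟩
    rw [ee_rn w a b _ (fun j _ => hr.1 j)]
    refine Finset.sum_eq_zero fun j hj => ?_
    have hj : w j = b := (Finset.mem_filter.1 hj).2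
    by_contra h1
    have h2 : Adm u (Function.update w j a) := by
      intro s
      by_cases hs : s = j
      · subst hs
        rw [Function.update_self]
        have h3 := hadm s
        rw [hj] at h3
        have h4 : (a : ℕ) < b := hab
        exact ⟨fun h5 => by have := h3.1 h5; omega, fun h5 => by have := h3.2 h5; omega⟩
      · rw [Function.update_of_ne hs]
        exact hadm s
    have h3 := hmin (Function.update w j a) (Finset.mem_filter.2 ⟨Finset.mem_univ _, h2, h1⟩)
    have h4 : ∑ s, ((Function.update w j a s : Fin (N + 1)) : ℕ) < ∑ s, (w s : ℕ) := by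
      refine Finset.sum_lt_sum (fun s _ => ?_) ⟨j, Finset.mem_univ _, ?_⟩
      · by_cases hs : s = j
        · subst hs
          rw [Function.update_self, hj]
          exact (Fin.lt_def.1 hab).le
        · rw [Function.update_of_ne hs]
      · rw [Function.update_self, hj]
        exact hab
    omega
  obtain ⟨x', hx', hG'⟩ := strip_all (mem_KK w hr) hG (by
    intro b hb t ht1 ht2 ht3 h1
    rw [hδ] at h1
    have h2 : t = 2 * n + b + 2 := by
      have : (t : ℚ) = ((2 * n + b + 2 : ℕ) : ℚ) := by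
        push_cast
        linarith
      exact_mod_cast this
    have hb0 : (b : ℕ) ≠ 0 := fun h => hb (Fin.ext h)
    by_cases hb1 : (b : ℕ) = 1
    · rw [hb1] at h2
      obtain ⟨r, hr⟩ := ht3
      omega
    · have h3 : (Finset.univ.filter fun s => w s = b).card ≤ 2 * n + 2 := by
        rw [← card_odd (n := n)]
        refine Finset.card_le_card_of_injOn u (fun s hs => ?_) (fun s hs s' hs' hss => ?_)
        · have hs := (Finset.mem_filter.1 (Finset.mem_coe.1 hs)).2
          refine Finset.mem_coe.2 (Finset.mem_filter.2 ⟨Finset.mem_univ _, fun h4 => ?_⟩)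
          have h5 := hadm s
          rw [hs] at h5
          rcases hc : (u s).2 with _ | _
          · have := h5.1 (Prod.ext h4 hc)
            omega
          · have := h5.2 (Prod.ext h4 hc)
            omega
        · have hs1 := (Finset.mem_filter.1 (Finset.mem_coe.1 hs)).2
          have hs2 := (Finset.mem_filter.1 (Finset.mem_coe.1 hs')).2
          by_contra h4
          refine hne (rn_alt_eq_zero u f h4 hss (fun h6 => ?_) w (hs1.trans hs2.symm))
          have h5 := hadm s
          rw [hs1] at h5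
          rcases hc : (u s).2 with _ | _
          · have := h5.1 (Prod.ext h6 hc)
            omega
          · have := h5.2 (Prod.ext h6 hc)
            omega
      omega)
  exact strip_zero n hδ _ x' hx' hG'

end Pool.Agent.Run7.h570.GAP
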